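import Pool.Agent.helper26.CS.Defs

/-!
# CS-AdmS: approximations on closed subsets
-/

set_option autoImplicit false

open Set Topology Filter

namespace Pool.Agent.helper26.CS

open Pool.Agent.helper26.CK Pool.Agent.helper26.CR

/-- the sup norm of `C(K × Z)` has good approximations in the class `Q` -/
def AdmQ (Q : Cls) {Z : Type} [TopologicalSpace Z] [CompactSpace Z] (ν : C(Z, ℝ) → ℝ) (K : Type)
    [TopologicalSpace K] [CompactSpace K] : Prop :=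
  ∀ δ : ℝ, 0 < δ → ∃ N : C(K × Z, ℝ) → ℝ, SN C(K × Z, ℝ) N ∧ Q C(K × Z, ℝ) N ∧
    ∀ F, PP (K := K) ν F ≤ N F ∧ N F ≤ (1 + δ) * PP (K := K) ν F

/-- the same for a subset of `K` -/
def AdmS (Q : Cls) {Z : Type} [TopologicalSpace Z] [CompactSpace Z] (ν : C(Z, ℝ) → ℝ) {K : Type}
    [TopologicalSpace K] (X : Set K) : Prop :=
  ∀ [CompactSpace ↥X], AdmQ Q ν ↥X

/-- the empty set: `PP ν F = 0` (supremum over an empty type), `N = 0`; `Q` of the zero function from `hc` and the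
zero map into `C(Z, ℝ)` -/
theorem admS_empty {Q : Cls} (hc : CompProp Q) {K Z : Type} [TopologicalSpace K]
    [TopologicalSpace Z] [CompactSpace Z] {ν : C(Z, ℝ) → ℝ} (hν : EqNorm C(Z, ℝ) ν)
    (hQ : Q C(Z, ℝ) ν) : AdmS Q ν (∅ : Set K) := by
  intro _ δ _
  refine ⟨fun _ => 0, ⟨fun _ _ => (add_zero (0 : ℝ)).ge, fun a _ => (mul_zero |a|).symm⟩, ?_,
    fun F => ?_⟩
  · have h1 := hc C(Z, ℝ) C(↥(∅ : Set K) × Z, ℝ) 0 ν hQ
    have h2 : (fun x : C(↥(∅ : Set K) × Z, ℝ) =>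
        ν ((0 : C(↥(∅ : Set K) × Z, ℝ) →L[ℝ] C(Z, ℝ)) x)) = fun _ => 0 := by
      funext x
      exact hν.map_zero
    rw [h2] at h1
    exact h1
  · have h1 : PP (K := ↥(∅ : Set K)) ν F = 0 := Real.iSup_of_isEmpty _
    rw [h1, mul_zero]
    exact ⟨le_rfl, le_rfl⟩

/-- the family form of the union -/
theorem AdmS_bool {Q : Cls} (hc : CompProp Q) (hs : StarProp Q) {K Z : Type} [TopologicalSpace K]
    [CompactSpace K] [T2Space K] [TopologicalSpace Z] [CompactSpace Z] {ν : C(Z, ℝ) → ℝ}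
    (hν : EqNorm C(Z, ℝ) ν) {V : Set K} {W : Bool → Set K} (hWc : ∀ b, IsClosed (W b))
    (hWne : ∀ b, (W b).Nonempty) (hWV : ∀ b, W b ⊆ V) (hcov : ∀ x ∈ V, ∃ b, x ∈ W b)
    (h : ∀ b, AdmS Q ν (W b)) : AdmS Q ν V := by
  intro _ δ hδ
  have hcp : ∀ b, CompactSpace ↥(W b) := fun b => isCompact_iff_compactSpace.1 (hWc b).isCompact
  have hne : ∀ b, Nonempty ↥(W b) := fun b => (hWne b).to_subtype
  have hneV : Nonempty ↥V := ⟨⟨_, hWV true (hWne true).some_mem⟩⟩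
  let φ : ∀ b, C(↥(W b), ↥V) := fun b => ⟨fun x => ⟨x.1, hWV b x.2⟩, by fun_prop⟩
  have hPP := eqNorm_PP (K := ↥V) hν
  have hM : ∀ i : ULift.{1} Bool, ∃ M : C(↥V × Z, ℝ) → ℝ,
      SN C(↥V × Z, ℝ) M ∧ Q C(↥V × Z, ℝ) M ∧ ∀ F, 1 / 2 * PP (K := ↥(W i.down)) ν
        (pull1 Z (φ i.down) F) ≤ M F ∧ M F ≤ PP (K := ↥V) ν F := by
    intro i
    obtain ⟨N, hN1, hN2, hN3⟩ := h i.down 1 one_pos
    have h1 := scale hc (hN1.comp (pull1 Z (φ i.down))) (hc _ _ (pull1 Z (φ i.down)) N hN2)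
      (a := 1 / 2) (by norm_num)
    refine ⟨_, h1.1, h1.2, fun F => ?_⟩
    have h2 := hN3 (pull1 Z (φ i.down) F)
    have h3 := PP_pull1_le hν (φ i.down) F
    constructor
    · linarith
    · linarith
  choose M hM1 hM2 hM3 using hM
  obtain ⟨N, hN1, hN2, hN3⟩ := hs C(↥V × Z, ℝ) (PP (K := ↥V) ν) hPP
    (ULift.{1} Bool) (fun _ => 0) (fun _ => 1)
    (fun i F => PP (K := ↥(W i.down)) ν (pull1 Z (φ i.down) F)) M δ hδ
    (fun _ => ⟨one_pos, le_rfl⟩)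
    (fun i => ⟨(EqNorm.sn (eqNorm_PP (K := ↥(W i.down)) hν)).comp _, PP_pull1_le hν _⟩)
    (fun i ε hε => by
      obtain ⟨N, hN1, hN2, hN3⟩ := h i.down ε hε
      exact ⟨fun F => N (pull1 Z (φ i.down) F), hN1.comp _, hc _ _ _ N hN2, fun F => hN3 _⟩)
    (fun i => ⟨hM1 i, hM2 i, fun F => (hM3 i F).2⟩)
    (fun c F ε hε => Set.toFinite _)
    (fun F hF => by
      obtain ⟨y, hy⟩ := exists_PP (K := ↥V) hν F
      obtain ⟨b, hb⟩ := hcov y.1 y.2
      have h1 := le_PP_pull1 hν (φ b) ⟨y.1, hb⟩ F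
      have h0 : φ b ⟨y.1, hb⟩ = y := rfl
      rw [h0, hy] at h1
      refine ⟨⟨b⟩, h1, ?_⟩
      have h2 := (hM3 ⟨b⟩ F).1
      have h3 := hPP.pos hF
      change 1 / 2 * PP (K := ↥(W b)) ν (pull1 Z (φ b) F) ≤ M ⟨b⟩ F at h2
      have h4 : 0 < M ⟨b⟩ F := by linarith
      exact h4.ne')
  exact ⟨N, EqNorm.sn hN1, hN2, hN3⟩

/-- union of two closed sets.  If one is empty it is trivial.  Otherwise as `adm_cover` in CR/Adm.lean (with Q, Z, ν fixed):
StarProp on `C(↥(X ∪ Y) × Z)`, `P = PP ν`, index `ULift Bool`, R = PP of the restriction to X (Y) (`pull1` of the inclusion),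
S = 1/2 * (approximation with δ = 1). -/
theorem admS_union {Q : Cls} (hc : CompProp Q) (hs : StarProp Q) {K Z : Type} [TopologicalSpace K]
    [CompactSpace K] [T2Space K] [TopologicalSpace Z] [CompactSpace Z] {ν : C(Z, ℝ) → ℝ}
    (hν : EqNorm C(Z, ℝ) ν) (hQ : Q C(Z, ℝ) ν) {X Y : Set K} (hX : IsClosed X) (hY : IsClosed Y)
    (h1 : AdmS Q ν X) (h2 : AdmS Q ν Y) : AdmS Q ν (X ∪ Y) := by
  rcases X.eq_empty_or_nonempty with hXe | hXn
  · rw [hXe, empty_union]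
    exact h2
  rcases Y.eq_empty_or_nonempty with hYe | hYn
  · rw [hYe, union_empty]
    exact h1
  refine AdmS_bool hc hs hν (W := fun b => cond b X Y) ?_ ?_ ?_ ?_ ?_
  · rintro (_ | _)
    · exact hY
    · exact hX
  · rintro (_ | _)
    · exact hYn
    · exact hXn
  · rintro (_ | _)
    · exact subset_union_right
    · exact subset_union_left
  · rintro x (hx | hx)
    · exact ⟨true, hx⟩
    · exact ⟨false, hx⟩
  · rintro (_ | _)
    · exact @h2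
    · exact @h1

end Pool.Agent.helper26.CS
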