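import Pool.Agent.helper26.CS.Point

/-!
# CS-Img: scattered images of spaces with global separating families

Model: `exists_approx` at the end of CR/Deriv.lean.  Call a clopen set `D ⊆ L` good if `AdmS Q ν (φ '' D')` for all clopen
`D' ⊆ D`.  Subsets of good sets and unions of two good sets are good (`D' = (D' ∩ D₁) ∪ (D' ∩ D₂)`, `admS_union`), ∅ is good.
Claim: every x : K has a clopen neighbourhood V with `φ ⁻¹' V` good.  Otherwise take p relatively isolated in the set of the bad points (K scattered),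
V a clopen neighbourhood of p in which p is the only bad point (`compact_exists_isClopen_in_isOpen`, `totallyDisconnected_of_scattered`).  Then φ ⁻¹' V is good:
for clopen D ⊆ φ ⁻¹' V use `admS_point` at p: a clopen D' ⊆ D with p ∉ φ '' D' is compact and each of its points l has a good clopen
neighbourhood (φ l is not bad); so D' is covered by finitely many good clopen sets, D' is good.
By compactness L (= univ) is good; `φ '' univ = univ` (surjective), and `AdmQ Q ν K` from `AdmS Q ν (univ : Set K)` with the homeomorphism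
K ≃ univ (`pull1` of it).
-/

set_option autoImplicit false

open Set Topology Filter

namespace Pool.Agent.helper26.CS

open Pool.Agent.helper26.CK Pool.Agent.helper26.CR

/-- from the whole space as a subset to the space -/
theorem admQ_of_univ {Q : Cls} (hc : CompProp Q) {K Z : Type} [TopologicalSpace K] [CompactSpace K]
    [TopologicalSpace Z] [CompactSpace Z] {ν : C(Z, ℝ) → ℝ} (h : AdmS Q ν (univ : Set K)) :
    AdmQ Q ν K := by
  intro δ hδ
  have : CompactSpace ↥(univ : Set K) := isCompact_iff_compactSpace.1 isCompact_univ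
  have h' : AdmQ Q ν ↥(univ : Set K) := h
  obtain ⟨N, hN1, hN2, hN3⟩ := h' δ hδ
  let ψ : C(↥(univ : Set K), K) := ⟨Subtype.val, continuous_subtype_val⟩
  have hPP : ∀ F : C(K × Z, ℝ), PP (K := ↥(univ : Set K)) ν (pull1 Z ψ F) = PP (K := K) ν F := by
    intro F
    have hs : Function.Surjective ψ := fun x => ⟨⟨x, mem_univ x⟩, rfl⟩
    unfold PP
    simp only [ev_pull1]
    exact hs.iSup_comp fun x => ν (ev x F)
  refine ⟨fun F => N (pull1 Z ψ F), hN1.comp _, hc _ _ (pull1 Z ψ) N hN2, fun F => ?_⟩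
  have h3 := hN3 (pull1 Z ψ F)
  rwa [hPP] at h3

theorem admQ_image {Q : Cls} (hc : CompProp Q) (hs : StarProp Q) (ht : TreeProp Q) {K L Z : Type}
    [TopologicalSpace K] [CompactSpace K] [T2Space K] [TopologicalSpace L] [CompactSpace L]
    [TopologicalSpace Z] [CompactSpace Z] [T2Space Z] (hK : Scattered K) (φ : C(L, K))
    (hφ : Function.Surjective φ) (S : GSep L) {ν : C(Z, ℝ) → ℝ} (hν : EqNorm C(Z, ℝ) ν)
    (hQ : Q C(Z, ℝ) ν) : AdmQ Q ν K := by
  have htd := totallyDisconnected_of_scattered hK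
  -- good sets
  let Good : Set L → Prop := fun D => ∀ D' ⊆ D, IsClopen D' → AdmS Q ν (φ '' D')
  have hmono : ∀ D E : Set L, E ⊆ D → Good D → Good E := fun D E hE h D' hD' hc' =>
    h D' (hD'.trans hE) hc'
  have hcl : ∀ D : Set L, IsClopen D → IsClosed (φ '' D) := fun D hD =>
    (hD.isClosed.isCompact.image φ.continuous).isClosed
  have hunion : ∀ D E : Set L, IsClopen D → IsClopen E → Good D → Good E → Good (D ∪ E) := by
    intro D E hD hE h1 h2 D' hD' hc'
    have e : φ '' D' = φ '' (D' ∩ D) ∪ φ '' (D' ∩ E) := by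
      rw [← image_union, ← inter_union_distrib_left, inter_eq_self_of_subset_left hD']
    rw [e]
    have h3 : AdmS Q ν (φ '' (D' ∩ D)) := @h1 (D' ∩ D) inter_subset_right (hc'.inter hD)
    have h4 : AdmS Q ν (φ '' (D' ∩ E)) := @h2 (D' ∩ E) inter_subset_right (hc'.inter hE)
    intro _
    exact admS_union hc hs hν hQ (hcl _ (hc'.inter hD)) (hcl _ (hc'.inter hE)) @h3 @h4
  have hempty : Good ∅ := by
    intro D' hD' _
    have e : φ '' D' = (∅ : Set K) := by
      rw [subset_empty_iff.1 hD', image_empty]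
    rw [e]
    intro _
    exact admS_empty hc hν hQ
  -- compact sets covered by good sets
  have hcov : ∀ s : Set L, IsCompact s → (∀ x ∈ s, ∃ A : Set L, IsClopen A ∧ x ∈ A ∧ Good A) →
      ∃ A : Set L, IsClopen A ∧ s ⊆ A ∧ Good A := by
    intro s hs' h
    refine hs'.induction_on (p := fun s => ∃ A : Set L, IsClopen A ∧ s ⊆ A ∧ Good A) ?_ ?_ ?_ ?_
    · exact ⟨∅, isClopen_empty, empty_subset _, hempty⟩
    · rintro s t hst ⟨A, hAc, hA, hA'⟩
      exact ⟨A, hAc, hst.trans hA, hA'⟩
    · rintro s t ⟨A, hAc, hA, hA'⟩ ⟨B, hBc, hB, hB'⟩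
      exact ⟨A ∪ B, hAc.union hBc, union_subset_union hA hB, hunion A B hAc hBc hA' hB'⟩
    · intro x hx
      obtain ⟨A, hAc, hxA, hA⟩ := h x hx
      exact ⟨A, mem_nhdsWithin_of_mem_nhds (hAc.isOpen.mem_nhds hxA), A, hAc, Subset.rfl, hA⟩
  have hall : ∀ x : K, ∃ V : Set K, IsClopen V ∧ x ∈ V ∧ Good (φ ⁻¹' V) := by
    by_contra hcon
    push Not at hcon
    obtain ⟨x0, hx0⟩ := hcon
    obtain ⟨p, hp, U, hU, hUC⟩ :=
      hK {x | ∀ V : Set K, IsClopen V → x ∈ V → ¬ Good (φ ⁻¹' V)} ⟨x0, hx0⟩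
    have hpU : p ∈ U := by
      have : p ∈ U ∩ {x | ∀ V : Set K, IsClopen V → x ∈ V → ¬ Good (φ ⁻¹' V)} := by
        rw [hUC]; exact mem_singleton p
      exact this.1
    obtain ⟨V, hV, hpV, hVU⟩ := compact_exists_isClopen_in_isOpen hU hpU
    refine hp V hV hpV fun D hDV hD => ?_
    refine admS_point hc ht hK φ S hν hQ hD p fun D' hD' hD'c hpD' => ?_
    obtain ⟨A, hAc, hA, hA'⟩ := hcov D' hD'c.isClosed.isCompact (by
      intro l hl
      by_contra hcon'
      push Not at hcon'
      have h1 : φ l ∈ U ∩ {x | ∀ V : Set K, IsClopen V → x ∈ V → ¬ Good (φ ⁻¹' V)} :=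
        ⟨hVU (hDV (hD' hl)), fun V' hV' hlV' =>
          hcon' (φ ⁻¹' V') (hV'.preimage φ.continuous) hlV'⟩
      rw [hUC] at h1
      have h1 : φ l = p := h1
      exact hpD' ⟨l, hl, h1⟩)
    exact hA' D' hA hD'c
  obtain ⟨A, hAc, hA, hA'⟩ := hcov univ isCompact_univ fun l _ => by
    obtain ⟨V, hV, hlV, hVg⟩ := hall (φ l)
    exact ⟨φ ⁻¹' V, hV.preimage φ.continuous, hlV, hVg⟩
  have h1 : AdmS Q ν (φ '' univ) := hA' univ hA isClopen_univ
  have e : φ '' univ = (univ : Set K) := by rw [image_univ, hφ.range_eq]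
  rw [e] at h1
  exact admQ_of_univ hc h1

end Pool.Agent.helper26.CS
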