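import Pool.Agent.helper26.CS.TreeG

/-!
# CS-Tree: from `GainProp` to `TreeProp`

Given the data of TreeProp.  If `A ∅`: the approximations of `R ∅ = P` (EqNorm from `SN` and `P ≤ N ≤ (1+δ) P`).
Otherwise `¬ A ∅`.  Put `δ1 = min δ 1 / 3`, `κ = δ1 / 2` (≤ 1/6), `β = κ / 20`.
For y write `ρ_y i = ρ i y`, `R_y t = R t y`.  New norm
`Ph y = sup (P y, (1 + κ) * ν0 y, R (fs l) y + DD ρ_y β l - GG ρ_y β l j : l leaf, j < l.length)`.
By `DD_le`: `P ≤ Ph ≤ (1 + κ) P` (5/2 β ≤ κ).  Each term is a seminorm: `DD - GG` is the sum of the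
`β (1/2)^m (1 + kk n_m) ρ i_m`, with `1` instead of `1 + kk` at m = j (`DD_eq`, `GG_eq`).
Apply GainProp to `Ph` with δ1 and the index set `Option {l // IsLeaf A l}` (Type 1):
* none: m = 1, R = (1 + κ) * ν0, S = ν0 (for all j), w = κ / 2, e = κ / 8;
* some l: m = l.length, R = R (fs l), S j = if h : j < l.length then ρ l[j].1 else ν0,
  w j = if h : j < l.length then β (1/2)^j (1 + kk l[j].2) else 0, e = ee l; so R + ∑ w S = R (fs l) y + DD ρ_y β l (`DD_eq`).
Bound: `R + DD ≤ Ph + GG ≤ (1 + δ1) Ph` (l ≠ [] as ¬ A ∅; j = 0; `GG_le`); none: (1 + κ + κ/2) ν0 ≤ (1 + δ1) P.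
Finiteness at y, a > 0: r = min 1 (a / β) (say): if Ph (z - y) < r and Ph z + a < R (fs l) z + DD ρ_z β l then for all
j < l.length: a < GG ρ_z β l j = β (1/2)^j kk n_j ρ i_j z, ρ i_j z ≤ P z ≤ P y + 1 =: C: so `a < β (1/2)^j (1/4) (1/2)^n_j C`: j and n_j
bounded by some M, and ρ i_j z > 4 a / β, ρ i_j y ≥ ρ i_j z - P (z - y) ≥ 3 a / β: i_j in a finite set Φ; the lists of length ≤ M with
entries in the finite set Φ × range M form a finite set (`List.finite_length_lt` or so).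
Gain at y ≠ 0, L = Ph y > 0: if (1 + κ) ν0 y = L: none, as (1 + κ/8) L < (1 + κ + κ/2) ν0 y (κ ≤ 1).
If (1 + κ) ν0 y < L: theorem `gain` (hL' from the definition of the supremum).
Result: N with Ph ≤ N ≤ (1 + δ1) Ph; so P ≤ N ≤ (1 + δ1)(1 + κ) P ≤ (1 + δ) P.
-/

set_option autoImplicit false

open Set Topology Filter

namespace Pool.Agent.helper26.CS

open Pool.Agent.helper26.CK Pool.Agent.helper26.CR

section aux

variable {E : Type*} [NormedAddCommGroup E] [NormedSpace ℝ E]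

theorem Tree_eqNorm {P N : E → ℝ} (hP : EqNorm E P) (hN : SN E N) {M : ℝ} (hM : 0 < M)
    (h1 : ∀ y, P y ≤ N y) (h2 : ∀ y, N y ≤ M * P y) : EqNorm E N := by
  obtain ⟨c, C, hc, hC, h⟩ := hP.equiv
  refine ⟨hN.add_le, hN.smul, fun f hf => hP.eq_zero f ?_, c, M * C, hc, by positivity, fun f => ?_⟩
  · exact le_antisymm ((h1 f).trans hf.le) (hP.nonneg f)
  · refine ⟨(h f).1.trans (h1 f), (h2 f).trans ?_⟩
    rw [mul_assoc]
    exact mul_le_mul_of_nonneg_left (h f).2 hM.le

theorem Tree_sn_iSup {ι : Type*} [Nonempty ι] {g : ι → E → ℝ} (hg : ∀ i, SN E (g i))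
    (hb : ∀ y, BddAbove (range fun i => g i y)) : SN E fun y => ⨆ i, g i y := by
  refine ⟨fun f f' => ?_, fun a f => ?_⟩
  · refine ciSup_le fun i => ((hg i).add_le f f').trans ?_
    exact add_le_add (le_ciSup (hb f) i) (le_ciSup (hb f') i)
  · rw [Real.mul_iSup_of_nonneg (abs_nonneg a)]
    exact iSup_congr fun i => (hg i).smul a f

theorem Tree_sn_comb {ι : Type*} (s : Finset ι) {c : ι → ℝ} (hc : ∀ i, 0 ≤ c i) {ρ : ι → E → ℝ}
    (hρ : ∀ i, SN E (ρ i)) {R : E → ℝ} (hR : SN E R) : SN E fun y => R y + ∑ i ∈ s, c i * ρ i y := by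
  refine ⟨fun f g => ?_, fun a f => ?_⟩
  · have h1 : ∑ i ∈ s, c i * ρ i (f + g) ≤ ∑ i ∈ s, c i * ρ i f + ∑ i ∈ s, c i * ρ i g := by
      rw [← Finset.sum_add_distrib]
      refine Finset.sum_le_sum fun i _ => ?_
      rw [← mul_add]
      exact mul_le_mul_of_nonneg_left ((hρ i).add_le f g) (hc i)
    have h2 := hR.add_le f g
    linarith
  · rw [mul_add, hR.smul, Finset.mul_sum]
    congr 1
    refine Finset.sum_congr rfl fun i _ => ?_
    rw [(hρ i).smul]
    ring

end aux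

theorem Tree_fin_lists {α : Type*} {F : Set α} (hF : F.Finite) (M : ℕ) :
    {l : List α | l.length ≤ M ∧ ∀ x ∈ l, x ∈ F}.Finite := by
  have hfin : Finite F := hF
  refine ((List.finite_length_le F M).image (List.map Subtype.val)).subset ?_
  rintro l ⟨h1, h2⟩
  lift l to List F using h2
  refine ⟨l, ?_, rfl⟩
  simpa using h1

section lists

variable {I : Type 1}

/-- the weights -/
noncomputable def Tree_w (β : ℝ) (l : List (I × ℕ)) (j : ℕ) : ℝ :=
  if h : j < l.length then β * (1 / 2) ^ j * (1 + kk l[j].2) else 0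

/-- the seminorms -/
def Tree_S {E : Type} (ρ : I → E → ℝ) (ν0 : E → ℝ) (l : List (I × ℕ)) (j : ℕ) : E → ℝ :=
  if h : j < l.length then ρ l[j].1 else ν0

theorem Tree_w_nonneg {β : ℝ} (hβ : 0 ≤ β) (l : List (I × ℕ)) (j : ℕ) : 0 ≤ Tree_w β l j := by
  unfold Tree_w
  split_ifs with h
  · have := TreeG_kk_nonneg l[j].2
    positivity
  · exact le_rfl

theorem Tree_sum {E : Type} (ρ : I → E → ℝ) (ν0 : E → ℝ) (β : ℝ) (l : List (I × ℕ)) (y : E) :
    ∑ j ∈ Finset.range l.length, Tree_w β l j * Tree_S ρ ν0 l j y = DD (fun i => ρ i y) β l := by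
  rw [DD_eq, Finset.sum_range]
  refine Finset.sum_congr rfl fun j _ => ?_
  unfold Tree_w Tree_S
  rw [dif_pos j.2, dif_pos j.2]
  rfl

theorem Tree_sum_w {β : ℝ} (hβ : 0 ≤ β) (l : List (I × ℕ)) :
    ∑ j ∈ Finset.range l.length, Tree_w β l j ≤ 5 / 2 * β := by
  have h1 : ∑ j ∈ Finset.range l.length, Tree_w β l j = DD (fun _ : I => (1 : ℝ)) β l := by
    rw [DD_eq, Finset.sum_range]
    refine Finset.sum_congr rfl fun j _ => ?_
    unfold Tree_w
    rw [dif_pos j.2, mul_one]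
    rfl
  rw [h1]
  have h2 := DD_le (ρ := fun _ : I => (1 : ℝ)) (p := 1) (fun _ => zero_le_one) (fun _ => le_rfl)
    zero_le_one hβ l
  linarith

/-- the terms are seminorms -/
theorem Tree_term_sn {E : Type} [NormedAddCommGroup E] [NormedSpace ℝ E] {ρ : I → E → ℝ}
    (hρ : ∀ i, SN E (ρ i)) {R : E → ℝ} (hR : SN E R) {β : ℝ} (hβ : 0 ≤ β) (l : List (I × ℕ)) (j : ℕ)
    (hj : j < l.length) :
    SN E fun y => R y + DD (fun i => ρ i y) β l - GG (fun i => ρ i y) β l j := by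
  have h1 : (fun y => R y + DD (fun i => ρ i y) β l - GG (fun i => ρ i y) β l j) =
      fun y => R y + ∑ m ∈ (Finset.univ : Finset (Fin l.length)),
        (if m = ⟨j, hj⟩ then β * (1 / 2) ^ (m : ℕ) else β * (1 / 2) ^ (m : ℕ) * (1 + kk l[m].2)) *
          ρ l[m].1 y := by
    funext y
    rw [add_sub_assoc]
    congr 1
    rw [DD_eq, GG_eq _ _ _ _ hj]
    have h2 : β * (1 / 2) ^ j * kk l[j].2 * ρ l[j].1 y = ∑ m : Fin l.length,
        if m = ⟨j, hj⟩ then β * (1 / 2) ^ (m : ℕ) * kk l[m].2 * ρ l[m].1 y else 0 := by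
      rw [Finset.sum_ite_eq' Finset.univ (⟨j, hj⟩ : Fin l.length)
        (fun m => β * (1 / 2) ^ (m : ℕ) * kk l[m].2 * ρ l[m].1 y), if_pos (Finset.mem_univ _)]
      rfl
    rw [h2, ← Finset.sum_sub_distrib]
    refine Finset.sum_congr rfl fun m _ => ?_
    split_ifs <;> ring
  rw [h1]
  refine Tree_sn_comb Finset.univ (fun m => ?_) (fun m => hρ _) hR
  have := TreeG_kk_nonneg l[m].2
  split_ifs <;> positivity

/-- the finiteness hypothesis of `GainProp` -/
theorem Tree_finite {E : Type} [NormedAddCommGroup E] [NormedSpace ℝ E] {P Ph : E → ℝ} (hP : SN E P)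
    (hPh : ∀ y, P y ≤ Ph y) {ρ : I → E → ℝ} (hρ : ∀ i, SN E (ρ i)) (hρP : ∀ i y, ρ i y ≤ P y)
    (hfin : ∀ y (ε : ℝ), 0 < ε → {i | ε ≤ ρ i y}.Finite) {R : Finset I → E → ℝ} {A : Finset I → Prop}
    {β : ℝ} (hβ : 0 < β) (hterm : ∀ l, IsLeaf A l → ∀ j < l.length, ∀ y,
      R (fs l) y + DD (fun i => ρ i y) β l - GG (fun i => ρ i y) β l j ≤ Ph y) (y : E) {a : ℝ}
    (ha : 0 < a) :
    {l : {l : List (I × ℕ) // IsLeaf A l} | ∃ z, Ph (z - y) < min 1 (a / β) ∧
      Ph z + a < R (fs l.1) z + DD (fun i => ρ i z) β l.1}.Finite := by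
  have hPy := hP.nonneg y
  set C : ℝ := P y + 1 with hC
  have hC0 : 0 < C := by linarith
  obtain ⟨M, hM⟩ := exists_pow_lt_of_lt_one (show 0 < a / (β * C) by positivity)
    (by norm_num : (1 / 2 : ℝ) < 1)
  have hΦ : {i | 3 * (a / β) ≤ ρ i y}.Finite := hfin y _ (by positivity)
  have hF : ({i | 3 * (a / β) ≤ ρ i y} ×ˢ Iio M : Set (I × ℕ)).Finite := hΦ.prod (finite_Iio M)
  refine ((Tree_fin_lists hF M).preimage Subtype.val_injective.injOn).subset fun l hl => ?_
  obtain ⟨z, hz1, hz2⟩ := hl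
  have key : ∀ (j : ℕ) (hj : j < l.1.length),
      a < β * (1 / 2) ^ j * kk (l.1[j]).2 * ρ (l.1[j]).1 z := by
    intro j hj
    have h1 := hterm l.1 l.2 j hj z
    rw [GG_eq _ _ _ _ hj] at h1
    linarith
  have hPz : P (z - y) < min 1 (a / β) := (hPh _).trans_lt hz1
  have hPz1 : P (z - y) < 1 := hPz.trans_le (min_le_left _ _)
  have hPz2 : P (z - y) < a / β := hPz.trans_le (min_le_right _ _)
  have hzC : P z ≤ C := by
    have := hP.sub_le z y
    linarith
  have hbd : ∀ (j : ℕ) (hj : j < l.1.length), j + (l.1[j]).2 < M := by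
    intro j hj
    by_contra hcon
    have hcon := not_lt.1 hcon
    have h1 := key j hj
    have h2 : ρ (l.1[j]).1 z ≤ C := (hρP _ _).trans hzC
    have h3 : ((1 : ℝ) / 2) ^ (j + (l.1[j]).2) ≤ (1 / 2) ^ M :=
      pow_le_pow_of_le_one (by norm_num) (by norm_num) hcon
    have h4 : β * (1 / 2) ^ j * kk (l.1[j]).2 * ρ (l.1[j]).1 z ≤
        β * (1 / 2) ^ j * kk (l.1[j]).2 * C :=
      mul_le_mul_of_nonneg_left h2 (by have := TreeG_kk_nonneg (l.1[j]).2; positivity)
    have h5 : β * (1 / 2) ^ j * kk (l.1[j]).2 * C = (1 / 4) * (β * C) * (1 / 2) ^ (j + (l.1[j]).2) := by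
      unfold kk
      rw [pow_add]
      ring
    have h6 : (1 / 4) * (β * C) * (1 / 2) ^ (j + (l.1[j]).2) ≤ (1 / 4) * (β * C) * (1 / 2) ^ M :=
      mul_le_mul_of_nonneg_left h3 (by positivity)
    have h7 : (β * C) * (1 / 2) ^ M < a := by
      rw [lt_div_iff₀ (by positivity)] at hM
      linarith
    linarith
  have hmem : ∀ (j : ℕ) (hj : j < l.1.length), 3 * (a / β) ≤ ρ (l.1[j]).1 y := by
    intro j hj
    have h1 := key j hj
    have h2 : 0 ≤ ρ (l.1[j]).1 z := (hρ _).nonneg z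
    have h3 : ((1 : ℝ) / 2) ^ j ≤ 1 := pow_le_one₀ (by norm_num) (by norm_num)
    have h4 := TreeG_kk_le (l.1[j]).2
    have h4' := TreeG_kk_nonneg (l.1[j]).2
    have h5 : β * (1 / 2) ^ j * kk (l.1[j]).2 ≤ β * (1 / 4) := by
      calc β * (1 / 2) ^ j * kk (l.1[j]).2 ≤ β * 1 * kk (l.1[j]).2 :=
            mul_le_mul_of_nonneg_right (mul_le_mul_of_nonneg_left h3 hβ.le) h4'
        _ ≤ β * 1 * (1 / 4) := mul_le_mul_of_nonneg_left h4 (by positivity)
        _ = β * (1 / 4) := by ring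
    have h6 : a < β * (1 / 4) * ρ (l.1[j]).1 z := h1.trans_le (mul_le_mul_of_nonneg_right h5 h2)
    have h7 : 4 * (a / β) < ρ (l.1[j]).1 z := by
      rw [← mul_div_assoc, div_lt_iff₀ hβ]
      linarith
    have h8 := (hρ (l.1[j]).1).sub_le z y
    have h9 := hρP (l.1[j]).1 (z - y)
    linarith
  refine ⟨?_, ?_⟩
  · by_contra hcon
    have hj : l.1.length - 1 < l.1.length := by omega
    have := hbd _ hj
    omega
  · intro x hx
    obtain ⟨j, hj, rfl⟩ := List.getElem_of_mem hx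
    refine ⟨hmem j hj, ?_⟩
    have := hbd j hj
    change (l.1[j]).2 < M
    omega

end lists

theorem treeProp {Q : Cls} (hc : CompProp Q) (hg : GainProp Q) : TreeProp Q := by
  intro E _ _ P hP I ρ R A ν0 δ hδ hρ hfin hR hanti hRe hA happ hν0 H
  have hPn := hP.nonneg
  have hPS : SN E P := ⟨hP.add_le, hP.smul⟩
  by_cases hA0 : A ∅
  · -- the easy case
    obtain ⟨N, hN1, hN2, hN3⟩ := happ ∅ hA0 δ hδ
    have h1 : ∀ y, P y ≤ N y ∧ N y ≤ (1 + δ) * P y := by
      intro y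
      rw [← hRe y]
      exact hN3 y
    exact ⟨N, Tree_eqNorm hP hN1 (by linarith) (fun y => (h1 y).1) (fun y => (h1 y).2), hN2, h1⟩
  obtain ⟨δ1, hδ10, hδ11, hδ13⟩ : ∃ δ1 : ℝ, 0 < δ1 ∧ 3 * δ1 ≤ δ ∧ 3 * δ1 ≤ 1 :=
    ⟨min δ 1 / 3, by positivity, by linarith [min_le_left δ 1], by linarith [min_le_right δ 1]⟩
  obtain ⟨κ, hκδ⟩ : ∃ κ : ℝ, δ1 = 2 * κ := ⟨δ1 / 2, by ring⟩
  have hκ0 : 0 < κ := by linarith
  have hκ1 : κ ≤ 1 / 6 := by linarith
  obtain ⟨β, hβκ⟩ : ∃ β : ℝ, κ = 20 * β := ⟨κ / 20, by ring⟩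
  have hβ : 0 < β := by linarith
  have hρS : ∀ i, SN E (ρ i) := fun i => (hρ i).1
  have hρP : ∀ i y, ρ i y ≤ P y := fun i => (hρ i).2.2
  have hρ0 : ∀ y i, 0 ≤ ρ i y := fun y i => (hρS i).nonneg y
  have hν00 : ∀ y, 0 ≤ ν0 y := hν0.1.nonneg
  -- the terms
  let J : Type 1 := {x : List (I × ℕ) × ℕ // IsLeaf A x.1 ∧ x.2 < x.1.length}
  let g : Option (Option J) → E → ℝ := fun o => match o with
    | none => P
    | some none => fun y => (1 + κ) * ν0 y
    | some (some x) => fun y => R (fs x.1.1) y + DD (fun i => ρ i y) β x.1.1 - GG (fun i => ρ i y) β x.1.1 x.1.2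
  have hgS : ∀ o, SN E (g o) := by
    rintro (_ | _ | x)
    · exact hPS
    · refine ⟨fun f f' => ?_, fun a f => ?_⟩
      · change (1 + κ) * ν0 (f + f') ≤ (1 + κ) * ν0 f + (1 + κ) * ν0 f'
        rw [← mul_add]
        exact mul_le_mul_of_nonneg_left (hν0.1.add_le f f') (by linarith)
      · change (1 + κ) * ν0 (a • f) = |a| * ((1 + κ) * ν0 f)
        rw [hν0.1.smul]
        ring
    · exact Tree_term_sn hρS (hR _) hβ.le x.1.1 x.1.2 x.2.2
  have hRP : ∀ t y, R t y ≤ P y := by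
    intro t y
    rw [← hRe y]
    exact hanti ∅ t (Finset.empty_subset t) y
  have hgP : ∀ o y, g o y ≤ (1 + κ) * P y := by
    rintro (_ | _ | x) y
    · change P y ≤ (1 + κ) * P y
      have := mul_nonneg hκ0.le (hPn y)
      linarith
    · exact mul_le_mul_of_nonneg_left (hν0.2.2 y) (by linarith)
    · change R (fs x.1.1) y + DD (fun i => ρ i y) β x.1.1 - GG (fun i => ρ i y) β x.1.1 x.1.2 ≤ (1 + κ) * P y
      have h1 := hRP (fs x.1.1) y
      have h2 := DD_le (ρ := fun i => ρ i y) (hρ0 y) (fun i => hρP i y) (hPn y) hβ.le x.1.1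
      have h3 := GG_nonneg (ρ := fun i => ρ i y) (hρ0 y) hβ.le x.1.1 x.1.2
      have h4 : 5 / 2 * β * P y ≤ κ * P y := mul_le_mul_of_nonneg_right (by linarith) (hPn y)
      linarith
  have hgb : ∀ y, BddAbove (range fun o => g o y) := fun y =>
    ⟨(1 + κ) * P y, by rintro _ ⟨o, rfl⟩; exact hgP o y⟩
  obtain ⟨Ph, hPh⟩ : ∃ Ph : E → ℝ, Ph = fun y => ⨆ o, g o y := ⟨_, rfl⟩
  have hPhS : SN E Ph := by
    rw [hPh]
    exact Tree_sn_iSup hgS hgb
  have hle : ∀ o y, g o y ≤ Ph y := by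
    intro o y
    rw [hPh]
    exact le_ciSup (hgb y) o
  have hPPh : ∀ y, P y ≤ Ph y := fun y => hle none y
  have hPhP : ∀ y, Ph y ≤ (1 + κ) * P y := by
    intro y
    rw [hPh]
    exact ciSup_le fun o => hgP o y
  have hPhE : EqNorm E Ph := Tree_eqNorm hP hPhS (by linarith) hPPh hPhP
  have hPh0 := hPhE.nonneg
  have hνPh : ∀ y, (1 + κ) * ν0 y ≤ Ph y := fun y => hle (some none) y
  have hterm : ∀ l, IsLeaf A l → ∀ j < l.length, ∀ y,
      R (fs l) y + DD (fun i => ρ i y) β l - GG (fun i => ρ i y) β l j ≤ Ph y :=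
    fun l hl j hj y => hle (some (some ⟨(l, j), hl, hj⟩)) y
  -- the data
  let m : Option {l : List (I × ℕ) // IsLeaf A l} → ℕ := fun o => match o with
    | none => 1
    | some l => l.1.length
  let R' : Option {l : List (I × ℕ) // IsLeaf A l} → E → ℝ := fun o => match o with
    | none => fun y => (1 + κ) * ν0 y
    | some l => R (fs l.1)
  let S' : Option {l : List (I × ℕ) // IsLeaf A l} → ℕ → E → ℝ := fun o => match o with
    | none => fun _ => ν0
    | some l => Tree_S ρ ν0 l.1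
  let w : Option {l : List (I × ℕ) // IsLeaf A l} → ℕ → ℝ := fun o => match o with
    | none => fun _ => κ / 2
    | some l => Tree_w β l.1
  let e : Option {l : List (I × ℕ) // IsLeaf A l} → ℝ := fun o => match o with
    | none => κ / 8
    | some l => ee l.1
  have hsumN : ∀ y, R' none y + ∑ j ∈ Finset.range (m none), w none j * S' none j y =
      (1 + κ) * ν0 y + κ / 2 * ν0 y := by
    intro y
    change (1 + κ) * ν0 y + ∑ j ∈ Finset.range 1, κ / 2 * ν0 y = _
    rw [Finset.sum_range_one]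
  have hsumS : ∀ (l : {l : List (I × ℕ) // IsLeaf A l}) y,
      R' (some l) y + ∑ j ∈ Finset.range (m (some l)), w (some l) j * S' (some l) j y =
      R (fs l.1) y + DD (fun i => ρ i y) β l.1 := by
    intro l y
    rw [← Tree_sum ρ ν0 β l.1 y]
  have key : ∃ N, EqNorm E N ∧ Q E N ∧ ∀ y, Ph y ≤ N y ∧ N y ≤ (1 + δ1) * Ph y := by
    refine hg E Ph hPhE (Option {l : List (I × ℕ) // IsLeaf A l}) m R' S' w e δ1
      hδ10 ?_ ?_ ?_ ?_ ?_ ?_ ?_ ?_ ?_
    · -- seminorms
      rintro (_ | l)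
      · exact hgS (some none)
      · exact hR _
    · -- approximations
      rintro (_ | l) ε hε
      · refine ⟨fun y => (1 + κ) * ν0 y, hgS (some none), ?_, fun y => ⟨le_rfl, ?_⟩⟩
        · have h1 := hc E E ((1 + κ) • ContinuousLinearMap.id ℝ E) ν0 hν0.2.1
          have h2 : (fun x => ν0 (((1 + κ) • ContinuousLinearMap.id ℝ E) x)) = fun y => (1 + κ) * ν0 y := by
            funext x
            change ν0 ((1 + κ) • x) = _
            rw [hν0.1.smul_nonneg (by linarith)]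
          rwa [h2] at h1
        · change (1 + κ) * ν0 y ≤ (1 + ε) * ((1 + κ) * ν0 y)
          have h1 : 0 ≤ (1 + κ) * ν0 y := mul_nonneg (by linarith) (hν00 y)
          have h2 := mul_nonneg hε.le h1
          linarith
      · exact happ (fs l.1) l.2.2.1 ε hε
    · -- the summands
      rintro (_ | l) j
      · exact ⟨hν0.1, hν0.2.1, fun y => (hν0.2.2 y).trans (hPPh y)⟩
      · change SN E (Tree_S ρ ν0 l.1 j) ∧ Q E (Tree_S ρ ν0 l.1 j) ∧ ∀ y, Tree_S ρ ν0 l.1 j y ≤ Ph y
        unfold Tree_S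
        split_ifs with h
        · exact ⟨(hρ _).1, (hρ _).2.1, fun y => (hρP _ y).trans (hPPh y)⟩
        · exact ⟨hν0.1, hν0.2.1, fun y => (hν0.2.2 y).trans (hPPh y)⟩
    · -- weights
      rintro (_ | l) j
      · change 0 ≤ κ / 2
        positivity
      · exact Tree_w_nonneg hβ.le _ _
    · rintro (_ | l)
      · change ∑ j ∈ Finset.range 1, κ / 2 ≤ 1 / 2
        rw [Finset.sum_range_one]
        linarith
      · have := Tree_sum_w hβ.le l.1
        change ∑ j ∈ Finset.range l.1.length, Tree_w β l.1 j ≤ 1 / 2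
        linarith
    · rintro (_ | l)
      · change 0 < κ / 8
        positivity
      · change 0 < ee l.1
        unfold ee
        positivity
    · -- the upper bound
      rintro (_ | l) y
      · rw [hsumN]
        have h1 := hνPh y
        have h2 := hPPh y
        have h3 := hν0.2.2 y
        have h4 : κ / 2 * ν0 y ≤ κ / 2 * Ph y := mul_le_mul_of_nonneg_left (h3.trans h2) (by positivity)
        have h5 : κ / 2 * Ph y ≤ δ1 * Ph y := mul_le_mul_of_nonneg_right (by linarith) (hPh0 y)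
        linarith
      · rw [hsumS]
        have hlen : 0 < l.1.length := by
          rw [List.length_pos_iff]
          intro h0
          have h1 := l.2.2.1
          rw [h0] at h1
          exact hA0 h1
        have h1 := hterm l.1 l.2 0 hlen y
        have h2 := GG_le (ρ := fun i => ρ i y) (hρ0 y) (fun i => hρP i y) (hPn y) hβ.le l.1 0
        have h3 : β * (1 / 2) ^ 0 / 4 * P y ≤ δ1 * Ph y := by
          refine mul_le_mul (by rw [pow_zero]; linarith) (hPPh y) (hPn y) hδ10.le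
        linarith
    · -- finiteness
      intro y a ha
      refine ⟨min 1 (a / β), by positivity, ?_⟩
      have h1 := Tree_finite hPS hPPh hρS hρP hfin hβ hterm y ha
      refine ((h1.image some).insert none).subset ?_
      rintro (_ | l) ⟨z, hz1, hz2⟩
      · exact mem_insert _ _
      · refine mem_insert_of_mem _ ⟨l, ⟨z, hz1, ?_⟩, rfl⟩
        rwa [hsumS] at hz2
    · -- the gain
      intro y hy
      have hL0 : 0 < Ph y := hPhE.pos hy
      rcases (hνPh y).lt_or_eq with hlt | heq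
      · have hgain := gain (ρ := fun i => ρ i y) (R := fun t => R t y) (A := A) (β := β) (κ := κ)
          (ν0 := ν0 y) (p := P y) (L := Ph y) (hρ0 y) (fun i => hρP i y) (hfin y)
          (fun s t hst => hanti s t hst y) (hRe y) hA hA0 (hν00 y) hβ (by linarith) (by linarith)
          (fun r T hr hT => H y r T hr hT) hL0 (hPPh y) hlt (fun l hl j hj => hterm l hl j hj y) ?_
        · obtain ⟨l, hl, hl2⟩ := hgain
          refine ⟨some ⟨l, hl⟩, ?_⟩
          rw [hsumS]
          exact hl2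
        · intro c hc'
          have h1 : max c ((1 + κ) * ν0 y) < ⨆ o, g o y := by
            have h2 : Ph y = ⨆ o, g o y := by rw [hPh]
            rw [← h2]
            exact max_lt hc' hlt
          obtain ⟨o, ho⟩ := exists_lt_of_lt_ciSup h1
          rcases o with _ | _ | x
          · exact Or.inl ((le_max_left _ _).trans_lt ho)
          · exact absurd ((le_max_right c _).trans_lt ho) (lt_irrefl _)
          · exact Or.inr ⟨x.1.1, x.2.1, x.1.2, x.2.2, (le_max_left _ _).trans_lt ho⟩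
      · refine ⟨none, ?_⟩
        rw [hsumN, ← heq]
        change (1 + κ / 8) * ((1 + κ) * ν0 y) < _
        have hν : 0 < ν0 y := by
          rw [← heq] at hL0
          by_contra hcon
          have h0 : ν0 y ≤ 0 := not_lt.1 hcon
          have h1 : (1 + κ) * ν0 y ≤ 0 := mul_nonpos_of_nonneg_of_nonpos (by linarith) h0
          linarith
        nlinarith [mul_pos hκ0 hν, mul_pos (mul_pos hκ0 hκ0) hν]
  obtain ⟨N, hN1, hN2, hN3⟩ := key
  refine ⟨N, ?_, hN2, ?_⟩
  · exact hN1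
  · intro y
    refine ⟨(hPPh y).trans (hN3 y).1, (hN3 y).2.trans ?_⟩
    calc (1 + δ1) * Ph y ≤ (1 + δ1) * ((1 + κ) * P y) :=
          mul_le_mul_of_nonneg_left (hPhP y) (by linarith)
      _ = ((1 + δ1) * (1 + κ)) * P y := by ring
      _ ≤ (1 + δ) * P y := by
        refine mul_le_mul_of_nonneg_right ?_ (hPn y)
        nlinarith

end Pool.Agent.helper26.CS
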