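import Pool.Agent.helper26.CS.Defs

/-!
# CS-GMetr: metrizable compact spaces have global separating families

`L` compact, T2, second countable: there are only countably many clopen sets (a clopen set is a finite
union of sets of a countable base), and `L` has a countable dense subset.  If `g` has countable range
and `g x ≠ g y`, there is `t ∉ range g` strictly between `g x` and `g y`; `{g > t}` or `{g < t}` is
clopen, contains `x` and not `y`.  `g` is not constant, so it differs at two points `u, v` of the dense set.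
Indices: triples `i` (clopen set, u, v); J_i g = (1/2)^(c i + 1) (g u - g v), `c` an injection into `ℕ`.
-/

set_option autoImplicit false

open Set Topology Filter

namespace Pool.Agent.helper26.CS

open Pool.Agent.helper26.CK Pool.Agent.helper26.CR

/-- there are only countably many clopen sets -/
theorem GMetr_countable (L : Type) [TopologicalSpace L] [CompactSpace L]
    [SecondCountableTopology L] : Countable {U : Set L // IsClopen U} := by
  have hb : TopologicalSpace.IsTopologicalBasis
      (range (Subtype.val : TopologicalSpace.countableBasis L → Set L)) := by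
    rw [Subtype.range_coe]
    exact TopologicalSpace.isBasis_countableBasis L
  have h : ∀ U : {U : Set L // IsClopen U}, ∃ s : Finset (TopologicalSpace.countableBasis L),
      (U : Set L) = ⋃ i ∈ s, (i : Set L) := by
    intro U
    obtain ⟨s, hs, hU⟩ := eq_finite_iUnion_of_isTopologicalBasis_of_isCompact_open _ hb (U : Set L)
      U.2.isClosed.isCompact U.2.isOpen
    refine ⟨hs.toFinset, ?_⟩
    rw [hU]
    simp only [Set.Finite.mem_toFinset]
  choose s hs using h
  haveI : Countable (TopologicalSpace.countableBasis L) :=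
    (TopologicalSpace.countable_countableBasis L).to_subtype
  refine Function.Injective.countable (f := s) fun U V hUV => ?_
  apply Subtype.ext
  rw [hs U, hs V, hUV]

/-- clopen sets from functions with countable range -/
theorem GMetr_clopen {L : Type} [TopologicalSpace L] (g : C(L, ℝ)) (hg : (range g).Countable)
    {x y : L} (h : g x ≠ g y) : ∃ U : Set L, IsClopen U ∧ x ∈ U ∧ y ∉ U := by
  have hd : Dense (range g)ᶜ := hg.dense_compl ℝ
  rcases lt_or_gt_of_ne h with h1 | h1
  · obtain ⟨t, ht, ht1, ht2⟩ := hd.exists_between h1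
    have he : g ⁻¹' (Iio t) = g ⁻¹' (Iic t) := by
      ext z
      simp only [mem_preimage, mem_Iio, mem_Iic]
      exact ⟨fun hz => hz.le, fun hz => lt_of_le_of_ne hz fun h' => ht ⟨z, h'⟩⟩
    refine ⟨g ⁻¹' (Iio t), ⟨?_, isOpen_Iio.preimage g.continuous⟩, ht1, ?_⟩
    · rw [he]
      exact isClosed_Iic.preimage g.continuous
    · exact fun hy => lt_asymm ht2 hy
  · obtain ⟨t, ht, ht1, ht2⟩ := hd.exists_between h1
    have he : g ⁻¹' (Ioi t) = g ⁻¹' (Ici t) := by
      ext z
      simp only [mem_preimage, mem_Ioi, mem_Ici]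
      exact ⟨fun hz => hz.le, fun hz => lt_of_le_of_ne hz fun h' => ht ⟨z, h'.symm⟩⟩
    refine ⟨g ⁻¹' (Ioi t), ⟨?_, isOpen_Ioi.preimage g.continuous⟩, ht2, ?_⟩
    · rw [he]
      exact isClosed_Ici.preimage g.continuous
    · exact fun hy => lt_asymm ht1 hy

/-- the functionals -/
noncomputable def GMetr_J {L : Type} [TopologicalSpace L] [CompactSpace L] (n : ℕ) (u v : L) :
    C(L, ℝ) →L[ℝ] ℝ :=
  ((1 / 2 : ℝ) ^ (n + 1)) • (ContinuousMap.evalCLM ℝ u - ContinuousMap.evalCLM ℝ v)

theorem GMetr_J_apply {L : Type} [TopologicalSpace L] [CompactSpace L] (n : ℕ) (u v : L)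
    (g : C(L, ℝ)) : GMetr_J n u v g = (1 / 2 : ℝ) ^ (n + 1) * (g u - g v) := by
  simp [GMetr_J]

theorem GMetr_J_le {L : Type} [TopologicalSpace L] [CompactSpace L] (n : ℕ) (u v : L)
    (g : C(L, ℝ)) : |GMetr_J n u v g| ≤ (1 / 2 : ℝ) ^ n * ‖g‖ := by
  rw [GMetr_J_apply, abs_mul, abs_of_nonneg (by positivity)]
  have h1 : |g u - g v| ≤ 2 * ‖g‖ := by
    have ha := g.norm_coe_le_norm u
    have hb := g.norm_coe_le_norm v
    rw [Real.norm_eq_abs] at ha hb
    have := abs_sub (g u) (g v)
    linarith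
  calc (1 / 2 : ℝ) ^ (n + 1) * |g u - g v|
      ≤ (1 / 2 : ℝ) ^ (n + 1) * (2 * ‖g‖) := mul_le_mul_of_nonneg_left h1 (by positivity)
    _ = (1 / 2 : ℝ) ^ n * ‖g‖ := by rw [pow_succ]; ring

theorem GMetr_fin (c ε : ℝ) (hε : 0 < ε) : {n : ℕ | ε ≤ (1 / 2 : ℝ) ^ n * c}.Finite := by
  have ht : Tendsto (fun n : ℕ => (1 / 2 : ℝ) ^ n * c) atTop (𝓝 (0 * c)) :=
    (tendsto_pow_atTop_nhds_zero_of_lt_one (by norm_num) (by norm_num)).mul_const c
  rw [zero_mul] at ht
  obtain ⟨n0, hn0⟩ := eventually_atTop.1 (ht.eventually (gt_mem_nhds hε))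
  refine (Set.finite_Iio n0).subset fun n hn => ?_
  by_contra h2
  exact absurd hn (not_le.2 (hn0 n (not_lt.1 h2)))

theorem gsep_metr (L : Type) [TopologicalSpace L] [CompactSpace L] [T2Space L]
    [SecondCountableTopology L] : Nonempty (GSep L) := by
  haveI := GMetr_countable L
  obtain ⟨D, hD, hDd⟩ := TopologicalSpace.exists_countable_dense L
  haveI : Countable D := hD.to_subtype
  obtain ⟨c, hc⟩ := exists_injective_nat ({U : Set L // IsClopen U} × D × D)
  refine ⟨⟨ULift.{1} ({U : Set L // IsClopen U} × D × D), fun i => i.down.1.1,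
    fun i => i.down.1.2, fun i => GMetr_J (c i.down) i.down.2.1.1 i.down.2.2.1, fun i => ?_,
    fun g ε hε => ?_, fun g hg x y hxy => ?_⟩⟩
  · refine ContinuousLinearMap.opNorm_le_bound _ zero_le_one fun g => ?_
    rw [Real.norm_eq_abs, one_mul]
    refine (GMetr_J_le _ _ _ g).trans ?_
    have h1 : (1 / 2 : ℝ) ^ (c i.down) ≤ 1 := pow_le_one₀ (by norm_num) (by norm_num)
    calc (1 / 2 : ℝ) ^ (c i.down) * ‖g‖ ≤ 1 * ‖g‖ := mul_le_mul_of_nonneg_right h1 (norm_nonneg _)
      _ = ‖g‖ := one_mul _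
  · have hinj : Function.Injective fun i : ULift.{1} ({U : Set L // IsClopen U} × D × D) =>
        c i.down := hc.comp ULift.down_injective
    have h1 := (GMetr_fin ‖g‖ ε hε).preimage hinj.injOn
    refine h1.subset fun i hi => ?_
    exact le_trans hi (GMetr_J_le _ _ _ g)
  · obtain ⟨U, hU, hxU, hyU⟩ := GMetr_clopen g hg hxy
    have hopen : ∀ a : ℝ, IsOpen {z | g z ≠ a} := by
      intro a
      have : {z | g z ≠ a} = g ⁻¹' {a}ᶜ := rfl
      rw [this]
      exact isOpen_compl_singleton.preimage g.continuous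
    obtain ⟨u, hu, huD⟩ := hDd.inter_open_nonempty _ (hopen (g y)) ⟨x, hxy⟩
    obtain ⟨v, hv, hvD⟩ := hDd.inter_open_nonempty _ (hopen (g u)) ⟨y, fun h => hu h.symm⟩
    refine ⟨⟨(⟨U, hU⟩, ⟨u, huD⟩, ⟨v, hvD⟩)⟩, hxU, hyU, ?_⟩
    rw [GMetr_J_apply]
    exact mul_ne_zero (by positivity) (sub_ne_zero.2 fun h => hv h.symm)

end Pool.Agent.helper26.CS
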