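import Pool.Agent.helper26.CS.Defs

/-!
# CS-GOrd: compact ordered spaces have global separating families

The indices are the jumps of the ordered space, with a side; the functionals are the halves of the
differences of the values at the jumps.
-/

set_option autoImplicit false

open Set Topology Filter

namespace Pool.Agent.helper26.CS

open Pool.Agent.helper26.CK Pool.Agent.helper26.CR

section ord
variable {L : Type} [LinearOrder L] [TopologicalSpace L] [OrderTopology L] [CompactSpace L]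

/-- half of the difference at two points -/
noncomputable def GOrd_J (c d : L) : C(L, ℝ) →L[ℝ] ℝ :=
  (1 / 2 : ℝ) • (ContinuousMap.evalCLM ℝ d - ContinuousMap.evalCLM ℝ c)

omit [LinearOrder L] [OrderTopology L] [CompactSpace L] in
theorem GOrd_J_apply (c d : L) (g : C(L, ℝ)) : GOrd_J c d g = 1 / 2 * (g d - g c) := by
  simp [GOrd_J]

theorem GOrd_J_norm (c d : L) : ‖GOrd_J c d‖ ≤ 1 := by
  refine ContinuousLinearMap.opNorm_le_bound _ zero_le_one fun g => ?_
  rw [Real.norm_eq_abs, one_mul, GOrd_J_apply, abs_mul, abs_of_nonneg (by norm_num)]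
  have ha := g.norm_coe_le_norm d
  have hb := g.norm_coe_le_norm c
  rw [Real.norm_eq_abs] at ha hb
  have := abs_sub (g d) (g c)
  linarith

omit [CompactSpace L] in
theorem GOrd_Iic {c d : L} (h : c ⋖ d) : IsClopen (Iic c) := by
  refine ⟨isClosed_Iic, ?_⟩
  have h1 : Iic c = Iio d := by
    ext x
    exact ⟨fun hx => lt_of_le_of_lt hx h.1, fun hx => not_lt.1 fun hh => h.2 hh hx⟩
  rw [h1]
  exact isOpen_Iio

omit [CompactSpace L] in
theorem GOrd_Ici {c d : L} (h : c ⋖ d) : IsClopen (Ici d) := by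
  refine ⟨isClosed_Ici, ?_⟩
  have h1 : Ici d = Ioi c := by
    ext x
    exact ⟨fun hx => lt_of_lt_of_le h.1 hx, fun hx => not_lt.1 fun hh => h.2 hx hh⟩
  rw [h1]
  exact isOpen_Ioi

theorem GOrd_jump_aux (g : C(L, ℝ)) (hg : (range g).Countable) {a b : L} (hab : a ≤ b)
    (hlt : g a < g b) : ∃ s t, a ≤ s ∧ s ⋖ t ∧ t ≤ b ∧ g s ≠ g t := by
  obtain ⟨r, hr, hr1, hr2⟩ : ∃ r, r ∉ range g ∧ g a < r ∧ r < g b := by
    have h1 : (Ioo (g a) (g b) \ range g).Nonempty := by
      by_contra hcon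
      rw [Set.not_nonempty_iff_eq_empty, Set.sdiff_eq_empty] at hcon
      exact Cardinal.Real.Ioo_countable_iff.not.2 (not_le.2 hlt) (hg.mono hcon)
    obtain ⟨r, h2, h3⟩ := h1
    exact ⟨r, h3, h2.1, h2.2⟩
  have hc := g.continuous
  have hcomp : IsCompact {x | x ∈ Icc a b ∧ g x ≤ r} :=
    (isClosed_Icc.inter (isClosed_le hc continuous_const)).isCompact
  obtain ⟨s, ⟨⟨has, hsb⟩, hsr⟩, hsg⟩ :=
    hcomp.exists_isGreatest ⟨a, ⟨le_rfl, hab⟩, hr1.le⟩
  have hsr' : g s < r := lt_of_le_of_ne hsr fun h => hr ⟨s, h⟩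
  have hsb' : s < b := lt_of_le_of_ne hsb (by rintro rfl; exact absurd hsr' (not_lt.2 hr2.le))
  have hU : {x | g x < r} ∈ 𝓝 s := (isOpen_lt hc continuous_const).mem_nhds hsr'
  obtain ⟨u, ⟨hu1, hu2⟩, hu3⟩ := exists_Ico_subset_of_mem_nhds' hU hsb'
  by_cases hcov : s ⋖ u
  · refine ⟨s, u, has, hcov, hu2, ?_⟩
    intro heq
    have : u ≤ s := hsg ⟨⟨has.trans hu1.le, hu2⟩, by rw [← heq]; exact hsr⟩
    exact absurd this (not_le.2 hu1)
  · exfalso
    rw [CovBy] at hcov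
    push Not at hcov
    obtain ⟨x, hx1, hx2⟩ := hcov hu1
    have hxr : g x < r := hu3 ⟨hx1.le, hx2⟩
    have : x ≤ s := hsg ⟨⟨has.trans hx1.le, hx2.le.trans hu2⟩, hxr.le⟩
    exact absurd this (not_le.2 hx1)

theorem GOrd_jump (g : C(L, ℝ)) (hg : (range g).Countable) {a b : L} (hab : a ≤ b)
    (hne : g a ≠ g b) : ∃ s t, a ≤ s ∧ s ⋖ t ∧ t ≤ b ∧ g s ≠ g t := by
  rcases lt_or_gt_of_ne hne with hlt | hgt
  · exact GOrd_jump_aux g hg hab hlt
  · have hg2 : (range (-g)).Countable := by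
      have h1 : range (-g) = (fun x : ℝ => -x) '' range g := by
        ext r
        constructor
        · rintro ⟨x, rfl⟩
          exact ⟨g x, ⟨x, rfl⟩, rfl⟩
        · rintro ⟨-, ⟨x, rfl⟩, rfl⟩
          exact ⟨x, rfl⟩
      rw [h1]
      exact hg.image _
    obtain ⟨s, t, h1, h2, h3, h4⟩ := GOrd_jump_aux (-g) hg2 hab (by simpa using hgt)
    exact ⟨s, t, h1, h2, h3, fun hh => h4 (by simp [hh])⟩

theorem GOrd_fin (g : C(L, ℝ)) {ε : ℝ} (hε : 0 < ε) :
    {p : {p : L × L // p.1 ⋖ p.2} | ε ≤ |GOrd_J p.1.1 p.1.2 g|}.Finite := by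
  have h1 := finite_jumps g.continuous hε
  refine (h1.preimage (f := (Subtype.val : {p : L × L // p.1 ⋖ p.2} → L × L))
    Subtype.val_injective.injOn).subset ?_
  intro p hp
  have hp : ε ≤ |GOrd_J p.1.1 p.1.2 g| := hp
  refine ⟨p.2, ?_⟩
  rw [GOrd_J_apply, abs_mul, abs_of_nonneg (by norm_num)] at hp
  rw [dist_comm, Real.dist_eq]
  have := abs_nonneg (g p.1.2 - g p.1.1)
  linarith

end ord

theorem gsep_ord (L : Type) [LinearOrder L] [TopologicalSpace L] [OrderTopology L]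
    [CompactSpace L] : Nonempty (GSep L) := by
  refine ⟨⟨ULift.{1} (Bool × {p : L × L // p.1 ⋖ p.2}),
    fun i => if i.down.1 then Iic i.down.2.1.1 else Ici i.down.2.1.2, fun i => ?_,
    fun i => GOrd_J i.down.2.1.1 i.down.2.1.2, fun i => GOrd_J_norm _ _, fun g ε hε => ?_,
    fun g hg x y hxy => ?_⟩⟩
  · split_ifs
    · exact GOrd_Iic i.down.2.2
    · exact GOrd_Ici i.down.2.2
  · have h1 := ((Set.finite_univ (α := Bool)).prod (GOrd_fin g hε)).preimage
      (f := ULift.down.{1}) ULift.down_injective.injOn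
    exact h1.subset fun i hi => ⟨mem_univ _, hi⟩
  · rcases le_total x y with h | h
    · obtain ⟨s, t, h1, h2, h3, h4⟩ := GOrd_jump g hg h hxy
      refine ⟨⟨(true, ⟨(s, t), h2⟩)⟩, ?_, ?_, ?_⟩
      · exact h1
      · exact not_le.2 (lt_of_lt_of_le h2.1 h3)
      · rw [GOrd_J_apply]
        exact mul_ne_zero (by norm_num) (sub_ne_zero.2 h4.symm)
    · obtain ⟨s, t, h1, h2, h3, h4⟩ := GOrd_jump g hg h hxy.symm
      refine ⟨⟨(false, ⟨(s, t), h2⟩)⟩, ?_, ?_, ?_⟩
      · exact h3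
      · exact not_le.2 (lt_of_le_of_lt h1 h2.1)
      · rw [GOrd_J_apply]
        exact mul_ne_zero (by norm_num) (sub_ne_zero.2 h4.symm)

end Pool.Agent.helper26.CS
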