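import Pool.Agent.helper26.CS.Defs

/-!
# CS-GStep: limits of retractive sequences

Model: CR/SepR.lean (`sep_step`), same functionals and sets.  For α < θ let S α be a family for
`range (R.r α)`.  Indices: `ULift` / sigma type of (none, i : (S 0).I) and (α < θ, i : (S (α+1)).I):
U = preimage under `R.r (α+1)` (codomain-restricted), J g = J_i ((g ∘ r_(α+1) - g ∘ r_α) restricted to range r_(α+1)) / 2.
Finiteness: `{α | ‖g ∘ r_(α+1) - g ∘ r_α‖ ≥ ε}` is finite (in SepR).  Separation: g with countable range,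
g x ≠ g y: either g (r_0 x) ≠ g (r_0 y): use S 0 and g restricted to range r_0 (countable range), or there is α < θ with
g (r_(α+1) x) - g (r_(α+1) y) ≠ g (r_α x) - g (r_α y) (SepR): h = g ∘ r_(α+1) - g ∘ r_α restricted to range r_(α+1) has
countable range (differences of elements of range g) and h(r_(α+1) x) ≠ h(r_(α+1) y).
-/

set_option autoImplicit false

open Set Topology Filter

namespace Pool.Agent.helper26.CS

open Pool.Agent.helper26.CK Pool.Agent.helper26.CR

theorem gsep_step {L : Type} [TopologicalSpace L] [CompactSpace L] [T2Space L] {θ : Ordinal.{0}}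
    (hθ : Order.IsSuccLimit θ) (R : RSeq L θ)
    (h : ∀ α < θ, Nonempty (GSep (range (R.r α)))) : Nonempty (GSep L) := by
  classical
  have S0 : GSep (range (R.r 0)) := (h 0 hθ.bot_lt).some
  have S : ∀ α : Iio θ, GSep (range (R.r (Order.succ α.1))) :=
    fun α => (h (Order.succ α.1) (hθ.succ_lt α.2)).some
  refine ⟨{
    I := S0.I ⊕ (Σ α : Iio θ, (S α).I)
    U := Sum.elim (fun i => SepR_to R 0 ⁻¹' S0.U i)
      (fun i => SepR_to R (Order.succ i.1.1) ⁻¹' (S i.1).U i.2)
    clopen := ?_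
    J := Sum.elim (fun i => (S0.J i).comp (SepR_res R 0))
      (fun i => (1 / 2 : ℝ) • (((S i.1).J i.2).comp (SepR_D R i.1.1)))
    norm_le := ?_
    fin := ?_
    sep := ?_ }⟩
  · rintro (i | ⟨α, i⟩)
    · exact (S0.clopen i).preimage (SepR_to_cont R 0)
    · exact ((S α).clopen i).preimage (SepR_to_cont R _)
  · rintro (i | ⟨α, i⟩)
    · refine ContinuousLinearMap.opNorm_le_bound _ zero_le_one fun g => ?_
      change ‖S0.J i (SepR_res R 0 g)‖ ≤ 1 * ‖g‖
      have h1 := (S0.J i).le_opNorm (SepR_res R 0 g)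
      have h2 := mul_le_mul (S0.norm_le i) (SepR_res_le R 0 g) (norm_nonneg _) zero_le_one
      exact h1.trans h2
    · refine ContinuousLinearMap.opNorm_le_bound _ zero_le_one fun g => ?_
      change ‖(1 / 2 : ℝ) • (S α).J i (SepR_D R α.1 g)‖ ≤ 1 * ‖g‖
      have h1 := ((S α).J i).le_opNorm (SepR_D R α.1 g)
      have h2 := mul_le_mul ((S α).norm_le i) (SepR_D_le R α.1 g) (norm_nonneg _) zero_le_one
      rw [smul_eq_mul, norm_mul]
      have h3 : ‖(1 / 2 : ℝ)‖ = 1 / 2 := by norm_num
      rw [h3]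
      linarith
  · intro g ε hε
    have hF : (Subtype.val ⁻¹' {α | ∃ x, ε ≤ |g (R.r (Order.succ α) x) - g (R.r α x)|} :
        Set (Iio θ)).Finite := Finite.preimage Subtype.val_injective.injOn (R.fin_jumps g hε)
    refine (((S0.fin (SepR_res R 0 g) ε hε).image Sum.inl).union
      ((hF.biUnion (t := fun α => Sigma.mk α ''
        {i | ε ≤ |(S α).J i (SepR_D R α.1 g)|}) (fun α _ =>
          ((S α).fin (SepR_D R α.1 g) ε hε).image _)).image Sum.inr)).subset ?_
    rintro (i | ⟨α, i⟩) hi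
    · exact Or.inl ⟨i, hi, rfl⟩
    · right
      have hi' : ε ≤ |(1 / 2 : ℝ) • (S α).J i (SepR_D R α.1 g)| := hi
      rw [smul_eq_mul, abs_mul] at hi'
      have h3 : |(1 / 2 : ℝ)| = 1 / 2 := by norm_num
      rw [h3] at hi'
      have h4 := abs_nonneg ((S α).J i (SepR_D R α.1 g))
      refine ⟨⟨α, i⟩, mem_iUnion₂.2 ⟨α, ?_, i, ?_, rfl⟩, rfl⟩
      · by_contra hcon
        have hcon : ∀ x, |g (R.r (Order.succ α.1) x) - g (R.r α.1 x)| < ε := by
          intro x
          by_contra hx
          exact hcon ⟨x, not_lt.1 hx⟩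
        have h5 : ‖SepR_D R α.1 g‖ < ε := by
          rw [ContinuousMap.norm_lt_iff _ hε]
          rintro ⟨_, y, rfl⟩
          have := hcon y
          rw [← SepR_D_to R α.1 g y] at this
          exact this
        have h6 := ((S α).J i).le_opNorm (SepR_D R α.1 g)
        have h7 : ‖(S α).J i‖ * ‖SepR_D R α.1 g‖ ≤ 1 * ‖SepR_D R α.1 g‖ :=
          mul_le_mul_of_nonneg_right ((S α).norm_le i) (norm_nonneg _)
        rw [Real.norm_eq_abs] at h6
        linarith
      · change ε ≤ |(S α).J i (SepR_D R α.1 g)|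
        linarith
  · intro g hg x y hxy
    by_cases h0 : g (R.r 0 x) = g (R.r 0 y)
    · obtain ⟨α, hα, hne⟩ : ∃ α < θ, g (R.r (Order.succ α) x) - g (R.r α x) ≠
          g (R.r (Order.succ α) y) - g (R.r α y) := by
        by_contra hcon
        push Not at hcon
        exact hxy (R.SepR_same g h0 hcon)
      rw [← SepR_D_to R α g x, ← SepR_D_to R α g y] at hne
      have hc : (range (SepR_D R α g)).Countable := by
        refine (hg.image2 hg fun a b => a - b).mono ?_
        rintro _ ⟨z, rfl⟩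
        exact ⟨g z.1, mem_range_self _, g (R.r α z.1), mem_range_self _, rfl⟩
      obtain ⟨i, hi1, hi2, hi3⟩ := (S ⟨α, hα⟩).sep (SepR_D R α g) hc
        (SepR_to R (Order.succ α) x) (SepR_to R (Order.succ α) y) hne
      refine ⟨Sum.inr ⟨⟨α, hα⟩, i⟩, hi1, hi2, ?_⟩
      change (1 / 2 : ℝ) • (S ⟨α, hα⟩).J i (SepR_D R α g) ≠ 0
      rw [smul_eq_mul]
      exact mul_ne_zero (by norm_num) hi3
    · have hne : SepR_res R 0 g (SepR_to R 0 x) ≠ SepR_res R 0 g (SepR_to R 0 y) := h0
      have hc : (range (SepR_res R 0 g)).Countable := by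
        refine hg.mono ?_
        rintro _ ⟨z, rfl⟩
        exact mem_range_self z.1
      obtain ⟨i, hi1, hi2, hi3⟩ := S0.sep (SepR_res R 0 g) hc (SepR_to R 0 x) (SepR_to R 0 y) hne
      exact ⟨Sum.inl i, hi1, hi2, hi3⟩

end Pool.Agent.helper26.CS
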