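import Pool.Agent.helper26.CS.Defs
import Pool.Agent.helper26.CR.StarC

/-!
# CS-GainC: the C¹ case

`θ = (1 + δ)⁻¹` in `exists_c1_of_fun'`.  For `i` put `a i = e i / (16 * (1 + δ))`, `η i = e i / 16` (with `e i`
replaced by `min (e i) 1`), choose `M i` in C1S with `R i ≤ M i ≤ (1 + a i) R i`.  The seminorms `S i j` are replaced
by the convex functions `hu η (S i j y)`, `hu η s = (sp (s - η) - sp (s - 3 η)) / (4 η)`, `s - 2 η ≤ hu η s ≤ s`.
-/

set_option autoImplicit false

open Set Topology Filter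

namespace Pool.Agent.helper26.CS

open Pool.Agent.helper26.CK Pool.Agent.helper26.CR

/-- a `C¹` convex approximation of `max s 0`, which is zero near `0` -/
noncomputable def hu (η s : ℝ) : ℝ := (sp (s - η) - sp (s - 3 * η)) / (4 * η)

theorem hu_ge {η s u : ℝ} (hη : 0 < η) (hu0 : 0 ≤ u) (hu1 : u ≤ 1) :
    u * (s - η) - η * u ^ 2 ≤ hu η s := by
  unfold hu
  rw [le_div_iff₀ (by positivity)]
  rcases le_total s η with h | h
  · rw [sp_zero_of (by linarith : s - η ≤ 0), sp_zero_of (by linarith : s - 3 * η ≤ 0)]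
    have h1 : u * (s - η) ≤ 0 := mul_nonpos_of_nonneg_of_nonpos hu0 (by linarith)
    have h2 : 0 ≤ η * u ^ 2 := by positivity
    have h3 : (u * (s - η) - η * u ^ 2) * (4 * η) ≤ 0 :=
      mul_nonpos_of_nonpos_of_nonneg (by linarith) (by positivity)
    linarith
  · rw [sp_of_nonneg (by linarith : 0 ≤ s - η)]
    rcases le_total s (3 * η) with h' | h'
    · rw [sp_zero_of (by linarith : s - 3 * η ≤ 0)]
      nlinarith [sq_nonneg (s - η - 2 * η * u)]
    · rw [sp_of_nonneg (by linarith : 0 ≤ s - 3 * η)]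
      have h1 : 0 ≤ (1 - u) * (s - η - η * (1 + u)) := by
        apply mul_nonneg (by linarith)
        nlinarith
      nlinarith [mul_nonneg hη.le h1]

theorem hu_eq {η : ℝ} (hη : 0 < η) (s : ℝ) :
    ∃ u : ℝ, 0 ≤ u ∧ u ≤ 1 ∧ hu η s = u * (s - η) - η * u ^ 2 := by
  unfold hu
  rcases le_total s η with h | h
  · refine ⟨0, le_rfl, zero_le_one, ?_⟩
    rw [sp_zero_of (by linarith : s - η ≤ 0), sp_zero_of (by linarith : s - 3 * η ≤ 0)]
    simp
  · rcases le_total s (3 * η) with h' | h'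
    · refine ⟨(s - η) / (2 * η), by apply div_nonneg <;> linarith,
        by rw [div_le_one (by positivity)]; linarith, ?_⟩
      rw [sp_of_nonneg (by linarith : 0 ≤ s - η), sp_zero_of (by linarith : s - 3 * η ≤ 0)]
      field_simp
      ring
    · refine ⟨1, zero_le_one, le_rfl, ?_⟩
      rw [sp_of_nonneg (by linarith : 0 ≤ s - η), sp_of_nonneg (by linarith : 0 ≤ s - 3 * η)]
      field_simp
      ring

theorem hu_nonneg {η : ℝ} (hη : 0 < η) (s : ℝ) : 0 ≤ hu η s := by
  have := hu_ge (s := s) hη le_rfl zero_le_one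
  simpa using this

theorem le_hu {η : ℝ} (hη : 0 < η) (s : ℝ) : s - 2 * η ≤ hu η s := by
  have := hu_ge (s := s) hη zero_le_one le_rfl
  linarith

theorem hu_le {η s : ℝ} (hη : 0 < η) (hs : 0 ≤ s) : hu η s ≤ s := by
  obtain ⟨u, h0, h1, h2⟩ := hu_eq hη s
  rw [h2]
  have h3 : u * s ≤ 1 * s := mul_le_mul_of_nonneg_right h1 hs
  have h4 : 0 ≤ u * η := by positivity
  have h5 : 0 ≤ η * u ^ 2 := by positivity
  nlinarith

theorem hu_mono {η : ℝ} (hη : 0 < η) {s t : ℝ} (h : s ≤ t) : hu η s ≤ hu η t := by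
  obtain ⟨u, h0, h1, h2⟩ := hu_eq hη s
  have h3 := hu_ge (s := t) hη h0 h1
  have h4 : u * (s - η) ≤ u * (t - η) := mul_le_mul_of_nonneg_left (by linarith) h0
  linarith

theorem hu_conv {η : ℝ} (hη : 0 < η) {s t a b : ℝ} (ha : 0 ≤ a) (hb : 0 ≤ b) (hab : a + b = 1) :
    hu η (a * s + b * t) ≤ a * hu η s + b * hu η t := by
  obtain ⟨u, h0, h1, h2⟩ := hu_eq hη (a * s + b * t)
  have h3 := mul_le_mul_of_nonneg_left (hu_ge (s := s) hη h0 h1) ha
  have h4 := mul_le_mul_of_nonneg_left (hu_ge (s := t) hη h0 h1) hb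
  have h5 : b = 1 - a := by linarith
  subst h5
  nlinarith

/-- the data of `GainProp`, with approximations `M` of the `R i` -/
structure GSys (E : Type) [NormedAddCommGroup E] [NormedSpace ℝ E] (I : Type*) (P : E → ℝ) where
  /-- the numbers of terms -/
  m : I → ℕ
  /-- large seminorms -/
  R : I → E → ℝ
  /-- small seminorms -/
  S : I → ℕ → E → ℝ
  /-- weights -/
  w : I → ℕ → ℝ
  /-- gains -/
  e : I → ℝ
  /-- the precision -/
  δ : ℝ
  /-- approximations -/
  M : I → E → ℝ
  δ_pos : 0 < δ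
  hR : ∀ i, SN E (R i)
  hM : ∀ i, SN E (M i)
  M_C1 : ∀ i, C1S E (M i)
  M_ge : ∀ i y, R i y ≤ M i y
  M_le : ∀ i y, M i y ≤ (1 + e i / (16 * (1 + δ))) * R i y
  hS : ∀ i j, SN E (S i j)
  S_C1 : ∀ i j, C1S E (S i j)
  S_le : ∀ i j y, S i j y ≤ P y
  w_nonneg : ∀ i j, 0 ≤ w i j
  w_sum : ∀ i, ∑ j ∈ Finset.range (m i), w i j ≤ 1 / 2
  e_pos : ∀ i, 0 < e i
  e_le : ∀ i, e i ≤ 1
  tot : ∀ i y, R i y + ∑ j ∈ Finset.range (m i), w i j * S i j y ≤ (1 + δ) * P y
  fin : ∀ y (a : ℝ), 0 < a → ∃ r : ℝ, 0 < r ∧ {i | ∃ z, P (z - y) < r ∧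
      P z + a < R i z + ∑ j ∈ Finset.range (m i), w i j * S i j z}.Finite
  catch_ : ∀ y, y ≠ 0 → ∃ i, (1 + e i) * P y < R i y + ∑ j ∈ Finset.range (m i), w i j * S i j y

namespace GSys

variable {E : Type} [NormedAddCommGroup E] [NormedSpace ℝ E] {I : Type*} {P : E → ℝ}

/-- the sum of the seminorms -/
noncomputable def Q (T : GSys E I P) (i : I) (y : E) : ℝ :=
  T.R i y + ∑ j ∈ Finset.range (T.m i), T.w i j * T.S i j y

/-- the small factor -/
noncomputable def a (T : GSys E I P) (i : I) : ℝ := T.e i / (16 * (1 + T.δ))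

/-- the smooth replacement of the sum of the small seminorms -/
noncomputable def H (T : GSys E I P) (i : I) (y : E) : ℝ :=
  ∑ j ∈ Finset.range (T.m i), T.w i j * hu (T.e i / 16) (T.S i j y)

/-- the smooth replacement of the sum of the seminorms -/
noncomputable def arg (T : GSys E I P) (i : I) (y : E) : ℝ :=
  (1 - T.a i) * T.M i y + T.H i y

/-- one term -/
noncomputable def term (T : GSys E I P) (i : I) (y : E) : ℝ := sp ((T.arg i y - 1) / (T.e i / 8))

/-- the function -/
noncomputable def F (T : GSys E I P) (y : E) : ℝ := ∑' i, T.term i y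

variable (T : GSys E I P)

theorem eta_pos (i : I) : 0 < T.e i / 16 := by
  have := T.e_pos i
  positivity

theorem a_pos (i : I) : 0 < T.a i := by
  have := T.e_pos i
  have := T.δ_pos
  unfold a; positivity

theorem a_le (i : I) : T.a i ≤ 1 / 16 := by
  have h1 := T.e_pos i
  have h2 := T.δ_pos
  have h3 := T.e_le i
  unfold a
  rw [div_le_iff₀ (by positivity)]
  nlinarith

theorem S_nonneg (i : I) (j : ℕ) (y : E) : 0 ≤ T.S i j y := (T.hS i j).nonneg y

theorem sumS_nonneg (i : I) (y : E) :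
    0 ≤ ∑ j ∈ Finset.range (T.m i), T.w i j * T.S i j y :=
  Finset.sum_nonneg fun j _ => mul_nonneg (T.w_nonneg i j) (T.S_nonneg i j y)

theorem H_nonneg (i : I) (y : E) : 0 ≤ T.H i y :=
  Finset.sum_nonneg fun j _ => mul_nonneg (T.w_nonneg i j) (hu_nonneg (T.eta_pos i) _)

theorem H_le (i : I) (y : E) :
    T.H i y ≤ ∑ j ∈ Finset.range (T.m i), T.w i j * T.S i j y :=
  Finset.sum_le_sum fun j _ =>
    mul_le_mul_of_nonneg_left (hu_le (T.eta_pos i) (T.S_nonneg i j y)) (T.w_nonneg i j)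

theorem sumS_le (i : I) (y : E) (hP : 0 ≤ P y) :
    ∑ j ∈ Finset.range (T.m i), T.w i j * T.S i j y ≤ 1 / 2 * P y := by
  calc ∑ j ∈ Finset.range (T.m i), T.w i j * T.S i j y
      ≤ ∑ j ∈ Finset.range (T.m i), T.w i j * P y :=
        Finset.sum_le_sum fun j _ => mul_le_mul_of_nonneg_left (T.S_le i j y) (T.w_nonneg i j)
    _ = (∑ j ∈ Finset.range (T.m i), T.w i j) * P y := by rw [Finset.sum_mul]
    _ ≤ 1 / 2 * P y := mul_le_mul_of_nonneg_right (T.w_sum i) hP

theorem H_ge (i : I) (y : E) :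
    ∑ j ∈ Finset.range (T.m i), T.w i j * T.S i j y - T.e i / 16 ≤ T.H i y := by
  have h1 : ∑ j ∈ Finset.range (T.m i), T.w i j * (T.S i j y - 2 * (T.e i / 16)) ≤ T.H i y :=
    Finset.sum_le_sum fun j _ =>
      mul_le_mul_of_nonneg_left (le_hu (T.eta_pos i) _) (T.w_nonneg i j)
  have h2 : ∑ j ∈ Finset.range (T.m i), T.w i j * (T.S i j y - 2 * (T.e i / 16)) =
      ∑ j ∈ Finset.range (T.m i), T.w i j * T.S i j y -
        (∑ j ∈ Finset.range (T.m i), T.w i j) * (2 * (T.e i / 16)) := by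
    rw [Finset.sum_mul, ← Finset.sum_sub_distrib]
    exact Finset.sum_congr rfl fun j _ => by ring
  have h3 : (∑ j ∈ Finset.range (T.m i), T.w i j) * (2 * (T.e i / 16)) ≤
      1 / 2 * (2 * (T.e i / 16)) :=
    mul_le_mul_of_nonneg_right (T.w_sum i) (by have := T.eta_pos i; linarith)
  rw [h2] at h1
  linarith

theorem M_le' (i : I) (y : E) : (1 - T.a i) * T.M i y ≤ T.R i y := by
  have h1 : T.M i y ≤ (1 + T.a i) * T.R i y := T.M_le i y
  have h2 := (T.hR i).nonneg y
  have h3 := T.a_pos i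
  have h4 := T.a_le i
  calc (1 - T.a i) * T.M i y ≤ (1 - T.a i) * ((1 + T.a i) * T.R i y) :=
        mul_le_mul_of_nonneg_left h1 (by linarith)
    _ = T.R i y - T.a i ^ 2 * T.R i y := by ring
    _ ≤ T.R i y := by
        have : 0 ≤ T.a i ^ 2 * T.R i y := by positivity
        linarith

theorem R_le (i : I) (y : E) : T.R i y ≤ (1 + T.δ) * P y := by
  have h1 := T.tot i y
  have h2 := T.sumS_nonneg i y
  linarith

theorem arg_le (i : I) (y : E) : T.arg i y ≤ T.Q i y := by
  unfold arg Q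
  have h1 := T.M_le' i y
  have h2 := T.H_le i y
  linarith

theorem arg_ge (i : I) (y : E) (hy : P y ≤ 1) : T.Q i y - T.e i / 8 ≤ T.arg i y := by
  unfold arg Q
  have h1 := T.H_ge i y
  have h2 := T.M_ge i y
  have h3 := T.a_pos i
  have h4 := T.a_le i
  have h5 := T.R_le i y
  have h6 := (T.hR i).nonneg y
  have h7 := T.δ_pos
  have h8 : T.a i * T.R i y ≤ T.e i / 16 := by
    calc T.a i * T.R i y ≤ T.a i * ((1 + T.δ) * 1) := by
          apply mul_le_mul_of_nonneg_left _ h3.le
          exact h5.trans (mul_le_mul_of_nonneg_left hy (by linarith))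
      _ = T.e i / 16 := by
          unfold a
          field_simp
  have h9 : (1 - T.a i) * T.R i y ≤ (1 - T.a i) * T.M i y :=
    mul_le_mul_of_nonneg_left h2 (by linarith)
  linarith

theorem term_nonneg (i : I) (y : E) : 0 ≤ T.term i y := sp_nonneg _

theorem term_zero_of' {i : I} {y : E} (h : T.arg i y ≤ 1) : T.term i y = 0 := by
  apply sp_zero_of
  apply div_nonpos_of_nonpos_of_nonneg
  · linarith
  · have := T.e_pos i
    positivity

theorem term_zero_of {i : I} {y : E} (h : T.Q i y ≤ 1) : T.term i y = 0 :=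
  T.term_zero_of' ((T.arg_le i y).trans h)

/-- local finiteness -/
theorem loc_fin (hP : EqNorm E P) {y0 : E} (hy0 : P y0 < 1) :
    ∃ A : Finset I, ∀ᶠ y in 𝓝 y0, ∀ i, i ∉ A → T.term i y = 0 := by
  classical
  set a := (1 - P y0) / 2 with ha
  have ha0 : 0 < a := by rw [ha]; linarith
  obtain ⟨r, hr, hfin⟩ := T.fin y0 a ha0
  refine ⟨hfin.toFinset, ?_⟩
  have e1 : ∀ᶠ y in 𝓝 y0, P y < 1 - a := by
    have : Tendsto P (𝓝 y0) (𝓝 (P y0)) := hP.continuous.continuousAt
    exact this.eventually_lt_const (by rw [ha]; linarith)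
  have e2 : ∀ᶠ y in 𝓝 y0, P (y - y0) < r := by
    have : Tendsto (fun y => P (y - y0)) (𝓝 y0) (𝓝 (P (y0 - y0))) :=
      (hP.continuous.comp (continuous_id.sub continuous_const)).continuousAt
    refine this.eventually_lt_const ?_
    rw [sub_self, hP.map_zero]
    exact hr
  filter_upwards [e1, e2] with y hy1 hy2
  intro i hi
  rw [Set.Finite.mem_toFinset] at hi
  apply T.term_zero_of
  by_contra hcon
  push Not at hcon
  apply hi
  refine ⟨y, hy2, ?_⟩
  unfold Q at hcon
  linarith

theorem summable (hP : EqNorm E P) {y : E} (hy : P y < 1) : Summable fun i => T.term i y := by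
  obtain ⟨A, hA⟩ := T.loc_fin hP hy
  have h1 := hA.self_of_nhds
  exact summable_of_ne_finset_zero (s := A) fun p hp => h1 p hp

theorem convexOn_H (i : I) : ConvexOn ℝ univ (T.H i) := by
  refine ⟨convex_univ, fun x _ y _ a b ha hb hab => ?_⟩
  unfold H
  have h1 : ∀ j ∈ Finset.range (T.m i), T.w i j * hu (T.e i / 16) (T.S i j (a • x + b • y)) ≤
      a * (T.w i j * hu (T.e i / 16) (T.S i j x)) + b * (T.w i j * hu (T.e i / 16) (T.S i j y)) := by
    intro j _
    have h2 := (T.hS i j).convexOn.2 (mem_univ x) (mem_univ y) ha hb hab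
    simp only [smul_eq_mul] at h2
    have h3 := (hu_mono (T.eta_pos i) h2).trans (hu_conv (T.eta_pos i) ha hb hab)
    have h4 := mul_le_mul_of_nonneg_left h3 (T.w_nonneg i j)
    linarith
  refine (Finset.sum_le_sum h1).trans (le_of_eq ?_)
  rw [Finset.sum_add_distrib, ← Finset.mul_sum, ← Finset.mul_sum]
  rfl

theorem convexOn_term (i : I) : ConvexOn ℝ univ (T.term i) := by
  have hsp : ∀ g : E → ℝ, ConvexOn ℝ univ g → ConvexOn ℝ univ fun y => sp (g y) := by
    intro g hg
    refine ⟨convex_univ, fun x hx y hy a b ha hb hab => ?_⟩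
    calc sp (g (a • x + b • y)) ≤ sp (a • g x + b • g y) := monotone_sp (hg.2 hx hy ha hb hab)
      _ ≤ a • sp (g x) + b • sp (g y) := convexOn_sp.2 (mem_univ _) (mem_univ _) ha hb hab
  have h1 : ConvexOn ℝ univ fun y => (1 - T.a i) * T.M i y :=
    (T.hM i).convexOn.smul (by have := T.a_le i; linarith)
  have h4 : ConvexOn ℝ univ fun y => (1 - T.a i) * T.M i y + T.H i y - 1 :=
    (h1.add (T.convexOn_H i)).sub (concaveOn_const _ convex_univ)
  have he := T.e_pos i
  have h5 : ConvexOn ℝ univ fun y => (T.arg i y - 1) / (T.e i / 8) := by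
    have := h4.smul (c := (T.e i / 8)⁻¹) (inv_pos.2 (by positivity)).le
    refine this.congr ?_
    intro y _
    simp only [smul_eq_mul, arg]
    exact (div_eq_inv_mul _ _).symm
  exact hsp _ h5

theorem cont_S (hP : EqNorm E P) (i : I) (j : ℕ) : Continuous (T.S i j) :=
  (T.hS i j).continuous hP (M := 1) fun x => by rw [one_mul]; exact T.S_le i j x

theorem cont_M (hP : EqNorm E P) (i : I) : Continuous (T.M i) :=
  (T.hM i).continuous hP (M := (1 + T.a i) * (1 + T.δ)) fun x => by
    have h1 : T.M i x ≤ (1 + T.a i) * T.R i x := T.M_le i x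
    have h2 := T.R_le i x
    have h3 := T.a_pos i
    rw [mul_assoc]
    exact h1.trans (mul_le_mul_of_nonneg_left h2 (by linarith))

theorem cd_S (hP : EqNorm E P) (i : I) (j : ℕ) {δ : ℝ} (hδ : 0 < δ) :
    ContDiff ℝ 1 fun x => sp (T.S i j x - δ) := by
  have hc := T.cont_S hP i j
  rw [contDiff_iff_contDiffAt]
  intro x
  by_cases hx : T.S i j x = 0
  · have h1 : ∀ᶠ z in 𝓝 x, T.S i j z < δ := by
      have : Tendsto (T.S i j) (𝓝 x) (𝓝 (T.S i j x)) := hc.continuousAt
      refine this.eventually_lt_const ?_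
      rw [hx]; exact hδ
    have h2 : (fun x => sp (T.S i j x - δ)) =ᶠ[𝓝 x] fun _ => 0 := by
      filter_upwards [h1] with z hz
      exact sp_zero_of (by linarith)
    exact contDiffAt_const.congr_of_eventuallyEq h2
  · have hop : IsOpen {y | T.S i j y ≠ 0} := isOpen_ne_fun hc continuous_const
    have h1 : ContDiffAt ℝ 1 (T.S i j) x := (T.S_C1 i j x hx).contDiffAt (hop.mem_nhds hx)
    exact contDiff_sp.contDiffAt.comp x (h1.sub contDiffAt_const)

theorem cd_H (hP : EqNorm E P) (i : I) : ContDiff ℝ 1 (T.H i) := by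
  unfold H hu
  refine ContDiff.sum fun j _ => ?_
  have hη := T.eta_pos i
  exact contDiff_const.mul (((T.cd_S hP i j hη).sub (T.cd_S hP i j (by positivity))).div_const _)

theorem contDiffAt_term (hP : EqNorm E P) (i : I) {y : E} (hy : P y < 1) :
    ContDiffAt ℝ 1 (T.term i) y := by
  have h0 : ContDiff ℝ 1 (T.H i) := T.cd_H hP i
  have hc := T.cont_M hP i
  by_cases hx : T.M i y = 0
  · have e1 : ∀ᶠ z in 𝓝 y, T.M i z < 1 / 2 := by
      have : Tendsto (T.M i) (𝓝 y) (𝓝 (T.M i y)) := hc.continuousAt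
      refine this.eventually_lt_const ?_
      rw [hx]; norm_num
    have e2 : ∀ᶠ z in 𝓝 y, P z < 1 := by
      have : Tendsto P (𝓝 y) (𝓝 (P y)) := hP.continuous.continuousAt
      exact this.eventually_lt_const hy
    have h2 : T.term i =ᶠ[𝓝 y] fun _ => 0 := by
      filter_upwards [e1, e2] with z hz1 hz2
      apply T.term_zero_of'
      unfold arg
      have h1 := T.sumS_le i z (hP.nonneg z)
      have h2 := T.H_le i z
      have h3 := T.a_pos i
      have h6 := (T.hM i).nonneg z
      have h7 : (1 - T.a i) * T.M i z ≤ 1 * T.M i z :=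
        mul_le_mul_of_nonneg_right (by linarith) h6
      linarith
    exact contDiffAt_const.congr_of_eventuallyEq h2
  · have hop : IsOpen {y | T.M i y ≠ 0} := isOpen_ne_fun hc continuous_const
    have h1 : ContDiffAt ℝ 1 (T.M i) y := (T.M_C1 i y hx).contDiffAt (hop.mem_nhds hx)
    have h2 : ContDiffAt ℝ 1 (fun y => (T.arg i y - 1) / (T.e i / 8)) y := by
      unfold arg
      exact (((contDiffAt_const.mul h1).add h0.contDiffAt).sub contDiffAt_const).div_const _
    exact contDiff_sp.contDiffAt.comp y h2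

include T in
theorem exN (hP : EqNorm E P) :
    ∃ N : E → ℝ, EqNorm E N ∧ ContDiffOn ℝ 1 N {y | y ≠ 0} ∧
      ∀ y, P y ≤ N y ∧ N y ≤ ((1 + T.δ)⁻¹)⁻¹ * P y := by
  classical
  have hδ := T.δ_pos
  have hθ0 : (0 : ℝ) < (1 + T.δ)⁻¹ := by positivity
  have hθ1 : (1 + T.δ)⁻¹ < 1 := inv_lt_one_of_one_lt₀ (by linarith)
  refine exists_c1_of_fun' P T.F (1 + T.δ)⁻¹ hθ0 hθ1 hP ?_ ?_ ?_ ?_ ?_
  · refine ⟨?_, fun x hx y hy a b ha hb hab => ?_⟩
    · have := hP.convexOn.convex_lt 1
      simpa using this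
    · have hxy : P (a • x + b • y) < 1 := by
        have := (hP.convexOn.convex_lt 1)
        have h := this (x := x) ⟨mem_univ _, hx⟩ (y := y) ⟨mem_univ _, hy⟩ ha hb hab
        exact h.2
      have h1 := T.summable hP (y := x) hx
      have h2 := T.summable hP (y := y) hy
      have h3 := T.summable hP hxy
      calc T.F (a • x + b • y) = ∑' p, T.term p (a • x + b • y) := rfl
        _ ≤ ∑' p, (a * T.term p x + b * T.term p y) := by
            refine h3.tsum_le_tsum (fun p => ?_) ((h1.mul_left a).add (h2.mul_left b))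
            exact (T.convexOn_term p).2 (mem_univ _) (mem_univ _) ha hb hab
        _ = a * ∑' p, T.term p x + b * ∑' p, T.term p y := by
            rw [(h1.mul_left a).tsum_add (h2.mul_left b), tsum_mul_left, tsum_mul_left]
        _ = a • T.F x + b • T.F y := rfl
  · intro y
    unfold F
    congr 1
    ext i
    unfold term arg H
    rw [(T.hM i).map_neg]
    congr 4
    refine Finset.sum_congr rfl fun j _ => ?_
    rw [(T.hS i j).map_neg]
  · intro y hy
    unfold F
    have : ∀ i, T.term i y = 0 := by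
      intro i
      apply T.term_zero_of
      have h1 := T.tot i y
      have h2 : (1 + T.δ) * P y ≤ (1 + T.δ) * (1 + T.δ)⁻¹ :=
        mul_le_mul_of_nonneg_left hy (by linarith)
      rw [mul_inv_cancel₀ (by positivity : (1 + T.δ) ≠ 0)] at h2
      exact h1.trans h2
    simp [this]
  · intro y hy
    obtain ⟨A, hA⟩ := T.loc_fin hP (y0 := y) hy
    have h1 : T.F =ᶠ[𝓝 y] fun z => ∑ p ∈ A, T.term p z := by
      filter_upwards [hA] with z hz
      exact tsum_eq_sum fun p hp => hz p hp
    have h2 : ContDiffAt ℝ 1 (fun z => ∑ p ∈ A, T.term p z) y :=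
      ContDiffAt.sum fun p _ => T.contDiffAt_term hP p hy
    exact (h2.congr_of_eventuallyEq h1).contDiffWithinAt
  · intro y hy
    obtain ⟨i, hi⟩ := T.catch_ y hy
    have hPy : 0 < P y := hP.pos hy
    have he0 := T.e_pos i
    have he1 := T.e_le i
    have hs : 0 < 1 - T.e i / 4 := by linarith
    have hr : 0 < (1 - T.e i / 4) / P y := div_pos hs hPy
    have hPr : P (((1 - T.e i / 4) / P y) • y) = 1 - T.e i / 4 := by
      rw [hP.smul, abs_of_pos hr, div_mul_cancel₀ _ hPy.ne']
    have hP1 : P (((1 - T.e i / 4) / P y) • y) < 1 := by rw [hPr]; linarith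
    refine ⟨(1 - T.e i / 4) / P y, hr, hP1, ?_⟩
    have hQ : T.Q i (((1 - T.e i / 4) / P y) • y) = (1 - T.e i / 4) / P y * T.Q i y := by
      unfold Q
      rw [(T.hR i).smul_nonneg hr.le, mul_add, Finset.mul_sum]
      congr 1
      refine Finset.sum_congr rfl fun j _ => ?_
      rw [(T.hS i j).smul_nonneg hr.le]
      ring
    have hQ2 : (1 - T.e i / 4) * (1 + T.e i) < T.Q i (((1 - T.e i / 4) / P y) • y) := by
      rw [hQ]
      have h1 : (1 - T.e i / 4) / P y * ((1 + T.e i) * P y) <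
          (1 - T.e i / 4) / P y * T.Q i y := mul_lt_mul_of_pos_left hi hr
      have h2 : (1 - T.e i / 4) / P y * ((1 + T.e i) * P y) = (1 - T.e i / 4) * (1 + T.e i) := by
        field_simp
      rwa [h2] at h1
    have harg := T.arg_ge i _ hP1.le
    have h3 : 1 + T.e i / 4 < T.arg i (((1 - T.e i / 4) / P y) • y) := by
      nlinarith
    have h4 : 2 < (T.arg i (((1 - T.e i / 4) / P y) • y) - 1) / (T.e i / 8) := by
      rw [lt_div_iff₀ (by positivity)]
      linarith
    have hterm : 1 < T.term i (((1 - T.e i / 4) / P y) • y) := by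
      unfold term
      rw [sp_of_nonneg (by linarith)]
      nlinarith
    have hle : T.term i (((1 - T.e i / 4) / P y) • y) ≤ T.F (((1 - T.e i / 4) / P y) • y) :=
      (T.summable hP hP1).le_tsum i fun p _ => T.term_nonneg p _
    linarith

end GSys

theorem gainProp_C1S : GainProp C1S := by
  intro E _ _ P hP I m R S w e δ hδ hR hN hS hw0 hw1 he htot hfin hcatch
  have he' : ∀ i, 0 < min (e i) 1 := fun i => lt_min (he i) one_pos
  have ha : ∀ i, 0 < min (e i) 1 / (16 * (1 + δ)) := fun i => by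
    have := he' i
    positivity
  choose N hN1 hN2 hN3 using fun i : I => hN i _ (ha i)
  let T : GSys E I P :=
    { m := m
      R := R
      S := S
      w := w
      e := fun i => min (e i) 1
      δ := δ
      M := N
      δ_pos := hδ
      hR := hR
      hM := hN1
      M_C1 := hN2
      M_ge := fun i y => (hN3 i y).1
      M_le := fun i y => (hN3 i y).2
      hS := fun i j => (hS i j).1
      S_C1 := fun i j => (hS i j).2.1
      S_le := fun i j => (hS i j).2.2
      w_nonneg := hw0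
      w_sum := hw1
      e_pos := he'
      e_le := fun i => min_le_right _ _
      tot := htot
      fin := hfin
      catch_ := fun y hy => by
        obtain ⟨i, hi⟩ := hcatch y hy
        refine ⟨i, lt_of_le_of_lt ?_ hi⟩
        exact mul_le_mul_of_nonneg_right (by linarith [min_le_left (e i) 1]) (hP.nonneg y) }
  obtain ⟨M, hM1, hM2, hM3⟩ := T.exN hP
  refine ⟨M, hM1, (C1S_iff hM1).2 hM2, fun y => ?_⟩
  have := hM3 y
  rwa [inv_inv] at this

end Pool.Agent.helper26.CS
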