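import Pool.Agent.helper26.CS.Defs
import Pool.Agent.helper26.CR.StarP

/-!
# CS-GainP: the polyhedral case

For `i` put `a i = min (e i) 1 / (4 * (1 + δ))` and choose `M i` in PolyS with `R i ≤ M i ≤ (1 + a i) R i`.
Terms `v i y = (1 - a i) * M i y + ∑ j ∈ range (m i), w i j * S i j y`, `N y = sup (P y, v i y : i)`.
On a finite-dimensional subspace `N` is the maximum of finitely many terms, by compactness of the sphere
`P = 1` and the local finiteness.
-/

set_option autoImplicit false

open Set Topology Filter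

namespace Pool.Agent.helper26.CS

open Pool.Agent.helper26.CK Pool.Agent.helper26.CR

/-- the data of the construction -/
structure GainP_T (E : Type) [NormedAddCommGroup E] [NormedSpace ℝ E] (P : E → ℝ) (I : Type 1) where
  m : I → ℕ
  R : I → E → ℝ
  S : I → ℕ → E → ℝ
  w : I → ℕ → ℝ
  e : I → ℝ
  δ : ℝ
  M : I → E → ℝ
  δ_pos : 0 < δ
  R_sn : ∀ i, SN E (R i)
  S_sn : ∀ i j, SN E (S i j)
  S_poly : ∀ i j, PolyS E (S i j)
  w_nonneg : ∀ i j, 0 ≤ w i j
  e_pos : ∀ i, 0 < e i
  M_sn : ∀ i, SN E (M i)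
  M_poly : ∀ i, PolyS E (M i)
  M_ge : ∀ i y, R i y ≤ M i y
  M_le : ∀ i y, M i y ≤ (1 + min (e i) 1 / (4 * (1 + δ))) * R i y
  le : ∀ i y, R i y + ∑ j ∈ Finset.range (m i), w i j * S i j y ≤ (1 + δ) * P y
  fin : ∀ y (a : ℝ), 0 < a → ∃ r : ℝ, 0 < r ∧ {i | ∃ z, P (z - y) < r ∧
      P z + a < R i z + ∑ j ∈ Finset.range (m i), w i j * S i j z}.Finite
  gain : ∀ y, y ≠ 0 → ∃ i, (1 + e i) * P y < R i y + ∑ j ∈ Finset.range (m i), w i j * S i j y

namespace GainP_T

variable {E : Type} [NormedAddCommGroup E] [NormedSpace ℝ E] {P : E → ℝ} {I : Type 1} (T : GainP_T E P I)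

/-- the error -/
noncomputable def a (i : I) : ℝ := min (T.e i) 1 / (4 * (1 + T.δ))

/-- the sum of the small seminorms -/
noncomputable def W (i : I) (y : E) : ℝ := ∑ j ∈ Finset.range (T.m i), T.w i j * T.S i j y

/-- the terms -/
noncomputable def v (i : I) (y : E) : ℝ := (1 - T.a i) * T.M i y + T.W i y

/-- the terms, with `P` -/
noncomputable def v' (T : GainP_T E P I) : Option I → E → ℝ
  | none => P
  | some i => T.v i

/-- the norm -/
noncomputable def Np (T : GainP_T E P I) (y : E) : ℝ := ⨆ o, T.v' o y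

theorem a_pos (i : I) : 0 < T.a i := by
  have h1 := T.δ_pos
  have h2 : 0 < min (T.e i) 1 := lt_min (T.e_pos i) one_pos
  unfold a
  positivity

theorem a_le (i : I) : T.a i ≤ 1 / 4 := by
  have h1 := T.δ_pos
  have h2 : min (T.e i) 1 ≤ 1 := min_le_right _ _
  unfold a
  rw [div_le_iff₀ (by positivity)]
  linarith

theorem a_le' (i : I) : T.a i * (1 + T.δ) ≤ T.e i / 4 := by
  have h1 := T.δ_pos
  have h2 : min (T.e i) 1 ≤ T.e i := min_le_left _ _
  have h3 : T.a i * (1 + T.δ) = min (T.e i) 1 / 4 := by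
    unfold a
    field_simp
  rw [h3]
  linarith

theorem W_nonneg (i : I) (y : E) : 0 ≤ T.W i y :=
  Finset.sum_nonneg fun j _ => mul_nonneg (T.w_nonneg i j) ((T.S_sn i j).nonneg y)

theorem W_smul (c : ℝ) (i : I) (y : E) : T.W i (c • y) = |c| * T.W i y := by
  unfold W
  rw [Finset.mul_sum]
  refine Finset.sum_congr rfl fun j _ => ?_
  rw [(T.S_sn i j).smul]
  ring

theorem W_add (i : I) (y z : E) : T.W i (y + z) ≤ T.W i y + T.W i z := by
  unfold W
  rw [← Finset.sum_add_distrib]
  refine Finset.sum_le_sum fun j _ => ?_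
  have h1 := (T.S_sn i j).add_le y z
  have h2 := mul_le_mul_of_nonneg_left h1 (T.w_nonneg i j)
  linarith

theorem W_zero (i : I) : T.W i 0 = 0 := by
  unfold W
  refine Finset.sum_eq_zero fun j _ => ?_
  rw [(T.S_sn i j).map_zero, mul_zero]

theorem le' (i : I) (y : E) : T.R i y + T.W i y ≤ (1 + T.δ) * P y := T.le i y

theorem M_le' (i : I) (y : E) : (1 - T.a i) * T.M i y ≤ T.R i y := by
  have h1 : T.M i y ≤ (1 + T.a i) * T.R i y := T.M_le i y
  have h2 := (T.R_sn i).nonneg y
  have h3 := T.a_pos i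
  have h4 := T.a_le i
  have h6 : (1 - T.a i) * T.M i y ≤ (1 - T.a i) * ((1 + T.a i) * T.R i y) :=
    mul_le_mul_of_nonneg_left h1 (by linarith)
  have h7 : (1 - T.a i) * ((1 + T.a i) * T.R i y) = T.R i y - T.a i ^ 2 * T.R i y := by ring
  have h8 : 0 ≤ T.a i ^ 2 * T.R i y := by positivity
  linarith

theorem v_le_R (i : I) (y : E) : T.v i y ≤ T.R i y + T.W i y := by
  have := T.M_le' i y
  unfold v
  linarith

theorem v_le (i : I) (y : E) : T.v i y ≤ (1 + T.δ) * P y := (T.v_le_R i y).trans (T.le' i y)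

theorem v'_le (hP : EqNorm E P) (o : Option I) (y : E) : T.v' o y ≤ (1 + T.δ) * P y := by
  cases o with
  | none =>
    have := hP.nonneg y
    have h1 := T.δ_pos
    simp only [v']
    nlinarith
  | some i => exact T.v_le i y

theorem bdd (hP : EqNorm E P) (y : E) : BddAbove (range fun o => T.v' o y) :=
  ⟨(1 + T.δ) * P y, by rintro _ ⟨o, rfl⟩; exact T.v'_le hP o y⟩

theorem v'_le_Np (hP : EqNorm E P) (o : Option I) (y : E) : T.v' o y ≤ T.Np y :=
  le_ciSup (T.bdd hP y) o

theorem v_le_Np (hP : EqNorm E P) (i : I) (y : E) : T.v i y ≤ T.Np y := T.v'_le_Np hP (some i) y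

theorem P_le_Np (hP : EqNorm E P) (y : E) : P y ≤ T.Np y := T.v'_le_Np hP none y

theorem Np_le (hP : EqNorm E P) (y : E) : T.Np y ≤ (1 + T.δ) * P y :=
  ciSup_le fun o => T.v'_le hP o y

theorem v_smul (c : ℝ) (i : I) (y : E) : T.v i (c • y) = |c| * T.v i y := by
  unfold v
  rw [(T.M_sn i).smul, T.W_smul]
  ring

theorem v'_smul (hP : EqNorm E P) (c : ℝ) (o : Option I) (y : E) :
    T.v' o (c • y) = |c| * T.v' o y := by
  cases o with
  | none => exact hP.smul c y
  | some i => exact T.v_smul c i y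

theorem v'_add (hP : EqNorm E P) (o : Option I) (y z : E) :
    T.v' o (y + z) ≤ T.v' o y + T.v' o z := by
  cases o with
  | none => exact hP.add_le y z
  | some i =>
    simp only [v', v]
    have h1 := (T.M_sn i).add_le y z
    have h2 := T.W_add i y z
    have h4 := T.a_le i
    have h5 : (1 - T.a i) * T.M i (y + z) ≤ (1 - T.a i) * (T.M i y + T.M i z) :=
      mul_le_mul_of_nonneg_left h1 (by linarith)
    linarith

theorem eqNorm_Np (hP : EqNorm E P) : EqNorm E T.Np where
  add_le := by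
    intro f g
    refine ciSup_le fun o => ?_
    exact (T.v'_add hP o f g).trans (add_le_add (T.v'_le_Np hP o f) (T.v'_le_Np hP o g))
  smul := by
    intro c f
    unfold Np
    rw [Real.mul_iSup_of_nonneg (abs_nonneg c)]
    congr 1
    ext o
    exact T.v'_smul hP c o f
  eq_zero := by
    intro f hf
    refine hP.eq_zero f (le_antisymm ?_ (hP.nonneg f))
    rw [← hf]
    exact T.P_le_Np hP f
  equiv := by
    obtain ⟨c, C, hc, hC, h⟩ := hP.equiv
    have hκ := T.δ_pos
    refine ⟨c, (1 + T.δ) * C, hc, by positivity, fun f => ⟨(h f).1.trans (T.P_le_Np hP f), ?_⟩⟩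
    refine (T.Np_le hP f).trans ?_
    calc (1 + T.δ) * P f ≤ (1 + T.δ) * (C * ‖f‖) := mul_le_mul_of_nonneg_left (h f).2 (by linarith)
      _ = (1 + T.δ) * C * ‖f‖ := by ring

theorem P_lt_Np (hP : EqNorm E P) {y : E} (hy : y ≠ 0) : P y < T.Np y := by
  obtain ⟨i, hi⟩ := T.gain y hy
  have hi : (1 + T.e i) * P y < T.R i y + T.W i y := hi
  have hPy := hP.pos hy
  have h1 := T.v_le_Np hP i y
  have h3 := T.M_ge i y
  have h4 := T.a_le i
  have h4' := T.a_pos i
  have h5 : (1 - T.a i) * T.R i y ≤ (1 - T.a i) * T.M i y := mul_le_mul_of_nonneg_left h3 (by linarith)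
  have h6 : T.R i y ≤ (1 + T.δ) * P y := by
    have := T.le' i y
    have := T.W_nonneg i y
    linarith
  have h7 : T.a i * T.R i y ≤ T.a i * ((1 + T.δ) * P y) := mul_le_mul_of_nonneg_left h6 h4'.le
  have h8 : T.a i * (1 + T.δ) * P y ≤ T.e i / 4 * P y := mul_le_mul_of_nonneg_right (T.a_le' i) hPy.le
  have h9 : 0 < T.e i * P y := mul_pos (T.e_pos i) hPy
  have h10 : T.v i y = (1 - T.a i) * T.M i y + T.W i y := rfl
  rw [h10] at h1
  nlinarith

theorem W_FM (i : I) (V : Submodule ℝ E) [FiniteDimensional ℝ V] : FM fun y : V => T.W i (y : E) := by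
  unfold W
  induction T.m i with
  | zero =>
    refine ⟨{0}, fun x => ?_⟩
    simp
  | succ n ih =>
    have h2 : FM fun y : V => T.S i n (y : E) := T.S_poly i n V V.subtype
    have h3 := ih.add (h2.smul (T.w_nonneg i n))
    simp only [Finset.sum_range_succ]
    exact h3

theorem finMax (hP : EqNorm E P) (V : Submodule ℝ E) [FiniteDimensional ℝ V] :
    FM fun y : V => T.Np (y : E) := by
  classical
  have hN := T.eqNorm_Np hP
  let Sph : Set V := {y | P y = 1}
  by_cases hSph : Sph.Nonempty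
  swap
  · -- trivial space
    have htriv : ∀ y : V, y = 0 := by
      intro y
      by_contra hy
      have hy' : (y : E) ≠ 0 := fun h => hy (Subtype.ext h)
      have hPy := hP.pos hy'
      refine hSph ⟨(P y)⁻¹ • y, ?_⟩
      change P ((P y)⁻¹ • (y : E)) = 1
      rw [hP.smul_nonneg (inv_pos.2 hPy).le, inv_mul_cancel₀ hPy.ne']
    refine ⟨{0}, fun x => ?_⟩
    rw [htriv x]
    simp [hN.map_zero]
  have hcomp : IsCompact Sph := by
    refine Metric.isCompact_of_isClosed_isBounded ?_ ?_
    · exact isClosed_eq (hP.continuous.comp continuous_subtype_val) continuous_const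
    · obtain ⟨c, C, hc, hC, h⟩ := hP.equiv
      refine (Metric.isBounded_closedBall (x := (0 : V)) (r := 1 / c)).subset ?_
      intro y hy
      have hy : P y = 1 := hy
      rw [mem_closedBall_zero_iff, le_div_iff₀ hc]
      have := (h y).1
      rw [hy] at this
      rw [mul_comm]
      exact this
  obtain ⟨y1, hy1, hmin⟩ := hcomp.exists_isMinOn hSph
    (f := fun y : V => T.Np y - P y)
    ((hN.continuous.comp continuous_subtype_val).sub
      (hP.continuous.comp continuous_subtype_val)).continuousOn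
  set η := T.Np y1 - P y1 with hη
  have hy10 : (y1 : E) ≠ 0 := by
    intro h
    have : P (y1 : E) = 1 := hy1
    rw [h, hP.map_zero] at this
    exact zero_ne_one this
  have hη0 : 0 < η := by
    have := T.P_lt_Np hP hy10
    rw [hη]; linarith
  have hmin' : ∀ y ∈ Sph, 1 + η ≤ T.Np y := by
    intro y hy
    have h1 := hmin hy
    have h2 : P y = 1 := hy
    simp only [mem_ofPred_eq] at h1
    linarith
  -- finitely many balls
  choose r hr0 hr using fun y : V => T.fin (y : E) (η / 2) (by linarith)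
  obtain ⟨s, hs1, hs2⟩ := hcomp.elim_nhds_subcover
    (fun y => {z : V | P ((z : E) - y) < r y}) (by
    intro y _
    have hc : Continuous fun z : V => P ((z : E) - y) :=
      hP.continuous.comp (continuous_subtype_val.sub continuous_const)
    refine (isOpen_lt hc continuous_const).mem_nhds ?_
    simp only [mem_ofPred_eq, sub_self, hP.map_zero]
    exact hr0 y)
  have hfin : (⋃ y ∈ s, {i | ∃ z, P (z - (y : E)) < r y ∧
      P z + η / 2 < T.R i z + ∑ j ∈ Finset.range (T.m i), T.w i j * T.S i j z}).Finite :=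
    s.finite_toSet.biUnion fun y _ => hr y
  set A := hfin.toFinset with hA
  have hsmall : ∀ i ∉ A, ∀ y ∈ Sph, T.v i y ≤ 1 + η / 2 := by
    intro i hi y hy
    have h6 : P (y : E) = 1 := hy
    obtain ⟨z, hz1, hz2⟩ := mem_iUnion₂.1 (hs2 hy)
    by_contra hcon
    apply hi
    rw [hA, Set.Finite.mem_toFinset]
    refine mem_iUnion₂.2 ⟨z, hz1, (y : E), hz2, ?_⟩
    have h7 : T.v i y ≤ T.R i y + T.W i y := T.v_le_R i (y : E)
    rw [h6]
    exact (not_le.1 hcon).trans_le h7
  have hatt : ∀ y ∈ Sph, ∃ p ∈ A, T.v p y = T.Np y := by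
    intro y hy
    obtain ⟨m, hm1, hm2⟩ := (insert (1 + η / 2) (A.image fun p => T.v p y)).exists_max_image id
      ⟨_, Finset.mem_insert_self _ _⟩
    have hle : T.Np y ≤ m := by
      refine ciSup_le fun o => ?_
      have h0 : 1 + η / 2 ≤ m := hm2 _ (Finset.mem_insert_self _ _)
      cases o with
      | none =>
        have : P (y : E) = 1 := hy
        simp only [v']
        linarith
      | some p =>
        by_cases hi : p ∈ A
        · exact hm2 (T.v p y) (Finset.mem_insert_of_mem (Finset.mem_image.2 ⟨p, hi, rfl⟩))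
        · exact (hsmall p hi y hy).trans h0
    rcases Finset.mem_insert.1 hm1 with h | h
    · exfalso
      have := hmin' y hy
      rw [h] at hle
      linarith
    · obtain ⟨p, hp, him⟩ := Finset.mem_image.1 h
      refine ⟨p, hp, le_antisymm (T.v_le_Np hP p y) ?_⟩
      rw [him]; exact hle
  refine FM.max (V := V) A (fun p y => T.v p (y : E)) ?_ (N := fun y => T.Np (y : E)) ?_
  · intro p _
    have h1 : FM fun y : V => T.M p (y : E) := T.M_poly p V V.subtype
    have h3 := T.a_le p
    exact (h1.smul (c := 1 - T.a p) (by linarith)).add (T.W_FM p V)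
  · intro y
    refine ⟨fun p _ => T.v_le_Np hP p y, ?_⟩
    by_cases hy : (y : E) = 0
    · obtain ⟨p, hp, -⟩ := hatt y1 hy1
      refine ⟨p, hp, ?_⟩
      rw [hy, hN.map_zero, v, (T.M_sn p).map_zero, T.W_zero]
      simp
    · have hPy := hP.pos hy
      obtain ⟨p, hp, h⟩ := hatt ((P y)⁻¹ • y) (by
        change P ((P y)⁻¹ • (y : E)) = 1
        rw [hP.smul_nonneg (inv_pos.2 hPy).le, inv_mul_cancel₀ hPy.ne'])
      refine ⟨p, hp, ?_⟩
      rw [Submodule.coe_smul, T.v_smul, hN.smul] at h
      exact mul_left_cancel₀ (by rw [abs_of_pos (inv_pos.2 hPy)]; exact (inv_pos.2 hPy).ne') h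

theorem polyS (hP : EqNorm E P) : PolyS E T.Np := by
  intro V _ _ _ f
  have h := T.finMax hP (LinearMap.range f)
  exact h.comp f.rangeRestrict

end GainP_T

theorem gainProp_polyS : GainProp PolyS := by
  intro E _ _ P hP I m R S w e δ hδ hR hRN hS hw0 hw1 he hle hfin hgain
  have hch : ∀ i : I, ∃ N, SN E N ∧ PolyS E N ∧ ∀ y, R i y ≤ N y ∧ N y ≤
      (1 + min (e i) 1 / (4 * (1 + δ))) * R i y := by
    intro i
    have h2 : 0 < min (e i) 1 := lt_min (he i) one_pos
    exact hRN i _ (by positivity)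
  choose M hM1 hM2 hM3 using hch
  let T : GainP_T E P I :=
    { m := m
      R := R
      S := S
      w := w
      e := e
      δ := δ
      M := M
      δ_pos := hδ
      R_sn := hR
      S_sn := fun i j => (hS i j).1
      S_poly := fun i j => (hS i j).2.1
      w_nonneg := hw0
      e_pos := he
      M_sn := hM1
      M_poly := hM2
      M_ge := fun i y => (hM3 i y).1
      M_le := fun i y => (hM3 i y).2
      le := hle
      fin := hfin
      gain := hgain }
  exact ⟨T.Np, T.eqNorm_Np hP, T.polyS hP, fun y => ⟨T.P_le_Np hP y, T.Np_le hP y⟩⟩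

end Pool.Agent.helper26.CS
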