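import Pool.Agent.helper26.CS.AdmT
import Pool.Agent.helper26.CS.GMetr
import Pool.Agent.helper26.CS.GOrd
import Pool.Agent.helper26.CS.GStep
import Pool.Agent.helper26.CS.GainP
import Pool.Agent.helper26.CS.GainC

/-!
# CS-Cls: the classes of compact spaces and their norms
-/

set_option autoImplicit false

open Set Topology Filter TopologicalSpace

namespace Pool.Agent.helper26.CS

open Pool.Agent.helper26.CK Pool.Agent.helper26.CR

/-- the smallest class of compact Hausdorff spaces which contains the metrizable, the linearly ordered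
and the Valdivia ones and is closed under limits of continuous transfinite sequences of
retractions -/
inductive Retr : ∀ (K : Type) [TopologicalSpace K], Prop
  | metr (K : Type) [TopologicalSpace K] [CompactSpace K] [T2Space K]
      [SecondCountableTopology K] : Retr K
  | ord (K : Type) [LinearOrder K] [TopologicalSpace K] [OrderTopology K] [CompactSpace K] : Retr K
  | vald (K : Type) [TopologicalSpace K] [CompactSpace K] (h : Pool.Agent.helper41.RC.Valdivia K) :
      Retr K
  | lim (K : Type) [TopologicalSpace K] [CompactSpace K] [T2Space K] (θ : Ordinal.{0})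
      (hθ : Order.IsSuccLimit θ) (R : RSeq K θ) (h : ∀ α < θ, Retr (range (R.r α))) : Retr K

theorem Retr.compactSpace {K : Type} [TopologicalSpace K] (h : Retr K) : CompactSpace K := by
  cases h <;> assumption

theorem gsep_of_rcl {K : Type} [TopologicalSpace K] (h : Rcl K) :
    ∀ [CompactSpace K], Nonempty (GSep K) := by
  induction h with
  | metr K => intro _; exact gsep_metr K
  | lim K θ hθ R h ih => intro _; exact gsep_step hθ R fun α hα => ih α hα

theorem Retr.gsep {K : Type} [TopologicalSpace K] (h : Retr K) :
    ∀ [CompactSpace K], Nonempty (GSep K) := by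
  induction h with
  | metr K => intro _; exact gsep_metr K
  | ord K => intro _; exact gsep_ord K
  | vald K h => intro _; exact gsep_of_rcl (rcl_of_valdivia h)
  | lim K θ hθ R h ih => intro _; exact gsep_step hθ R fun α hα => ih α hα

/-- `K` is a continuous image of a member of `Retr` -/
def ImRetr (K : Type) [TopologicalSpace K] : Prop :=
  ∃ (L : Type) (_ : TopologicalSpace L) (φ : L → K), Retr L ∧ Continuous φ ∧
    Function.Surjective φ

/-- the smallest class of compact Hausdorff spaces which contains the scattered continuous images of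
members of `Retr` and is closed under continuous images (in Hausdorff spaces), finite products and
layered unions: `K` is covered by countably many families `C n j` of closed sets, the `n`-th family
is locally finite at the points outside of a closed set `B n`, every point is for some `n` in a
member of the `n`-th family and not in `B n`, and all intersections of a `C n j` with finitely many
`B m` are in the class. -/
inductive Lcl : ∀ (K : Type) [TopologicalSpace K], Prop
  | retr (K L : Type) [TopologicalSpace K] [T2Space K] [TopologicalSpace L] (φ : L → K)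
      (hφ : Continuous φ) (hs : Function.Surjective φ) (hL : Retr L) (hK : Scattered K) : Lcl K
  | image (K L : Type) [TopologicalSpace K] [T2Space K] [TopologicalSpace L] (φ : L → K)
      (hφ : Continuous φ) (hs : Function.Surjective φ) (hL : Lcl L) : Lcl K
  | prod (K L : Type) [TopologicalSpace K] [TopologicalSpace L] (hK : Lcl K) (hL : Lcl L) :
      Lcl (K × L)
  | lay (K : Type) [TopologicalSpace K] [CompactSpace K] [T2Space K] (B : ℕ → Set K)
      (J : ℕ → Type) (C : ∀ n, J n → Set K) (hB : ∀ n, IsClosed (B n))
      (hC : ∀ n j, IsClosed (C n j))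
      (lf : ∀ n, ∀ x ∉ B n, ∃ U ∈ 𝓝 x, {j | (C n j ∩ U).Nonempty}.Finite)
      (cov : ∀ x, ∃ n, x ∉ B n ∧ ∃ j, x ∈ C n j)
      (h : ∀ n j (G : Finset ℕ), Lcl ↥(C n j ∩ {x | ∀ m ∈ G, x ∈ B m})) : Lcl K

theorem Lcl.compact_t2 {K : Type} [TopologicalSpace K] (h : Lcl K) :
    CompactSpace K ∧ T2Space K := by
  induction h with
  | retr K L φ hφ hs hL hK =>
    have := hL.compactSpace
    refine ⟨?_, inferInstance⟩
    rw [← isCompact_univ_iff, ← hs.range_eq]
    exact isCompact_range hφ
  | image K L φ hφ hs hL ih =>
    have := ih.1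
    refine ⟨?_, inferInstance⟩
    rw [← isCompact_univ_iff, ← hs.range_eq]
    exact isCompact_range hφ
  | prod K L hK hL ihK ihL =>
    have := ihK.1
    have := ihK.2
    have := ihL.1
    have := ihL.2
    exact ⟨inferInstance, inferInstance⟩
  | lay K B J C hB hC lf cov h ih => exact ⟨inferInstance, inferInstance⟩

theorem Lcl.adm {K : Type} [TopologicalSpace K] (h : Lcl K) :
    ∀ [CompactSpace K], Nonempty K → AdmT K := by
  induction h with
  | retr K L φ hφ hs hL hK =>
    intro _ _
    have := hL.compactSpace
    exact admT_of_gsep hK ⟨φ, hφ⟩ hs hL.gsep.some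
  | image K L φ hφ hs hL ih =>
    intro _ _
    have := hL.compact_t2.1
    exact admT_image ⟨φ, hφ⟩ hs fun hne => ih hne
  | prod K L hK hL ihK ihL =>
    intro _ hne
    obtain ⟨k, l⟩ := hne.some
    have hKn : Nonempty K := ⟨k⟩
    have hLn : Nonempty L := ⟨l⟩
    have := hK.compact_t2.1
    have := hL.compact_t2.1
    have := hL.compact_t2.2
    exact admT_prod (ihK hKn) (ihL hLn)
  | lay K B J C hB hC lf cov h ih =>
    intro _ _
    refine admT_layered ⟨B, J, C, hB, hC, lf, cov⟩ ?_
    intro q j hc hne
    exact @ih q.n j q.G hc hne.to_subtype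

section
variable {K : Type} [TopologicalSpace K] [CompactSpace K] [Nonempty K]

theorem Lcl.hasPoly_prod (h : Lcl K) {Z : Type} [TopologicalSpace Z] [CompactSpace Z] [T2Space Z]
    (hZ : HasPoly C(Z, ℝ)) : HasPoly C(K × Z, ℝ) := by
  obtain ⟨ν, hν, hν1⟩ := hZ
  obtain ⟨N, hN, hN1⟩ := (h.adm inferInstance).norm compProp_polyS starProp_polyS
    (treeProp compProp_polyS gainProp_polyS) hν (polyS_of_polyhedral hν hν1)
  exact ⟨N, hN, polyhedral_of_polyS hN hN1⟩

theorem Lcl.hasC1_prod (h : Lcl K) {Z : Type} [TopologicalSpace Z] [CompactSpace Z] [T2Space Z]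
    (hZ : HasC1 C(Z, ℝ)) : HasC1 C(K × Z, ℝ) := by
  obtain ⟨ν, hν, hν1⟩ := hZ
  obtain ⟨N, hN, hN1⟩ := (h.adm inferInstance).norm compProp_C1S starProp_C1S
    (treeProp compProp_C1S gainProp_C1S) hν ((C1S_iff hν).2 hν1)
  exact ⟨N, hN, (C1S_iff hN).1 hN1⟩

end

end Pool.Agent.helper26.CS
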