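import Pool.Agent.helper26.CK.SubOrd

/-!
# CS-CountR: continuous real functions on compact scattered spaces have countable range

If `range g` is uncountable, it is closed, so it contains a nonempty perfect set P
(`exists_perfect_nonempty_of_isClosed_of_not_countable`).  By Zorn (compactness) there is a minimal closed set
`A ⊆ g ⁻¹' P` with `g '' A = P` (or use a Mathlib lemma on minimal / irreducible surjections, e.g.
`exists_compact_surjective_zorn_subset`).  A is not empty and has a relatively isolated point `a`, `U ∩ A = {a}`, U open;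
`A \ U` is closed and smaller, so `P \ g '' (A \ U)` is not empty, open in P and contained in `{g a}`: `g a` is isolated in P,
contradiction.  (Compare `exists_not_mem_range` in CK/Jump.lean.)
-/

set_option autoImplicit false

open Set Topology Filter

namespace Pool.Agent.helper26.CS

open Pool.Agent.helper26.CK

theorem countable_range {K : Type} [TopologicalSpace K] [CompactSpace K] (hK : Scattered K)
    (g : C(K, ℝ)) : (range g).Countable := by
  by_contra hcon
  have hcl : IsClosed (range g) := (isCompact_range g.continuous).isClosed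
  obtain ⟨P, hP, hPne, hPsub⟩ := exists_perfect_nonempty_of_isClosed_of_not_countable hcl hcon
  let D : Type := {x : K // g x ∈ P}
  have hDc : IsClosed {x : K | g x ∈ P} := hP.closed.preimage g.continuous
  have : CompactSpace D := isCompact_iff_compactSpace.1 hDc.isCompact
  let X : D → P := fun x => ⟨g x.1, x.2⟩
  have hXc : Continuous X := by
    refine Continuous.subtype_mk ?_ _
    exact g.continuous.comp continuous_subtype_val
  have hXs : Function.Surjective X := by
    rintro ⟨r, hr⟩
    obtain ⟨x, hx⟩ := hPsub hr
    exact ⟨⟨x, by rw [hx]; exact hr⟩, Subtype.ext hx⟩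
  obtain ⟨E, hEc, hE1, hE2⟩ := exists_compact_surjective_zorn_subset hXc hXs
  -- the image of E in K
  let A : Set K := Subtype.val '' E
  have hAne : A.Nonempty := by
    obtain ⟨p, hp⟩ := hPne
    have : (⟨p, hp⟩ : P) ∈ X '' E := by rw [hE1]; exact mem_univ _
    obtain ⟨y, hy, -⟩ := this
    exact ⟨y.1, y, hy, rfl⟩
  obtain ⟨x, hxA, U, hU, hUA⟩ := hK A hAne
  obtain ⟨y, hyE, hyx⟩ := hxA
  let E0 : Set E := {z | z.1.1 ∉ U}
  have hE0c : IsClosed E0 := by
    have : IsOpen {z : E | z.1.1 ∈ U} :=
      hU.preimage (continuous_subtype_val.comp continuous_subtype_val)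
    have h2 : E0 = {z : E | z.1.1 ∈ U}ᶜ := rfl
    rw [h2]
    exact this.isClosed_compl
  have hxU : x ∈ U := by
    have : x ∈ U ∩ A := by rw [hUA]; rfl
    exact this.1
  have hE0ne : E0 ≠ univ := by
    intro hh
    have : (⟨y, hyE⟩ : E) ∈ E0 := by rw [hh]; exact mem_univ _
    exact this (by change y.1 ∈ U; rw [hyx]; exact hxU)
  refine hE2 E0 hE0ne hE0c ?_
  have : CompactSpace E := hEc
  have himc : IsClosed (E.domRestrict X '' E0) := by
    have : IsCompact (E.domRestrict X '' E0) :=
      (hE0c.isCompact).image (hXc.comp continuous_subtype_val)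
    exact this.isClosed
  -- everything except one value is in the image
  have hmost : ∀ r : P, r ≠ X y → r ∈ E.domRestrict X '' E0 := by
    intro r hr
    have : r ∈ X '' E := by rw [hE1]; exact mem_univ _
    obtain ⟨z, hz, hzr⟩ := this
    refine ⟨⟨z, hz⟩, ?_, hzr⟩
    intro hzU
    have hzA : z.1 ∈ U ∩ A := ⟨hzU, z, hz, rfl⟩
    rw [hUA] at hzA
    have : z = y := Subtype.ext (by rw [hyx]; exact hzA)
    exact hr (by rw [← hzr, this])
  have hdense : Dense {r : P | r ≠ X y} := by
    intro r
    by_cases hr : r = X y
    · rw [mem_closure_iff_nhds]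
      intro t ht
      obtain ⟨u, hu, hut⟩ := mem_nhds_subtype P r t |>.1 ht
      obtain ⟨q, ⟨hqu, hqP⟩, hq⟩ := preperfect_iff_nhds.1 hP.acc r.1 r.2 u hu
      refine ⟨⟨q, hqP⟩, hut hqu, fun hh => hq ?_⟩
      rw [hr, ← hh]
    · exact subset_closure hr
  rw [← univ_subset_iff, ← hdense.closure_eq]
  exact closure_minimal hmost himc

end Pool.Agent.helper26.CS
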