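import Pool.Agent.helper26.CR.Adm
import Pool.Agent.helper26.CR.SepR
import Pool.Agent.helper26.CR.Val

/-!
# CS-Defs: global separating families, and two abstract approximation properties
-/

set_option autoImplicit false

open Set Topology Filter

namespace Pool.Agent.helper26.CS

open Pool.Agent.helper26.CK Pool.Agent.helper26.CR

/-- functionals on `C(L)` and clopen sets which separate all points -/
structure GSep (L : Type) [TopologicalSpace L] [CompactSpace L] where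
  /-- the indices -/
  I : Type 1
  /-- the sets -/
  U : I → Set L
  clopen : ∀ i, IsClopen (U i)
  /-- the functionals -/
  J : I → C(L, ℝ) →L[ℝ] ℝ
  norm_le : ∀ i, ‖J i‖ ≤ 1
  fin : ∀ (g : C(L, ℝ)) (ε : ℝ), 0 < ε → {i | ε ≤ |J i g|}.Finite
  sep : ∀ (g : C(L, ℝ)), (range g).Countable → ∀ x y : L, g x ≠ g y →
    ∃ i, x ∈ U i ∧ y ∉ U i ∧ J i g ≠ 0

/-- a norm `P` which is exceeded, at each point, by a locally finite family of sums of seminorms,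
has good approximations -/
def GainProp (Q : Cls) : Prop :=
  ∀ (E : Type) [NormedAddCommGroup E] [NormedSpace ℝ E] (P : E → ℝ), EqNorm E P →
    ∀ (I : Type 1) (m : I → ℕ) (R : I → E → ℝ) (S : I → ℕ → E → ℝ) (w : I → ℕ → ℝ) (e : I → ℝ)
      (δ : ℝ), 0 < δ →
    (∀ i, SN E (R i)) →
    (∀ i (ε : ℝ), 0 < ε → ∃ N, SN E N ∧ Q E N ∧ ∀ y, R i y ≤ N y ∧ N y ≤ (1 + ε) * R i y) →
    (∀ i j, SN E (S i j) ∧ Q E (S i j) ∧ ∀ y, S i j y ≤ P y) →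
    (∀ i j, 0 ≤ w i j) → (∀ i, ∑ j ∈ Finset.range (m i), w i j ≤ 1 / 2) → (∀ i, 0 < e i) →
    (∀ i y, R i y + ∑ j ∈ Finset.range (m i), w i j * S i j y ≤ (1 + δ) * P y) →
    (∀ y (a : ℝ), 0 < a → ∃ r : ℝ, 0 < r ∧ {i | ∃ z, P (z - y) < r ∧
      P z + a < R i z + ∑ j ∈ Finset.range (m i), w i j * S i j z}.Finite) →
    (∀ y, y ≠ 0 → ∃ i, (1 + e i) * P y < R i y + ∑ j ∈ Finset.range (m i), w i j * S i j y) →
    ∃ N, EqNorm E N ∧ Q E N ∧ ∀ y, P y ≤ N y ∧ N y ≤ (1 + δ) * P y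

/-- approximations of `P = R ∅` from approximations of the `R t`, `A t` -/
def TreeProp (Q : Cls) : Prop :=
  ∀ (E : Type) [NormedAddCommGroup E] [NormedSpace ℝ E] (P : E → ℝ), EqNorm E P →
    ∀ (I : Type 1) (ρ : I → E → ℝ) (R : Finset I → E → ℝ) (A : Finset I → Prop) (ν0 : E → ℝ)
      (δ : ℝ), 0 < δ →
    (∀ i, SN E (ρ i) ∧ Q E (ρ i) ∧ ∀ y, ρ i y ≤ P y) →
    (∀ y (ε : ℝ), 0 < ε → {i | ε ≤ ρ i y}.Finite) →
    (∀ t, SN E (R t)) → (∀ s t, s ⊆ t → ∀ y, R t y ≤ R s y) → (∀ y, R ∅ y = P y) →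
    (∀ s t, s ⊆ t → A s → A t) →
    (∀ t, A t → ∀ ε : ℝ, 0 < ε → ∃ N, SN E N ∧ Q E N ∧ ∀ y, R t y ≤ N y ∧ N y ≤ (1 + ε) * R t y) →
    (SN E ν0 ∧ Q E ν0 ∧ ∀ y, ν0 y ≤ P y) →
    (∀ y (r : ℝ) (T : Set I), ν0 y < r → (∀ t : Finset I, (t : Set I) ⊆ T → r ≤ R t y) →
      ∃ s : Finset I, A s ∧ (∀ i ∈ s, ρ i y ≠ 0) ∧
        ∀ t u : Finset I, (t : Set I) ⊆ T → (∀ i, i ∈ u ↔ i ∈ t ∨ i ∈ s) → r ≤ R u y) →
    ∃ N, EqNorm E N ∧ Q E N ∧ ∀ y, P y ≤ N y ∧ N y ≤ (1 + δ) * P y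

end Pool.Agent.helper26.CS
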