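import Pool.Agent.helper26.CS.Defs
import Pool.Agent.helper26.CS.CountR
import Pool.Agent.helper26.CR.Ops

/-!
# CS-OpsG: vector-valued functionals from a global family

Model: CR/Ops.lean (`Ops_vj`, `Ops_fin`, `exists_ops`; reuse `Ops_vj`).  `X = φ '' D`, D clopen in L.
First the operator `lft : C(X × Z, ℝ) →L[ℝ] C(L × Z, ℝ)`, `lft F (l, z) = F (φ l, z)` if `l ∈ D`, `0` otherwise
(continuous as D is clopen; norm ≤ 1).  `T i F = M⁻¹ • Ops_vj (S.J i) (lft F)`, M a constant as in `exists_ops`.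
Finiteness: as `Ops_fin` with `S.fin`.  Separation: `F (φ l, z) ≠ F (φ q, z)` for some z; `g = lft F (·, z)` has countable range:
contained in `{0} ∪ range (F (·, z))`, and X is compact and scattered (`scattered_subtype` in CK/SubOrd), `countable_range`.
-/

set_option autoImplicit false

open Set Topology Filter

namespace Pool.Agent.helper26.CS

open Pool.Agent.helper26.CK Pool.Agent.helper26.CR

section lift

variable {K L Z : Type} [TopologicalSpace K] [TopologicalSpace L] [CompactSpace L]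
    [TopologicalSpace Z] [CompactSpace Z]

open Classical in
/-- the function on `L × Z` -/
noncomputable def OpsG_fun (φ : C(L, K)) (D : Set L) (F : C(↥(φ '' D) × Z, ℝ)) (p : L × Z) : ℝ :=
  if h : p.1 ∈ D then F (⟨φ p.1, mem_image_of_mem φ h⟩, p.2) else 0

omit [CompactSpace L] [CompactSpace Z] in
theorem OpsG_fun_mem (φ : C(L, K)) (D : Set L) (F : C(↥(φ '' D) × Z, ℝ)) {p : L × Z} (h : p.1 ∈ D) :
    OpsG_fun φ D F p = F (⟨φ p.1, mem_image_of_mem φ h⟩, p.2) := by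
  unfold OpsG_fun
  rw [dif_pos h]

omit [CompactSpace L] [CompactSpace Z] in
theorem OpsG_fun_not (φ : C(L, K)) (D : Set L) (F : C(↥(φ '' D) × Z, ℝ)) {p : L × Z} (h : p.1 ∉ D) :
    OpsG_fun φ D F p = 0 := by
  unfold OpsG_fun
  rw [dif_neg h]

omit [CompactSpace L] [CompactSpace Z] in
theorem OpsG_continuous (φ : C(L, K)) {D : Set L} (hD : IsClopen D) (F : C(↥(φ '' D) × Z, ℝ)) :
    Continuous (OpsG_fun φ D F) := by
  have h1 : ContinuousOn (OpsG_fun φ D F) {p : L × Z | p.1 ∈ D} := by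
    rw [continuousOn_iff_continuous_domRestrict]
    have e : ({p : L × Z | p.1 ∈ D}.domRestrict (OpsG_fun φ D F)) =
        fun p : {p : L × Z | p.1 ∈ D} => F (⟨φ p.1.1, mem_image_of_mem φ p.2⟩, p.1.2) := by
      funext p
      exact OpsG_fun_mem φ D F p.2
    rw [e]
    refine F.continuous.comp ?_
    refine Continuous.prodMk ?_ (by fun_prop)
    exact Continuous.subtype_mk (by fun_prop) _
  have h2 : ContinuousOn (OpsG_fun φ D F) {p : L × Z | p.1 ∈ Dᶜ} := by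
    refine ContinuousOn.congr (f := fun _ => (0 : ℝ)) continuousOn_const ?_
    intro p hp
    exact OpsG_fun_not φ D F hp
  have h3 := h1.union_of_isOpen h2 (hD.isOpen.preimage continuous_fst)
    (hD.compl.isOpen.preimage continuous_fst)
  rw [← continuousOn_univ]
  refine h3.mono fun p _ => ?_
  by_cases h : p.1 ∈ D
  · exact Or.inl h
  · exact Or.inr h

variable [CompactSpace K] [T2Space K]

/-- the operator -/
noncomputable def OpsG_lft (φ : C(L, K)) {D : Set L} (hD : IsClopen D) [CompactSpace ↥(φ '' D)] :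
    C(↥(φ '' D) × Z, ℝ) →L[ℝ] C(L × Z, ℝ) :=
  LinearMap.mkContinuous
    { toFun := fun F => ⟨OpsG_fun φ D F, OpsG_continuous φ hD F⟩
      map_add' := fun F G => by
        ext p
        change OpsG_fun φ D (F + G) p = OpsG_fun φ D F p + OpsG_fun φ D G p
        by_cases h : p.1 ∈ D
        · rw [OpsG_fun_mem φ D _ h, OpsG_fun_mem φ D _ h, OpsG_fun_mem φ D _ h]
          rfl
        · rw [OpsG_fun_not φ D _ h, OpsG_fun_not φ D _ h, OpsG_fun_not φ D _ h, add_zero]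
      map_smul' := fun a F => by
        ext p
        change OpsG_fun φ D (a • F) p = a * OpsG_fun φ D F p
        by_cases h : p.1 ∈ D
        · rw [OpsG_fun_mem φ D _ h, OpsG_fun_mem φ D _ h]
          rfl
        · rw [OpsG_fun_not φ D _ h, OpsG_fun_not φ D _ h, mul_zero] } 1 (by
    intro F
    rw [one_mul]
    refine (ContinuousMap.norm_le _ (norm_nonneg _)).2 fun p => ?_
    change ‖OpsG_fun φ D F p‖ ≤ ‖F‖
    by_cases h : p.1 ∈ D
    · rw [OpsG_fun_mem φ D _ h]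
      exact F.norm_coe_le_norm _
    · rw [OpsG_fun_not φ D _ h, norm_zero]
      exact norm_nonneg _)

omit [CompactSpace K] [T2Space K] in
theorem OpsG_lft_apply (φ : C(L, K)) {D : Set L} (hD : IsClopen D) [CompactSpace ↥(φ '' D)]
    (F : C(↥(φ '' D) × Z, ℝ)) (p : L × Z) : OpsG_lft φ hD F p = OpsG_fun φ D F p := rfl

omit [CompactSpace K] [T2Space K] in
theorem OpsG_norm_lft (φ : C(L, K)) {D : Set L} (hD : IsClopen D) [CompactSpace ↥(φ '' D)]
    (F : C(↥(φ '' D) × Z, ℝ)) : ‖OpsG_lft φ hD F‖ ≤ ‖F‖ := by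
  refine (ContinuousMap.norm_le _ (norm_nonneg _)).2 fun p => ?_
  rw [OpsG_lft_apply]
  by_cases h : p.1 ∈ D
  · rw [OpsG_fun_mem φ D _ h]
    exact F.norm_coe_le_norm _
  · rw [OpsG_fun_not φ D _ h, norm_zero]
    exact norm_nonneg _

/-- only finitely many of the functionals are large on `F` -/
theorem OpsG_fin (S : GSep L) (F : C(L × Z, ℝ)) {ε : ℝ} (hε : 0 < ε) :
    {i | ε ≤ ‖Ops_vj (S.J i) F‖}.Finite := by
  have hc : IsCompact (range (Ops_fib F)) := isCompact_range (Ops_continuous_fib F)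
  have hε3 : 0 < ε / 3 := by positivity
  obtain ⟨t, -, htf, hcov⟩ := hc.finite_cover_balls hε3
  refine (htf.biUnion fun g _ => S.fin g (ε / 3) hε3).subset fun i hi => ?_
  by_contra hcon
  have h1 : ∀ g ∈ t, |S.J i g| < ε / 3 := by
    intro g hg
    by_contra h2
    exact hcon (mem_iUnion₂.2 ⟨g, hg, not_lt.1 h2⟩)
  have h2 : ‖Ops_vj (S.J i) F‖ ≤ 2 * (ε / 3) := by
    refine (ContinuousMap.norm_le _ (by positivity)).2 fun z => ?_
    obtain ⟨g, hg, hz⟩ := mem_iUnion₂.1 (hcov (mem_range_self z))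
    have h3 : ‖Ops_fib F z - g‖ < ε / 3 := by rwa [Metric.mem_ball, dist_eq_norm] at hz
    have h4 : |S.J i (Ops_fib F z - g)| ≤ ‖Ops_fib F z - g‖ := by
      calc |S.J i (Ops_fib F z - g)| ≤ ‖S.J i‖ * ‖Ops_fib F z - g‖ := (S.J i).le_opNorm _
        _ ≤ 1 * ‖Ops_fib F z - g‖ := mul_le_mul_of_nonneg_right (S.norm_le i) (norm_nonneg _)
        _ = ‖Ops_fib F z - g‖ := one_mul _
    have h5 : Ops_vj (S.J i) F z = S.J i (Ops_fib F z - g) + S.J i g := by
      rw [Ops_vj_apply, map_sub, sub_add_cancel]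
    rw [h5, Real.norm_eq_abs]
    have h6 := abs_add_le (S.J i (Ops_fib F z - g)) (S.J i g)
    have h7 := h1 g hg
    linarith
  have hi : ε ≤ ‖Ops_vj (S.J i) F‖ := hi
  linarith

end lift

theorem exists_opsG {K L Z : Type} [TopologicalSpace K] [CompactSpace K] [T2Space K]
    [TopologicalSpace L] [CompactSpace L] [TopologicalSpace Z] [CompactSpace Z] [T2Space Z]
    (hK : Scattered K) (φ : C(L, K)) (S : GSep L) {ν : C(Z, ℝ) → ℝ} (hν : EqNorm C(Z, ℝ) ν)
    {D : Set L} (hD : IsClopen D) [CompactSpace ↥(φ '' D)] :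
    ∃ T : S.I → C(↥(φ '' D) × Z, ℝ) →L[ℝ] C(Z, ℝ),
      (∀ i F, ν (T i F) ≤ PP (K := ↥(φ '' D)) ν F) ∧
      (∀ F (ε : ℝ), 0 < ε → {i | ε ≤ ν (T i F)}.Finite) ∧
      ∀ F (l q : L) (hl : l ∈ D) (hq : q ∈ D),
        ev (K := ↥(φ '' D)) ⟨φ l, mem_image_of_mem φ hl⟩ F ≠
          ev (K := ↥(φ '' D)) ⟨φ q, mem_image_of_mem φ hq⟩ F →
        ∃ i, l ∈ S.U i ∧ q ∉ S.U i ∧ T i F ≠ 0 := by
  rcases D.eq_empty_or_nonempty with hDe | hDn
  · -- the empty case
    subst hDe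
    have hem : IsEmpty ↥(φ '' (∅ : Set L)) := by
      rw [image_empty]
      infer_instance
    refine ⟨fun i => 0, ?_, ?_, ?_⟩
    · intro i F
      have h0 : PP (K := ↥(φ '' (∅ : Set L))) ν F = 0 := by
        unfold PP
        exact Real.iSup_of_isEmpty _
      rw [h0, _root_.zero_apply, hν.map_zero]
    · intro F ε hε
      refine Set.Finite.subset Set.finite_empty fun i hi => ?_
      have hi : ε ≤ ν ((0 : C(↥(φ '' (∅ : Set L)) × Z, ℝ) →L[ℝ] C(Z, ℝ)) F) := hi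
      rw [_root_.zero_apply, hν.map_zero] at hi
      exact absurd hi (not_le.2 hε)
    · intro F l q hl
      exact absurd hl (notMem_empty l)
  have hne : Nonempty ↥(φ '' D) := (hDn.image φ).to_subtype
  obtain ⟨c, C, hc, hC, h⟩ := hν.equiv
  obtain ⟨M, hM1, hM2⟩ : ∃ M : ℝ, 1 ≤ M ∧ C / c ≤ M :=
    ⟨max 1 (C / c), le_max_left _ _, le_max_right _ _⟩
  have hM0 : 0 < M := by linarith
  -- `c ‖F‖ ≤ PP ν F`
  have hP : ∀ F : C(↥(φ '' D) × Z, ℝ), c * ‖F‖ ≤ PP (K := ↥(φ '' D)) ν F := by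
    intro F
    have h0 : 0 ≤ PP (K := ↥(φ '' D)) ν F := (eqNorm_PP hν).nonneg F
    rw [mul_comm, ← le_div_iff₀ hc]
    refine (ContinuousMap.norm_le _ (by positivity)).2 ?_
    rintro ⟨x, z⟩
    rw [le_div_iff₀ hc, mul_comm]
    calc c * ‖F (x, z)‖ = c * ‖ev x F z‖ := rfl
      _ ≤ c * ‖ev x F‖ := mul_le_mul_of_nonneg_left ((ev x F).norm_coe_le_norm z) hc.le
      _ ≤ ν (ev x F) := (h _).1
      _ ≤ PP ν F := le_PP hν x F
  have hT : ∀ i F, ν ((M⁻¹ • (Ops_vj (S.J i)).comp (OpsG_lft φ hD)) F) =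
      M⁻¹ * ν (Ops_vj (S.J i) (OpsG_lft φ hD F)) := by
    intro i F
    rw [_root_.smul_apply, hν.smul_nonneg (by positivity)]
    rfl
  refine ⟨fun i => M⁻¹ • (Ops_vj (S.J i)).comp (OpsG_lft φ hD), ?_, ?_, ?_⟩
  · intro i F
    rw [hT]
    rw [inv_mul_le_iff₀ hM0]
    have h1 : C ≤ M * c := by rwa [div_le_iff₀ hc] at hM2
    calc ν (Ops_vj (S.J i) (OpsG_lft φ hD F)) ≤ C * ‖Ops_vj (S.J i) (OpsG_lft φ hD F)‖ := (h _).2
      _ ≤ C * ‖OpsG_lft φ hD F‖ := mul_le_mul_of_nonneg_left (Ops_norm_vj_le (S.norm_le i) _) hC.le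
      _ ≤ C * ‖F‖ := mul_le_mul_of_nonneg_left (OpsG_norm_lft φ hD F) hC.le
      _ ≤ (M * c) * ‖F‖ := mul_le_mul_of_nonneg_right h1 (norm_nonneg _)
      _ = M * (c * ‖F‖) := by ring
      _ ≤ M * PP ν F := mul_le_mul_of_nonneg_left (hP F) hM0.le
  · intro F ε hε
    refine (OpsG_fin S (OpsG_lft φ hD F) (ε := ε / C) (by positivity)).subset fun i hi => ?_
    have hi : ε ≤ ν ((M⁻¹ • (Ops_vj (S.J i)).comp (OpsG_lft φ hD)) F) := hi
    rw [hT] at hi
    change ε / C ≤ ‖Ops_vj (S.J i) (OpsG_lft φ hD F)‖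
    rw [div_le_iff₀ hC, mul_comm]
    have h2 := hν.nonneg (Ops_vj (S.J i) (OpsG_lft φ hD F))
    have h3 : M⁻¹ ≤ 1 := inv_le_one_of_one_le₀ hM1
    calc ε ≤ M⁻¹ * ν (Ops_vj (S.J i) (OpsG_lft φ hD F)) := hi
      _ ≤ 1 * ν (Ops_vj (S.J i) (OpsG_lft φ hD F)) := mul_le_mul_of_nonneg_right h3 h2
      _ = ν (Ops_vj (S.J i) (OpsG_lft φ hD F)) := one_mul _
      _ ≤ C * ‖Ops_vj (S.J i) (OpsG_lft φ hD F)‖ := (h _).2
  · intro F l q hl hq hy
    obtain ⟨z, hz⟩ : ∃ z, ev (K := ↥(φ '' D)) ⟨φ l, mem_image_of_mem φ hl⟩ F z ≠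
        ev (K := ↥(φ '' D)) ⟨φ q, mem_image_of_mem φ hq⟩ F z := by
      by_contra hcon
      push Not at hcon
      exact hy (ContinuousMap.ext hcon)
    have hcount : (range (Ops_fib (OpsG_lft φ hD F) z)).Countable := by
      have h1 : (range (Ops_fib F z)).Countable := countable_range (scattered_subtype hK _) (Ops_fib F z)
      refine (h1.insert 0).mono ?_
      rintro _ ⟨x, rfl⟩
      rw [Ops_fib_apply, OpsG_lft_apply]
      by_cases hx : x ∈ D
      · rw [OpsG_fun_mem φ D F (p := (x, z)) hx]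
        exact mem_insert_of_mem _ ⟨⟨φ x, mem_image_of_mem φ hx⟩, rfl⟩
      · rw [OpsG_fun_not φ D F (p := (x, z)) hx]
        exact mem_insert _ _
    have hne2 : Ops_fib (OpsG_lft φ hD F) z l ≠ Ops_fib (OpsG_lft φ hD F) z q := by
      rw [Ops_fib_apply, Ops_fib_apply, OpsG_lft_apply, OpsG_lft_apply,
        OpsG_fun_mem φ D F (p := (l, z)) hl, OpsG_fun_mem φ D F (p := (q, z)) hq]
      exact hz
    obtain ⟨i, hi1, hi2, hi3⟩ := S.sep (Ops_fib (OpsG_lft φ hD F) z) hcount l q hne2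
    refine ⟨i, hi1, hi2, fun h0 => hi3 ?_⟩
    have h0 : M⁻¹ • Ops_vj (S.J i) (OpsG_lft φ hD F) = 0 := h0
    have h1 : Ops_vj (S.J i) (OpsG_lft φ hD F) = 0 := (smul_eq_zero.1 h0).resolve_left (by positivity)
    rw [← Ops_vj_apply, h1]
    rfl

end Pool.Agent.helper26.CS
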