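import Pool.Agent.helper26.CS.AdmS
import Pool.Agent.helper26.CS.OpsG

/-!
# CS-Point: the step at a point
-/

set_option autoImplicit false

open Set Topology Filter

namespace Pool.Agent.helper26.CS

open Pool.Agent.helper26.CK Pool.Agent.helper26.CR

theorem Point_empty {K Z : Type} [TopologicalSpace K] [CompactSpace K] [TopologicalSpace Z]
    [CompactSpace Z] [h : IsEmpty K] (ν : C(Z, ℝ) → ℝ) (F : C(K × Z, ℝ)) :
    PP (K := K) ν F = 0 := Real.iSup_of_isEmpty _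

theorem Point_sn {K Z : Type} [TopologicalSpace K] [CompactSpace K] [TopologicalSpace Z]
    [CompactSpace Z] {ν : C(Z, ℝ) → ℝ} (hν : EqNorm C(Z, ℝ) ν) :
    SN C(K × Z, ℝ) (PP (K := K) ν) := by
  rcases isEmpty_or_nonempty K with h | h
  · refine ⟨fun f g => ?_, fun a f => ?_⟩
    · rw [Point_empty, Point_empty, Point_empty, add_zero]
    · rw [Point_empty, Point_empty, mul_zero]
  · exact EqNorm.sn (eqNorm_PP hν)

theorem admS_point {Q : Cls} (hc : CompProp Q) (ht : TreeProp Q) {K L Z : Type}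
    [TopologicalSpace K] [CompactSpace K] [T2Space K] [TopologicalSpace L] [CompactSpace L]
    [TopologicalSpace Z] [CompactSpace Z] [T2Space Z] (hK : Scattered K) (φ : C(L, K)) (S : GSep L)
    {ν : C(Z, ℝ) → ℝ} (hν : EqNorm C(Z, ℝ) ν) (hQ : Q C(Z, ℝ) ν) {D : Set L} (hD : IsClopen D)
    (p : K) (h : ∀ D' ⊆ D, IsClopen D' → p ∉ φ '' D' → AdmS Q ν (φ '' D')) :
    AdmS Q ν (φ '' D) := by
  classical
  by_cases hp : p ∉ φ '' D
  · exact h D subset_rfl hD hp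
  rw [not_not] at hp
  intro δ hδ
  let U : Finset S.I → Set L := fun t => D ∩ {l | ∀ i ∈ t, l ∈ S.U i}
  have hU : ∀ t, IsClopen (U t) := by
    intro t
    have h1 : {l | ∀ i ∈ t, l ∈ S.U i} = ⋂ i ∈ t, S.U i := by
      ext l; simp
    refine hD.inter ?_
    rw [h1]
    exact isClopen_biInter_finset fun i _ => S.clopen i
  have hUD : ∀ t, U t ⊆ D := fun t => inter_subset_left
  have hcp : ∀ t, CompactSpace ↥(φ '' U t) := fun t => isCompact_iff_compactSpace.1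
    ((hU t).1.isCompact.image φ.continuous)
  let ι : ∀ t, C(↥(φ '' U t), ↥(φ '' D)) := fun t =>
    ⟨fun x => ⟨x.1, image_mono (hUD t) x.2⟩, by fun_prop⟩
  have hne : Nonempty ↥(φ '' D) := ⟨⟨p, hp⟩⟩
  obtain ⟨T, hT1, hT2, hT3⟩ := exists_opsG hK φ S hν hD
  let ψ : C(↥D, ↥(φ '' D)) := ⟨fun l => ⟨φ l.1, mem_image_of_mem φ l.2⟩, by fun_prop⟩
  let R : Finset S.I → C(↥(φ '' D) × Z, ℝ) → ℝ := fun t F =>
    PP (K := ↥(φ '' U t)) ν (pull1 Z (ι t) F)
  have hRn : ∀ t F, 0 ≤ R t F := fun t F => (Point_sn hν).nonneg _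
  have hRle : ∀ t (l : ↥D) F, l.1 ∈ U t → ν (ev (ψ l) F) ≤ R t F := fun t l F hl =>
    le_PP_pull1 hν (ι t) ⟨φ l.1, mem_image_of_mem φ hl⟩ F
  have hRex : ∀ t F, 0 < R t F → ∃ l : ↥D, l.1 ∈ U t ∧ ν (ev (ψ l) F) = R t F := by
    intro t F hpos
    rcases isEmpty_or_nonempty ↥(φ '' U t) with h1 | h1
    · have h2 : R t F = 0 := Point_empty ν _
      rw [h2] at hpos
      exact absurd hpos (lt_irrefl _)
    · obtain ⟨⟨_, l, hl, rfl⟩, hx⟩ := exists_PP (K := ↥(φ '' U t)) hν (pull1 Z (ι t) F)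
      refine ⟨⟨l, hUD t hl⟩, hl, ?_⟩
      rw [ev_pull1] at hx
      exact hx
  have hRmono : ∀ s t, s ⊆ t → ∀ F, R t F ≤ R s F := by
    intro s t hst F
    rcases (hRn t F).eq_or_lt with h0 | h0
    · rw [← h0]; exact hRn s F
    · obtain ⟨l, hl, hx⟩ := hRex t F h0
      rw [← hx]
      exact hRle s l F ⟨hl.1, fun i hi => hl.2 i (hst hi)⟩
  have hev : ∀ F : C(↥(φ '' D) × Z, ℝ), Continuous fun l : ↥D => ν (ev (ψ l) F) := by
    intro F
    have h1 : (fun l : ↥D => ν (ev (ψ l) F)) = fun l => ν (F.curry (ψ l)) := by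
      funext l
      rw [ev_eq]
    rw [h1]
    exact hν.continuous.comp (F.curry.continuous.comp ψ.continuous)
  have hDc : CompactSpace ↥D := isCompact_iff_compactSpace.1 hD.1.isCompact
  obtain ⟨N, hN1, hN2, hN3⟩ := ht C(↥(φ '' D) × Z, ℝ) (PP (K := ↥(φ '' D)) ν) (eqNorm_PP hν)
    S.I (fun i F => ν (T i F)) R (fun t => p ∉ φ '' U t) (fun F => ν (ev ⟨p, hp⟩ F)) δ hδ
    (fun i => ⟨(EqNorm.sn hν).comp (T i), hc _ _ (T i) ν hQ, hT1 i⟩)
    hT2
    (fun t => (Point_sn hν).comp (pull1 Z (ι t)))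
    hRmono
    (fun F => by
      refine le_antisymm ?_ ?_
      · rcases (hRn ∅ F).eq_or_lt with h0 | h0
        · rw [← h0]
          exact (eqNorm_PP (K := ↥(φ '' D)) hν).nonneg F
        · obtain ⟨l, _, hx⟩ := hRex ∅ F h0
          rw [← hx]
          exact le_PP hν _ F
      · obtain ⟨⟨_, l, hl, rfl⟩, hx⟩ := exists_PP (K := ↥(φ '' D)) hν F
        rw [← hx]
        exact hRle ∅ ⟨l, hl⟩ F ⟨hl, fun i hi => absurd hi (Finset.notMem_empty i)⟩)
    (fun s t hst hA hpt => hA (image_mono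
      (show U t ⊆ U s from fun l hl => ⟨hl.1, fun i hi => hl.2 i (hst hi)⟩) hpt))
    (fun t hA ε hε => by
      obtain ⟨N, hN1, hN2, hN3⟩ := h (U t) (hUD t) (hU t) hA ε hε
      exact ⟨fun F => N (pull1 Z (ι t) F), hN1.comp _, hc _ _ _ N hN2, fun F => hN3 _⟩)
    ⟨(EqNorm.sn hν).comp (ev (K := ↥(φ '' D)) ⟨p, hp⟩),
      hc _ _ (ev (K := ↥(φ '' D)) ⟨p, hp⟩) ν hQ, fun F => le_PP hν _ F⟩
    (fun F r TT hr hR => by
      have hr0 : 0 < r := (hν.nonneg _).trans_lt hr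
      let C : {t : Finset S.I // (t : Set S.I) ⊆ TT} → Set ↥D := fun t =>
        {l | l.1 ∈ U t.1 ∧ r ≤ ν (ev (ψ l) F)}
      have hCcl : ∀ t, IsClosed (C t) := fun t =>
        ((hU t.1).1.preimage continuous_subtype_val).inter (isClosed_le continuous_const (hev F))
      have hnt : Nonempty {t : Finset S.I // (t : Set S.I) ⊆ TT} := ⟨⟨∅, by simp⟩⟩
      obtain ⟨l, hl⟩ := IsCompact.nonempty_iInter_of_directed_nonempty_isCompact_isClosed C
        (by
          intro a b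
          refine ⟨⟨a.1 ∪ b.1, ?_⟩, ?_, ?_⟩
          · rw [Finset.coe_union]
            exact union_subset a.2 b.2
          · rintro l ⟨h1, h2⟩
            exact ⟨⟨h1.1, fun i hi => h1.2 i (Finset.mem_union_left _ hi)⟩, h2⟩
          · rintro l ⟨h1, h2⟩
            exact ⟨⟨h1.1, fun i hi => h1.2 i (Finset.mem_union_right _ hi)⟩, h2⟩)
        (fun t => by
          obtain ⟨l, h1, h2⟩ := hRex t.1 F (hr0.trans_le (hR t.1 t.2))
          refine ⟨l, h1, ?_⟩
          rw [h2]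
          exact hR t.1 t.2)
        (fun t => (hCcl t).isCompact) hCcl
      rw [mem_iInter] at hl
      have hlr : r ≤ ν (ev (ψ l) F) := (hl ⟨∅, by simp⟩).2
      have hlT : ∀ i ∈ TT, l.1 ∈ S.U i := fun i hi =>
        (hl ⟨{i}, by simpa using hi⟩).1.2 i (Finset.mem_singleton_self i)
      -- the finite set
      have hcov : D ∩ φ ⁻¹' {p} ⊆ ⋃ i : {i // l.1 ∈ S.U i ∧ T i F ≠ 0}, (S.U i.1)ᶜ := by
        rintro q ⟨hq, hqp⟩
        have hqp' : φ q = p := hqp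
        have h1 : ev (K := ↥(φ '' D)) ⟨φ l.1, mem_image_of_mem φ l.2⟩ F ≠
            ev (K := ↥(φ '' D)) ⟨φ q, mem_image_of_mem φ hq⟩ F := by
          intro heq
          have h2 : (⟨φ q, mem_image_of_mem φ hq⟩ : ↥(φ '' D)) = ⟨p, hp⟩ := Subtype.ext hqp'
          rw [h2] at heq
          have h3 : ν (ev (ψ l) F) = ν (ev ⟨p, hp⟩ F) := congrArg ν heq
          rw [h3] at hlr
          exact absurd hr (not_lt.2 hlr)
        obtain ⟨i, h2, h3, h4⟩ := hT3 F l.1 q l.2 hq h1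
        exact mem_iUnion.2 ⟨⟨i, h2, h4⟩, h3⟩
      obtain ⟨s, hs⟩ := ((hD.1.inter (isClosed_singleton.preimage φ.continuous)).isCompact
        ).elim_finite_subcover (fun i : {i // l.1 ∈ S.U i ∧ T i F ≠ 0} => (S.U i.1)ᶜ)
        (fun i => (S.clopen i.1).compl.2) hcov
      refine ⟨s.map (Function.Embedding.subtype _), ?_, ?_, ?_⟩
      · rintro ⟨q, hq, hqp⟩
        obtain ⟨i, hi, hqi⟩ := mem_iUnion₂.1 (hs ⟨hq.1, hqp⟩)
        exact hqi (hq.2 i.1 (Finset.mem_map_of_mem _ hi))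
      · intro i hi
        obtain ⟨j, _, rfl⟩ := Finset.mem_map.1 hi
        exact (hν.pos j.2.2).ne'
      · intro t u htT hu
        refine hlr.trans (hRle u l F ⟨l.2, fun i hi => ?_⟩)
        rcases (hu i).1 hi with h1 | h1
        · exact hlT i (htT h1)
        · obtain ⟨j, _, rfl⟩ := Finset.mem_map.1 h1
          exact j.2.1)
  exact ⟨N, EqNorm.sn hN1, hN2, hN3⟩

end Pool.Agent.helper26.CS
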