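import Pool.Agent.helper26.CS.Defs

/-!
# CS-TreeA: lists with weights; extension of lists

Everything here is about numbers (`ρ i` is a real number).  A list of pairs (i, n).  `DD ρ β l` is
`∑_j β (1/2)^j (1 + kk n_j) ρ i_j`, `GG ρ β l j = β (1/2)^j kk n_j ρ i_j`.
-/

set_option autoImplicit false

open Set Topology Filter

namespace Pool.Agent.helper26.CS

noncomputable def kk (n : ℕ) : ℝ := (1 / 4) * (1 / 2) ^ n

theorem TreeA_kk_pos (n : ℕ) : 0 < kk n := by
  unfold kk
  positivity

theorem TreeA_kk_le (n : ℕ) : kk n ≤ 1 / 4 := by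
  unfold kk
  have : ((1 : ℝ) / 2) ^ n ≤ 1 := pow_le_one₀ (by norm_num) (by norm_num)
  linarith

section
variable {I : Type 1}

/-- the bonus of a list -/
noncomputable def DD (ρ : I → ℝ) : ℝ → List (I × ℕ) → ℝ
  | _, [] => 0
  | β, (x :: l) => β * (1 + kk x.2) * ρ x.1 + DD ρ (β / 2) l

/-- the variable part of the bonus at the place `j` -/
noncomputable def GG (ρ : I → ℝ) : ℝ → List (I × ℕ) → ℕ → ℝ
  | _, [], _ => 0
  | β, (x :: _), 0 => β * kk x.2 * ρ x.1
  | β, (_ :: l), (j + 1) => GG ρ (β / 2) l j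

open Classical in
/-- the set of the first coordinates -/
noncomputable def fs (l : List (I × ℕ)) : Finset I := (l.map Prod.fst).toFinset

/-- minimal admissible lists -/
def IsLeaf (A : Finset I → Prop) (l : List (I × ℕ)) : Prop :=
  (l.map Prod.fst).Nodup ∧ A (fs l) ∧ ¬ A (fs l.dropLast)

/-- the errors -/
noncomputable def ee (l : List (I × ℕ)) : ℝ := (1 / 4) ^ ((l.map Prod.snd).sum + 1)

theorem mem_fs {l : List (I × ℕ)} {i : I} : i ∈ fs l ↔ ∃ n, (i, n) ∈ l := by
  unfold fs
  simp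

theorem DD_append (ρ : I → ℝ) (β : ℝ) (l l' : List (I × ℕ)) :
    DD ρ β (l ++ l') = DD ρ β l + DD ρ (β * (1 / 2) ^ l.length) l' := by
  induction l generalizing β with
  | nil => simp [DD]
  | cons x l ih =>
    simp only [List.cons_append, DD, List.length_cons]
    rw [ih, pow_succ]
    have : β / 2 * (1 / 2) ^ l.length = β * ((1 / 2) ^ l.length * (1 / 2)) := by ring
    rw [this]
    ring

theorem DD_nonneg {ρ : I → ℝ} (hρ : ∀ i, 0 ≤ ρ i) {β : ℝ} (hβ : 0 ≤ β) (l : List (I × ℕ)) :
    0 ≤ DD ρ β l := by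
  induction l generalizing β with
  | nil => simp [DD]
  | cons x l ih =>
    simp only [DD]
    have h1 := ih (β := β / 2) (by linarith)
    have h2 := TreeA_kk_pos x.2
    have h3 := hρ x.1
    have : 0 ≤ β * (1 + kk x.2) * ρ x.1 := by positivity
    linarith

theorem GG_nonneg {ρ : I → ℝ} (hρ : ∀ i, 0 ≤ ρ i) {β : ℝ} (hβ : 0 ≤ β) (l : List (I × ℕ)) (j : ℕ) :
    0 ≤ GG ρ β l j := by
  induction l generalizing β j with
  | nil => cases j <;> simp [GG]
  | cons x l ih =>
    cases j with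
    | zero =>
      simp only [GG]
      have h2 := TreeA_kk_pos x.2
      have h3 := hρ x.1
      positivity
    | succ j =>
      simp only [GG]
      exact ih (by linarith) j

theorem DD_le {ρ : I → ℝ} {p : ℝ} (hρ0 : ∀ i, 0 ≤ ρ i) (hρ : ∀ i, ρ i ≤ p) (hp : 0 ≤ p) {β : ℝ}
    (hβ : 0 ≤ β) (l : List (I × ℕ)) : DD ρ β l ≤ 5 / 2 * β * p := by
  induction l generalizing β with
  | nil =>
    simp only [DD]
    positivity
  | cons x l ih =>
    simp only [DD]
    have h1 := ih (β := β / 2) (by linarith)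
    have h2 := TreeA_kk_le x.2
    have h2' := TreeA_kk_pos x.2
    have h3 := hρ x.1
    have h3' := hρ0 x.1
    have h4 : β * (1 + kk x.2) * ρ x.1 ≤ β * (5 / 4) * p := by
      have h5 : 1 + kk x.2 ≤ 5 / 4 := by linarith
      exact mul_le_mul (mul_le_mul_of_nonneg_left h5 hβ) h3 h3' (by positivity)
    linarith

theorem GG_le {ρ : I → ℝ} {p : ℝ} (hρ0 : ∀ i, 0 ≤ ρ i) (hρ : ∀ i, ρ i ≤ p) (hp : 0 ≤ p) {β : ℝ}
    (hβ : 0 ≤ β) (l : List (I × ℕ)) (j : ℕ) : GG ρ β l j ≤ β * (1 / 2) ^ j / 4 * p := by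
  induction l generalizing β j with
  | nil =>
    have : 0 ≤ β * (1 / 2) ^ j / 4 * p := by positivity
    cases j <;> simpa [GG] using this
  | cons x l ih =>
    cases j with
    | zero =>
      simp only [GG]
      have h2 := TreeA_kk_le x.2
      have h2' := TreeA_kk_pos x.2
      have h3 := hρ x.1
      have h3' := hρ0 x.1
      have h4 : β * kk x.2 * ρ x.1 ≤ β * (1 / 4) * p :=
        mul_le_mul (mul_le_mul_of_nonneg_left h2 hβ) h3 h3' (by positivity)
      rw [pow_zero]
      linarith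
    | succ j =>
      simp only [GG]
      refine (ih (β := β / 2) (by linarith) j).trans (le_of_eq ?_)
      rw [pow_succ]
      ring

theorem GG_eq (ρ : I → ℝ) (β : ℝ) (l : List (I × ℕ)) (j : ℕ) (hj : j < l.length) :
    GG ρ β l j = β * (1 / 2) ^ j * kk l[j].2 * ρ l[j].1 := by
  induction l generalizing β j with
  | nil => simp at hj
  | cons x l ih =>
    cases j with
    | zero => simp [GG]
    | succ j =>
      simp only [GG, List.getElem_cons_succ]
      have hj' : j < l.length := by simpa using hj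
      rw [ih _ j hj', pow_succ]
      ring

theorem DD_eq (ρ : I → ℝ) (β : ℝ) (l : List (I × ℕ)) :
    DD ρ β l = ∑ j : Fin l.length, β * (1 / 2) ^ (j : ℕ) * (1 + kk l[j].2) * ρ l[j].1 := by
  induction l generalizing β with
  | nil => simp [DD]
  | cons x l ih =>
    simp only [DD]
    rw [ih]
    change _ = ∑ j : Fin (l.length + 1), β * (1 / 2) ^ (j : ℕ) * (1 + kk (x :: l)[(j : ℕ)].2) *
      ρ (x :: l)[(j : ℕ)].1
    rw [Fin.sum_univ_succ]
    congr 1
    · simp
    · refine Finset.sum_congr rfl fun j _ => ?_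
      simp only [Fin.val_succ, List.getElem_cons_succ, pow_succ]
      simp only [Fin.getElem_fin]
      ring

/-! ### prefixes -/

theorem TreeA_fs_take {l : List (I × ℕ)} {a b : ℕ} (h : a ≤ b) : fs (l.take a) ⊆ fs (l.take b) := by
  intro i hi
  rw [mem_fs] at hi ⊢
  obtain ⟨n, hn⟩ := hi
  refine ⟨n, ?_⟩
  have : (l.take b).take a = l.take a := by rw [List.take_take, min_eq_left h]
  rw [← this] at hn
  exact List.mem_of_mem_take hn

/-- every list which is not admissible can be extended by elements of an admissible set, the first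
new element being `e`, all new numbers being `N`, to a minimal admissible list -/
theorem exists_leaf {A : Finset I → Prop} (hA : ∀ s t, s ⊆ t → A s → A t) {ρ : I → ℝ}
    (hρ : ∀ i, 0 ≤ ρ i) {β : ℝ} (hβ : 0 ≤ β) (t : List (I × ℕ)) (ht : (t.map Prod.fst).Nodup)
    (htA : ¬ A (fs t)) (s : Finset I) (hs : A s) (e : I) (he : e ∈ s) (het : e ∉ fs t) (N : ℕ) :
    ∃ u, IsLeaf A u ∧ (∀ i ∈ fs u, i ∈ fs t ∨ i ∈ s) ∧
      DD ρ β t + β * (1 / 2) ^ t.length * ρ e ≤ DD ρ β u ∧ ee u ≤ (1 / 4) ^ (N + 1) := by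
  classical
  -- the full extension
  set s' : Finset I := (s \ fs t).erase e with hs'
  set w : List (I × ℕ) := t ++ (e, N) :: s'.toList.map (fun i => (i, N)) with hw
  have hmem : ∀ i, i ∈ fs w ↔ i ∈ fs t ∨ i ∈ s := by
    intro i
    constructor
    · intro hi
      rw [mem_fs] at hi
      obtain ⟨n, hn⟩ := hi
      rw [hw, List.mem_append, List.mem_cons, List.mem_map] at hn
      rcases hn with hn | hn | ⟨j, hj, hn⟩
      · exact Or.inl (mem_fs.2 ⟨n, hn⟩)
      · rw [Prod.mk.injEq] at hn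
        rw [hn.1]
        exact Or.inr he
      · rw [Prod.mk.injEq] at hn
        rw [Finset.mem_toList, hs', Finset.mem_erase, Finset.mem_sdiff] at hj
        rw [← hn.1]
        exact Or.inr hj.2.1
    · intro hi
      by_cases hit : i ∈ fs t
      · obtain ⟨n, hn⟩ := mem_fs.1 hit
        exact mem_fs.2 ⟨n, by rw [hw, List.mem_append]; exact Or.inl hn⟩
      · have his : i ∈ s := hi.resolve_left hit
        by_cases hie : i = e
        · refine mem_fs.2 ⟨N, ?_⟩
          rw [hw, List.mem_append, List.mem_cons, hie]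
          exact Or.inr (Or.inl rfl)
        · refine mem_fs.2 ⟨N, ?_⟩
          rw [hw, List.mem_append, List.mem_cons, List.mem_map]
          refine Or.inr (Or.inr ⟨i, ?_, rfl⟩)
          rw [Finset.mem_toList, hs', Finset.mem_erase, Finset.mem_sdiff]
          exact ⟨hie, his, hit⟩
  have hnod : (w.map Prod.fst).Nodup := by
    rw [hw, List.map_append, List.map_cons, List.map_map]
    have e1 : (Prod.fst ∘ fun i : I => (i, N)) = id := rfl
    rw [e1, List.map_id, List.nodup_append]
    refine ⟨ht, ?_, ?_⟩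
    · rw [List.nodup_cons]
      refine ⟨?_, s'.nodup_toList⟩
      rw [Finset.mem_toList, hs']
      simp
    · intro a ha b hb hab
      subst hab
      have ha' : a ∈ fs t := by
        unfold fs
        rw [List.mem_toFinset]
        exact ha
      rw [List.mem_cons] at hb
      rcases hb with hb | hb
      · rw [hb] at ha'
        exact het ha'
      · rw [Finset.mem_toList, hs', Finset.mem_erase, Finset.mem_sdiff] at hb
        exact hb.2.2 ha'
  have hAw : A (fs w) := hA s _ (fun i hi => (hmem i).2 (Or.inr hi)) hs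
  -- the minimal admissible prefix
  have hex : ∃ k, A (fs (w.take k)) := ⟨w.length, by rwa [List.take_length]⟩
  set k := Nat.find hex with hk
  have hkA : A (fs (w.take k)) := Nat.find_spec hex
  have hkw : k ≤ w.length := Nat.find_min' hex (by rwa [List.take_length])
  have htk : t.length < k := by
    by_contra hcon
    have h1 : k ≤ t.length := not_lt.1 hcon
    have h2 : w.take t.length = t := by rw [hw, List.take_left']; rfl
    refine htA (hA _ _ ?_ hkA)
    calc fs (w.take k) ⊆ fs (w.take t.length) := TreeA_fs_take h1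
      _ = fs t := by rw [h2]
  obtain ⟨m, hm⟩ : ∃ m, k = t.length + 1 + m := ⟨k - (t.length + 1), by omega⟩
  have hu : w.take k = t ++ (e, N) :: (s'.toList.map (fun i => (i, N))).take m := by
    rw [hw, List.take_append, hm]
    rw [List.take_of_length_le (by omega)]
    have : t.length + 1 + m - t.length = m + 1 := by omega
    rw [this, List.take_succ_cons]
  refine ⟨w.take k, ⟨?_, hkA, ?_⟩, ?_, ?_, ?_⟩
  · rw [List.map_take]
    exact hnod.take
  · have h1 : (w.take k).dropLast = w.take (k - 1) := by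
      rw [List.dropLast_eq_take, List.take_take, List.length_take, min_eq_left hkw]
      congr 1
      omega
    rw [h1]
    exact Nat.find_min hex (by omega)
  · intro i hi
    have h1 : fs (w.take k) ⊆ fs (w.take w.length) := TreeA_fs_take hkw
    rw [List.take_length] at h1
    exact (hmem i).1 (h1 hi)
  · rw [hu, DD_append]
    simp only [DD]
    have h1 := DD_nonneg hρ (β := β * (1 / 2) ^ t.length / 2) (by positivity)
      ((s'.toList.map (fun i => (i, N))).take m)
    have h2 := TreeA_kk_pos N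
    have h3 := hρ e
    have h4 : 0 ≤ β * (1 / 2) ^ t.length * kk N * ρ e := by positivity
    linarith
  · unfold ee
    refine pow_le_pow_of_le_one (by norm_num) (by norm_num) ?_
    rw [hu, List.map_append, List.sum_append, List.map_cons, List.sum_cons]
    simp only
    omega

/-- the main contradiction: `H` gives a set `s`, with an element `e` not in `T`, `ρ e > 0`; for all `M`, `N` the
leaf `u` of `exists_leaf` (with `t = t M`) has `R (fs u) ≥ r` and
`r + DD ρ β (t M) + β (1/2)^M ρ e ≤ R (fs u) + DD ρ β u ≤ (1 + (1/4)^(N+1)) L`; `N → ∞`, then `hM`: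
`β (1/2)^M ρ e ≤ 5/2 β (1/2)^M σ M`, and `M → ∞`. -/
theorem finA {A : Finset I → Prop} (hA : ∀ s t, s ⊆ t → A s → A t) {ρ : I → ℝ}
    (hρ : ∀ i, 0 ≤ ρ i) {β : ℝ} (hβ : 0 < β) {R : Finset I → ℝ} (hanti : ∀ s t, s ⊆ t → R t ≤ R s)
    {L r : ℝ} (hL : 0 ≤ L) (hno : ∀ l, IsLeaf A l → R (fs l) + DD ρ β l ≤ (1 + ee l) * L)
    (T : Set I) (hT : ∀ t : Finset I, (t : Set I) ⊆ T → ¬ A t)
    (H : ∃ s : Finset I, A s ∧ (∀ i ∈ s, ρ i ≠ 0) ∧
        ∀ t u : Finset I, (t : Set I) ⊆ T → (∀ i, i ∈ u ↔ i ∈ t ∨ i ∈ s) → r ≤ R u)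
    (t : ℕ → List (I × ℕ)) (ht : ∀ M, ((t M).map Prod.fst).Nodup) (htT : ∀ M, ((fs (t M) : Finset I) : Set I) ⊆ T)
    (htl : ∀ M, (t M).length ≤ M) (σ : ℕ → ℝ) (hσ : Tendsto σ atTop (𝓝 0))
    (hM : ∀ M, L ≤ r + DD ρ β (t M) + 5 / 2 * β * (1 / 2) ^ M * σ M) : False := by
  classical
  obtain ⟨s, hs, hsρ, hsR⟩ := H
  obtain ⟨e, hes, heT⟩ : ∃ e ∈ s, e ∉ T := by
    by_contra hcon
    push Not at hcon
    exact hT s (fun i hi => hcon i hi) hs
  have hρe : 0 < ρ e := lt_of_le_of_ne (hρ e) (Ne.symm (hsρ e hes))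
  -- for all `M`, `N`
  have key : ∀ M N : ℕ, r + DD ρ β (t M) + β * (1 / 2) ^ M * ρ e ≤ (1 + (1 / 4) ^ (N + 1)) * L := by
    intro M N
    have het : e ∉ fs (t M) := fun h => heT (htT M h)
    obtain ⟨u, hu, hum, huD, hue⟩ := exists_leaf hA hρ hβ.le (t M) (ht M) (hT _ (htT M)) s hs e hes het N
    have h1 : r ≤ R (fs u) := by
      refine (hsR (fs (t M)) (fs (t M) ∪ s) (htT M) (fun i => by rw [Finset.mem_union])).trans ?_
      exact hanti _ _ fun i hi => Finset.mem_union.2 (hum i hi)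
    have h2 := hno u hu
    have h3 : (1 + ee u) * L ≤ (1 + (1 / 4) ^ (N + 1)) * L :=
      mul_le_mul_of_nonneg_right (by linarith) hL
    have h4 : β * (1 / 2) ^ M * ρ e ≤ β * (1 / 2) ^ (t M).length * ρ e := by
      refine mul_le_mul_of_nonneg_right (mul_le_mul_of_nonneg_left ?_ hβ.le) hρe.le
      exact pow_le_pow_of_le_one (by norm_num) (by norm_num) (htl M)
    linarith
  have key2 : ∀ M : ℕ, r + DD ρ β (t M) + β * (1 / 2) ^ M * ρ e ≤ L := by
    intro M
    have h1 : Tendsto (fun N : ℕ => (1 + ((1 : ℝ) / 4) ^ (N + 1)) * L) atTop (𝓝 ((1 + 0) * L)) :=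
      ((tendsto_const_nhds.add ((tendsto_pow_atTop_nhds_zero_of_lt_one (by norm_num) (by norm_num)).comp
        (tendsto_add_atTop_nat 1))).mul_const L)
    rw [add_zero, one_mul] at h1
    exact ge_of_tendsto' h1 (key M)
  have key3 : ∀ M : ℕ, ρ e ≤ 5 / 2 * σ M := by
    intro M
    have h1 := key2 M
    have h2 := hM M
    have h3 : β * (1 / 2) ^ M * ρ e ≤ β * (1 / 2) ^ M * (5 / 2 * σ M) := by linarith
    exact le_of_mul_le_mul_left h3 (by positivity)
  have h1 : Tendsto (fun M => 5 / 2 * σ M) atTop (𝓝 (5 / 2 * 0)) := hσ.const_mul _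
  rw [mul_zero] at h1
  exact absurd (ge_of_tendsto' h1 key3) (not_le.2 hρe)

end

end Pool.Agent.helper26.CS
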