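import Pool.Agent.helper26.CS.TreeA

/-!
# CS-TreeG: the gain
-/

set_option autoImplicit false

open Set Topology Filter

namespace Pool.Agent.helper26.CS

theorem TreeG_ulim (U : Ultrafilter ℕ) (f : ℕ → ℝ) {a b : ℝ} (h : ∀ n, f n ∈ Icc a b) :
    ∃ c ∈ Icc a b, Tendsto f U (𝓝 c) := by
  obtain ⟨c, hc, h1⟩ := (isCompact_Icc (a := a) (b := b)).ultrafilter_le_nhds (U.map f) (by
    rw [le_principal_iff]
    exact Filter.mem_map.2 (Filter.univ_mem' h))
  exact ⟨c, hc, h1⟩

theorem TreeG_pick {α : Type*} (U : Ultrafilter ℕ) {s : Set α} (hs : s.Finite) {P : ℕ → α → Prop}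
    (h : ∀ᶠ n in (U : Filter ℕ), ∃ x ∈ s, P n x) : ∃ x ∈ s, ∀ᶠ n in (U : Filter ℕ), P n x := by
  have h1 : (⋃ x ∈ s, {n | P n x}) ∈ U := by
    filter_upwards [h] with n hn
    obtain ⟨x, hx, hx'⟩ := hn
    exact mem_iUnion₂.2 ⟨x, hx, hx'⟩
  rw [Ultrafilter.finite_biUnion_mem_iff hs] at h1
  exact h1

theorem TreeG_kk_nonneg (n : ℕ) : 0 ≤ kk n := by unfold kk; positivity

theorem TreeG_kk_pos (n : ℕ) : 0 < kk n := by unfold kk; positivity

theorem TreeG_kk_le (n : ℕ) : kk n ≤ 1 / 4 := by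
  unfold kk
  have : ((1 : ℝ) / 2) ^ n ≤ 1 := pow_le_one₀ (by norm_num) (by norm_num)
  linarith

theorem TreeG_kk_fin {δ : ℝ} (hδ : 0 < δ) : {n | δ ≤ kk n}.Finite := by
  obtain ⟨N, hN⟩ := exists_pow_lt_of_lt_one hδ (by norm_num : (1 / 2 : ℝ) < 1)
  refine (Set.finite_Iio N).subset fun n hn => ?_
  by_contra h
  have h1 : N ≤ n := by simpa using h
  have h2 : ((1 : ℝ) / 2) ^ n ≤ (1 / 2) ^ N := pow_le_pow_of_le_one (by norm_num) (by norm_num) h1
  have h3 : δ ≤ kk n := hn
  have h4 : (0 : ℝ) < (1 / 2) ^ n := by positivity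
  unfold kk at h3
  linarith

section
variable {I : Type 1}

/-- the value at the place `m` -/
noncomputable def TreeG_a (ρ : I → ℝ) (l : List (I × ℕ)) (m : ℕ) : ℝ :=
  match l[m]? with
  | some x => ρ x.1
  | none => 0

/-- the variable weight at the place `m` -/
noncomputable def TreeG_b (l : List (I × ℕ)) (m : ℕ) : ℝ :=
  match l[m]? with
  | some x => kk x.2
  | none => 0

theorem TreeG_DD (ρ : I → ℝ) (l : List (I × ℕ)) : ∀ (β : ℝ) (M : ℕ), l.length ≤ M →
    DD ρ β l = ∑ m ∈ Finset.range M, β * (1 / 2) ^ m * (1 + TreeG_b l m) * TreeG_a ρ l m := by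
  induction l with
  | nil =>
    intro β M _
    rw [Finset.sum_eq_zero]
    · rfl
    · intro m _
      simp [TreeG_a]
  | cons x l ih =>
    intro β M hM
    obtain ⟨M, rfl⟩ : ∃ M', M = M' + 1 := ⟨M - 1, by simp at hM; omega⟩
    rw [Finset.sum_range_succ', DD, ih (β / 2) M (by simpa using hM)]
    have h1 : ∀ m, TreeG_a ρ (x :: l) (m + 1) = TreeG_a ρ l m := fun m => by simp [TreeG_a]
    have h2 : ∀ m, TreeG_b (x :: l) (m + 1) = TreeG_b l m := fun m => by simp [TreeG_b]
    have h3 : TreeG_a ρ (x :: l) 0 = ρ x.1 := by simp [TreeG_a]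
    have h4 : TreeG_b (x :: l) 0 = kk x.2 := by simp [TreeG_b]
    rw [h3, h4, add_comm]
    congr 1
    · refine Finset.sum_congr rfl fun m _ => ?_
      rw [h1, h2, pow_succ]
      ring
    · ring

theorem TreeG_GG (ρ : I → ℝ) (l : List (I × ℕ)) : ∀ (β : ℝ) (j : ℕ),
    GG ρ β l j = β * (1 / 2) ^ j * TreeG_b l j * TreeG_a ρ l j := by
  induction l with
  | nil => intro β j; cases j <;> simp [GG, TreeG_a]
  | cons x l ih =>
    intro β j
    cases j with
    | zero => simp [GG, TreeG_a, TreeG_b]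
    | succ j =>
      have h1 : TreeG_a ρ (x :: l) (j + 1) = TreeG_a ρ l j := by simp [TreeG_a]
      have h2 : TreeG_b (x :: l) (j + 1) = TreeG_b l j := by simp [TreeG_b]
      rw [h1, h2, GG, ih, pow_succ]
      ring

/-- the variable weight at the place `m`, zero at `j` -/
noncomputable def TreeG_q (l : List (I × ℕ)) (j m : ℕ) : ℝ := if m = j then 0 else TreeG_b l m

theorem TreeG_sub (ρ : I → ℝ) (β : ℝ) (l : List (I × ℕ)) (j : ℕ) (hj : j < l.length) (M : ℕ)
    (hM : l.length ≤ M) : DD ρ β l - GG ρ β l j =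
      ∑ m ∈ Finset.range M, β * (1 / 2) ^ m * (1 + TreeG_q l j m) * TreeG_a ρ l m := by
  have h1 : GG ρ β l j = ∑ m ∈ Finset.range M,
      if m = j then β * (1 / 2) ^ m * TreeG_b l m * TreeG_a ρ l m else 0 := by
    rw [Finset.sum_ite_eq' (Finset.range M) j, if_pos (Finset.mem_range.2 (hj.trans_le hM)),
      TreeG_GG]
  rw [h1, TreeG_DD ρ l β M hM, ← Finset.sum_sub_distrib]
  refine Finset.sum_congr rfl fun m _ => ?_
  unfold TreeG_q
  split_ifs <;> ring

theorem TreeG_a_mem {ρ : I → ℝ} {p : ℝ} (hρ0 : ∀ i, 0 ≤ ρ i) (hρp : ∀ i, ρ i ≤ p) (hp : 0 ≤ p)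
    (l : List (I × ℕ)) (m : ℕ) : TreeG_a ρ l m ∈ Icc 0 p := by
  unfold TreeG_a
  split
  · exact ⟨hρ0 _, hρp _⟩
  · exact ⟨le_rfl, hp⟩

theorem TreeG_q_mem (l : List (I × ℕ)) (j m : ℕ) : TreeG_q l j m ∈ Icc 0 (1 / 4 : ℝ) := by
  unfold TreeG_q
  split_ifs
  · exact ⟨le_rfl, by norm_num⟩
  · unfold TreeG_b
    split
    · exact ⟨TreeG_kk_nonneg _, TreeG_kk_le _⟩
    · exact ⟨le_rfl, by norm_num⟩

/-- the lists of the stable elements -/
noncomputable def TreeG_t (c : ℕ → ℝ) (x : ℕ → I) (nn : ℕ → ℕ) (M : ℕ) : List (I × ℕ) :=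
  by classical exact ((List.range M).filter fun m => decide (0 < c m)).map fun m => (x m, nn m)

theorem TreeG_t_succ_pos {c : ℕ → ℝ} (x : ℕ → I) (nn : ℕ → ℕ) {M : ℕ} (h : 0 < c M) :
    TreeG_t c x nn (M + 1) = TreeG_t c x nn M ++ [(x M, nn M)] := by
  unfold TreeG_t
  rw [List.range_succ, List.filter_append, List.map_append]
  simp [h]

theorem TreeG_t_succ_neg {c : ℕ → ℝ} (x : ℕ → I) (nn : ℕ → ℕ) {M : ℕ} (h : ¬ 0 < c M) :
    TreeG_t c x nn (M + 1) = TreeG_t c x nn M := by
  unfold TreeG_t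
  rw [List.range_succ, List.filter_append, List.map_append]
  simp [h]

theorem TreeG_t_length (c : ℕ → ℝ) (x : ℕ → I) (nn : ℕ → ℕ) (M : ℕ) :
    (TreeG_t c x nn M).length ≤ M := by
  unfold TreeG_t
  rw [List.length_map]
  exact (List.length_filter_le _ _).trans (by simp)

theorem TreeG_t_length_lt {c : ℕ → ℝ} (x : ℕ → I) (nn : ℕ → ℕ) {M m : ℕ} (hm : m < M)
    (h : ¬ 0 < c m) : (TreeG_t c x nn M).length + 1 ≤ M := by
  induction M with
  | zero => omega
  | succ M ih =>
    rcases Nat.lt_succ_iff_lt_or_eq.1 hm with h1 | h1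
    · have h2 := ih h1
      by_cases h3 : 0 < c M
      · rw [TreeG_t_succ_pos x nn h3, List.length_append]
        simp only [List.length_cons, List.length_nil]
        omega
      · rw [TreeG_t_succ_neg x nn h3]
        omega
    · subst h1
      rw [TreeG_t_succ_neg x nn h]
      have := TreeG_t_length c x nn m
      omega

theorem TreeG_mem_t {c : ℕ → ℝ} {x : ℕ → I} {nn : ℕ → ℕ} {M : ℕ} {y : I × ℕ} :
    y ∈ TreeG_t c x nn M ↔ ∃ m < M, 0 < c m ∧ (x m, nn m) = y := by
  unfold TreeG_t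
  simp only [List.mem_map, List.mem_filter, List.mem_range, decide_eq_true_eq]
  constructor
  · rintro ⟨m, ⟨h1, h2⟩, h3⟩
    exact ⟨m, h1, h2, h3⟩
  · rintro ⟨m, h1, h2, h3⟩
    exact ⟨m, ⟨h1, h2⟩, h3⟩

theorem TreeG_mem_fs_t {c : ℕ → ℝ} {x : ℕ → I} {nn : ℕ → ℕ} {M : ℕ} {i : I} :
    i ∈ fs (TreeG_t c x nn M) ↔ ∃ m < M, 0 < c m ∧ x m = i := by
  rw [mem_fs]
  constructor
  · rintro ⟨n, hn⟩
    obtain ⟨m, h1, h2, h3⟩ := TreeG_mem_t.1 hn
    exact ⟨m, h1, h2, (Prod.mk.inj h3).1⟩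
  · rintro ⟨m, h1, h2, h3⟩
    exact ⟨nn m, TreeG_mem_t.2 ⟨m, h1, h2, by rw [h3]⟩⟩

theorem TreeG_t_nodup {c : ℕ → ℝ} {x : ℕ → I} (nn : ℕ → ℕ)
    (hx : ∀ m m', 0 < c m → 0 < c m' → x m = x m' → m = m') (M : ℕ) :
    ((TreeG_t c x nn M).map Prod.fst).Nodup := by
  unfold TreeG_t
  rw [List.map_map]
  refine List.Nodup.map_on ?_ (List.Nodup.filter _ List.nodup_range)
  intro m hm m' hm' h
  simp only [List.mem_filter, decide_eq_true_eq] at hm hm'
  exact hx m m' hm.2 hm'.2 h

theorem TreeG_DD_t {ρ : I → ℝ} {c : ℕ → ℝ} {x : ℕ → I} (nn : ℕ → ℕ) {β : ℝ} (hβ : 0 ≤ β)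
    (hc : ∀ m, 0 ≤ c m) (hx : ∀ m, 0 < c m → ρ (x m) = c m) (M : ℕ) :
    ∑ m ∈ Finset.range M, β * (1 / 2) ^ m * (1 + kk (nn m)) * c m ≤
      DD ρ β (TreeG_t c x nn M) := by
  induction M with
  | zero => simp [TreeG_t, DD]
  | succ M ih =>
    rw [Finset.sum_range_succ]
    by_cases h : 0 < c M
    · rw [TreeG_t_succ_pos x nn h, DD_append]
      refine add_le_add ih ?_
      have h1 : DD ρ (β * (1 / 2) ^ (TreeG_t c x nn M).length) [(x M, nn M)] =
          β * (1 / 2) ^ (TreeG_t c x nn M).length * (1 + kk (nn M)) * c M := by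
        simp only [DD, hx M h, add_zero]
      rw [h1]
      have h2 : ((1 : ℝ) / 2) ^ M ≤ (1 / 2) ^ (TreeG_t c x nn M).length :=
        pow_le_pow_of_le_one (by norm_num) (by norm_num) (TreeG_t_length c x nn M)
      have h3 := TreeG_kk_nonneg (nn M)
      gcongr
    · rw [TreeG_t_succ_neg x nn h, le_antisymm (not_lt.1 h) (hc M), mul_zero, add_zero]
      exact ih

end


theorem gain {I : Type 1} {ρ : I → ℝ} {R : Finset I → ℝ} {A : Finset I → Prop}
    {β κ ν0 p L : ℝ} (hρ0 : ∀ i, 0 ≤ ρ i) (hρp : ∀ i, ρ i ≤ p)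
    (hfin : ∀ ε : ℝ, 0 < ε → {i | ε ≤ ρ i}.Finite)
    (hanti : ∀ s t, s ⊆ t → R t ≤ R s) (hRe : R ∅ = p)
    (hA : ∀ s t, s ⊆ t → A s → A t) (hA0 : ¬ A ∅) (hν0 : 0 ≤ ν0) (hβ : 0 < β)
    (hβκ : 10 * β ≤ κ) (hκ : κ ≤ 1)
    (H : ∀ (r : ℝ) (T : Set I), ν0 < r → (∀ t : Finset I, (t : Set I) ⊆ T → r ≤ R t) →
      ∃ s : Finset I, A s ∧ (∀ i ∈ s, ρ i ≠ 0) ∧
        ∀ t u : Finset I, (t : Set I) ⊆ T → (∀ i, i ∈ u ↔ i ∈ t ∨ i ∈ s) → r ≤ R u)
    (hL0 : 0 < L) (hLp : p ≤ L) (hLν : (1 + κ) * ν0 < L)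
    (hL : ∀ l, IsLeaf A l → ∀ j < l.length, R (fs l) + DD ρ β l - GG ρ β l j ≤ L)
    (hL' : ∀ c < L, c < p ∨ ∃ l, IsLeaf A l ∧ ∃ j < l.length,
      c < R (fs l) + DD ρ β l - GG ρ β l j) :
    ∃ l, IsLeaf A l ∧ (1 + ee l) * L < R (fs l) + DD ρ β l := by
  classical
  by_contra hcon
  have hno : ∀ l, IsLeaf A l → R (fs l) + DD ρ β l ≤ (1 + ee l) * L := by
    intro l hl
    by_contra h
    exact hcon ⟨l, hl, not_le.1 h⟩
  have hκ0 : 0 < κ := by linarith
  rcases hLp.eq_or_lt with hpL | hpL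
  · -- the supremum is `p`
    refine finA hA hρ0 hβ hanti hL0.le hno ∅ ?_ (H p ∅ ?_ ?_) (fun _ => []) (fun _ => by simp)
      (fun _ => ?_) (fun _ => by simp) (fun _ => 0) tendsto_const_nhds (fun M => ?_)
    · intro t ht
      rw [Set.subset_empty_iff, Finset.coe_eq_empty] at ht
      rw [ht]
      exact hA0
    · rw [hpL]
      nlinarith
    · intro t ht
      rw [Set.subset_empty_iff, Finset.coe_eq_empty] at ht
      rw [ht, hRe]
    · intro i hi
      obtain ⟨n, hn⟩ := mem_fs.1 hi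
      exact absurd hn List.not_mem_nil
    · simp [DD, hpL]
  -- a maximizing sequence
  have hseq : ∀ n : ℕ, ∃ l : List (I × ℕ), ∃ j : ℕ, IsLeaf A l ∧ j < l.length ∧
      L - 1 / ((n : ℝ) + 1) < R (fs l) + DD ρ β l - GG ρ β l j := by
    intro n
    have h1 : (0 : ℝ) < 1 / ((n : ℝ) + 1) := by positivity
    rcases hL' (max p (L - 1 / ((n : ℝ) + 1))) (max_lt hpL (by linarith)) with h | h
    · exact absurd ((le_max_left _ _).trans_lt h) (lt_irrefl _)
    · obtain ⟨l, hl, j, hj, h2⟩ := h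
      exact ⟨l, j, hl, hj, (le_max_right _ _).trans_lt h2⟩
  choose l j hl hj hlj using hseq
  have hp : 0 ≤ p := by
    have h1 := hj 0
    exact (hρ0 ((l 0)[j 0]).1).trans (hρp _)
  set U : Ultrafilter ℕ := Filter.hyperfilter ℕ with hU
  have hUat : (U : Filter ℕ) ≤ atTop := Nat.hyperfilter_le_atTop
  have hVlim : Tendsto (fun n => R (fs (l n)) + DD ρ β (l n) - GG ρ β (l n) (j n)) U (𝓝 L) := by
    refine Tendsto.mono_left ?_ hUat
    refine tendsto_of_tendsto_of_tendsto_of_le_of_le (g := fun n : ℕ => L - 1 / ((n : ℝ) + 1))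
      (h := fun _ => L) ?_ tendsto_const_nhds (fun n => (hlj n).le)
      (fun n => hL (l n) (hl n) (j n) (hj n))
    have := (tendsto_const_nhds (x := L) (f := (atTop : Filter ℕ))).sub
      (tendsto_one_div_add_atTop_nhds_zero_nat (𝕜 := ℝ))
    simpa using this
  -- limits
  have hc' : ∀ m, ∃ c ∈ Icc 0 p, Tendsto (fun n => TreeG_a ρ (l n) m) U (𝓝 c) := fun m =>
    TreeG_ulim U _ fun n => TreeG_a_mem hρ0 hρp hp (l n) m
  choose c hc hclim using hc'
  have hq' : ∀ m, ∃ c ∈ Icc 0 (1 / 4 : ℝ), Tendsto (fun n => TreeG_q (l n) (j n) m) U (𝓝 c) :=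
    fun m => TreeG_ulim U _ fun n => TreeG_q_mem (l n) (j n) m
  choose q hq hqlim using hq'
  have hgeo : Summable fun m : ℕ => β * (1 / 2) ^ m * (5 / 4) * p := by
    have h1 := (summable_geometric_of_lt_one (r := (1 / 2 : ℝ)) (by norm_num) (by norm_num))
    have h2 := h1.mul_left (β * (5 / 4) * p)
    refine h2.congr fun m => by ring
  set g : ℕ → ℝ := fun m => β * (1 / 2) ^ m * (1 + q m) * c m with hg
  have hg0 : ∀ m, 0 ≤ g m := fun m => by
    have h1 := (hq m).1
    have h2 := (hc m).1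
    positivity
  have hgle : ∀ m, g m ≤ β * (1 / 2) ^ m * (5 / 4) * p := fun m => by
    have h1 := (hq m).1
    have h1' := (hq m).2
    have h2 := (hc m).1
    have h3 := (hc m).2
    have h4 : 1 + q m ≤ 5 / 4 := by linarith
    simp only [hg]
    gcongr
  have hgs : Summable g := Summable.of_nonneg_of_le hg0 hgle hgeo
  have hSlim : Tendsto (fun n => DD ρ β (l n) - GG ρ β (l n) (j n)) U (𝓝 (∑' m, g m)) := by
    have h1 : Tendsto (fun n => ∑' m, β * (1 / 2) ^ m * (1 + TreeG_q (l n) (j n) m) *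
        TreeG_a ρ (l n) m) U (𝓝 (∑' m, g m)) := by
      refine tendsto_tsum_of_dominated_convergence hgeo ?_ ?_
      · intro m
        exact (((hqlim m).const_add 1).const_mul _).mul (hclim m)
      · refine Filter.Eventually.of_forall fun n m => ?_
        have h2 := TreeG_q_mem (l n) (j n) m
        have h3 := TreeG_a_mem hρ0 hρp hp (l n) m
        have h4 : 0 ≤ β * (1 / 2) ^ m * (1 + TreeG_q (l n) (j n) m) * TreeG_a ρ (l n) m := by
          have := h2.1
          have := h3.1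
          positivity
        rw [Real.norm_of_nonneg h4]
        have h5 := h2.1
        have h6 := h3.1
        have h7 := h3.2
        have h8 : 1 + TreeG_q (l n) (j n) m ≤ 5 / 4 := by linarith [h2.2]
        gcongr
    refine h1.congr fun n => ?_
    rw [TreeG_sub ρ β (l n) (j n) (hj n) (l n).length le_rfl]
    refine tsum_eq_sum fun m hm => ?_
    have h2 : (l n).length ≤ m := by simpa using hm
    have h3 : TreeG_a ρ (l n) m = 0 := by
      unfold TreeG_a
      rw [List.getElem?_eq_none h2]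
    rw [h3, mul_zero]
  set G := ∑' m, g m with hG
  set r := L - G with hr
  have hRlim : Tendsto (fun n => R (fs (l n))) U (𝓝 r) := by
    have h1 := hVlim.sub hSlim
    refine h1.congr fun n => by ring
  have hGle : G ≤ 5 / 2 * β * p := by
    refine le_of_tendsto hSlim (Filter.Eventually.of_forall fun n => ?_)
    have h1 := DD_le hρ0 hρp hp hβ.le (l n)
    have h2 := GG_nonneg hρ0 hβ.le (l n) (j n)
    linarith
  have hrν : ν0 < r := by
    by_contra h
    have h1 : r ≤ ν0 := not_lt.1 h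
    have h2 : 5 / 2 * β * p ≤ κ / 4 * L := by
      calc 5 / 2 * β * p ≤ 5 / 2 * β * L := by gcongr
        _ = (10 * β) / 4 * L := by ring
        _ ≤ κ / 4 * L := by gcongr
    have h3 : (1 - κ / 4) * L ≤ ν0 := by rw [hr] at h1; linarith
    have h4 : (1 + κ) * ((1 - κ / 4) * L) ≤ (1 + κ) * ν0 := by gcongr
    have h5 : (1 + κ) * ((1 - κ / 4) * L) = L + κ * (3 - κ) / 4 * L := by ring
    have h6 : 0 ≤ κ * (3 - κ) / 4 * L := by
      have : 0 ≤ 3 - κ := by linarith
      positivity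
    linarith
  -- the stable elements
  obtain ⟨i0⟩ : Nonempty I := ⟨((l 0)[j 0]'(hj 0)).1⟩
  have hst : ∀ m, ∃ i, 0 < c m → ∀ᶠ n in (U : Filter ℕ), ∃ x, (l n)[m]? = some x ∧ x.1 = i := by
    intro m
    by_cases hm : 0 < c m
    swap
    · exact ⟨i0, fun h => absurd h hm⟩
    have h1 : ∀ᶠ n in (U : Filter ℕ), ∃ i ∈ {i | c m / 2 ≤ ρ i}, ∃ x, (l n)[m]? = some x ∧ x.1 = i := by
      filter_upwards [(hclim m).eventually_const_lt (show c m / 2 < c m by linarith)] with n hn
      unfold TreeG_a at hn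
      split at hn
      · rename_i x hx
        exact ⟨x.1, hn.le, x, hx, rfl⟩
      · linarith
    obtain ⟨i, -, hi⟩ := TreeG_pick U (hfin _ (half_pos hm)) h1
    exact ⟨i, fun _ => hi⟩
  choose x hx using hst
  have hxc : ∀ m, 0 < c m → ρ (x m) = c m := by
    intro m hm
    refine tendsto_nhds_unique (f := fun n => TreeG_a ρ (l n) m) ?_ (hclim m)
    refine tendsto_const_nhds.congr' ?_
    filter_upwards [hx m hm] with n hn
    obtain ⟨y, hy, hy'⟩ := hn
    unfold TreeG_a
    rw [hy]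
    exact (congrArg ρ hy').symm
  have hxinj : ∀ m m', 0 < c m → 0 < c m' → x m = x m' → m = m' := by
    intro m m' hm hm' h
    obtain ⟨n, ⟨y, hy, hy'⟩, ⟨z, hz, hz'⟩⟩ := ((hx m hm).and (hx m' hm')).exists
    have hnd := (hl n).1
    have h1 : m < (l n).length := by
      by_contra hcon
      rw [List.getElem?_eq_none (not_lt.1 hcon)] at hy
      exact absurd hy (by simp)
    have h2 : m' < (l n).length := by
      by_contra hcon
      rw [List.getElem?_eq_none (not_lt.1 hcon)] at hz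
      exact absurd hz (by simp)
    rw [List.getElem?_eq_getElem h1] at hy
    rw [List.getElem?_eq_getElem h2] at hz
    have h3 : ((l n).map Prod.fst)[m]'(by simpa using h1) =
        ((l n).map Prod.fst)[m']'(by simpa using h2) := by
      rw [List.getElem_map, List.getElem_map, Option.some.inj hy, Option.some.inj hz, hy', hz', h]
    exact (List.Nodup.getElem_inj_iff hnd).1 h3
  have hnum : ∀ m, ∃ ν : ℕ, 0 < c m → 0 < q m → q m = kk ν := by
    intro m
    by_cases hm : 0 < q m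
    swap
    · exact ⟨0, fun _ h => absurd h hm⟩
    have h1 : ∀ᶠ n in (U : Filter ℕ), ∃ ν ∈ {ν | q m / 2 ≤ kk ν}, TreeG_q (l n) (j n) m = kk ν := by
      filter_upwards [(hqlim m).eventually_const_lt (show q m / 2 < q m by linarith)] with n hn
      have h2 : TreeG_q (l n) (j n) m = TreeG_b (l n) m := by
        unfold TreeG_q at hn ⊢
        split_ifs at hn ⊢
        · linarith
        · rfl
      rw [h2] at hn ⊢
      unfold TreeG_b at hn ⊢
      split at hn
      · rename_i y hy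
        exact ⟨y.2, hn.le, rfl⟩
      · linarith
    obtain ⟨ν, -, hν⟩ := TreeG_pick U (TreeG_kk_fin (half_pos hm)) h1
    refine ⟨ν, fun _ _ => ?_⟩
    refine tendsto_nhds_unique (hqlim m) ?_
    exact tendsto_const_nhds.congr' (hν.mono fun n hn => hn.symm)
  choose num hnum' using hnum
  let nn : ℕ → ℕ → ℕ := fun N m => if 0 < q m then num m else N
  have hnn : ∀ N m, 0 < c m → q m ≤ kk (nn N m) := by
    intro N m hm
    by_cases h : 0 < q m
    · simp only [nn, if_pos h]
      exact (hnum' m hm h).le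
    · have : q m ≤ 0 := not_lt.1 h
      exact this.trans (TreeG_kk_nonneg _)
  let t : ℕ → ℕ → List (I × ℕ) := fun N M => TreeG_t c x (nn N) M
  have hc0 : ∀ m, 0 ≤ c m := fun m => (hc m).1
  -- lower bounds for the bonus
  have hDDg : ∀ N M, ∑ m ∈ Finset.range M, g m ≤ DD ρ β (t N M) := by
    intro N M
    refine le_trans (Finset.sum_le_sum fun m _ => ?_) (TreeG_DD_t (nn N) hβ.le hc0 hxc M)
    simp only [hg]
    by_cases h : 0 < c m
    · have h1 := hnn N m h
      have h2 := hc0 m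
      gcongr
    · rw [le_antisymm (not_lt.1 h) (hc0 m)]
      simp
  -- the set of the stable elements
  let T : Set I := {i | ∃ m, 0 < c m ∧ x m = i}
  have hTR : ∀ s : Finset I, (s : Set I) ⊆ T → r ≤ R s := by
    intro s hs
    refine le_of_tendsto hRlim ?_
    have h1 : ∀ᶠ n in (U : Filter ℕ), ∀ i ∈ s, i ∈ fs (l n) := by
      rw [Filter.eventually_all_finset]
      intro i hi
      obtain ⟨m, hm, hmi⟩ := hs hi
      filter_upwards [hx m hm] with n hn
      obtain ⟨y, hy, hy'⟩ := hn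
      rw [mem_fs]
      refine ⟨y.2, ?_⟩
      have h2 := List.mem_of_getElem? hy
      rwa [← hmi, ← hy']
    filter_upwards [h1] with n hn
    exact hanti _ _ hn
  have htT : ∀ N M, ((fs (t N M) : Finset I) : Set I) ⊆ T := by
    intro N M i hi
    obtain ⟨m, -, h1, h2⟩ := TreeG_mem_fs_t.1 hi
    exact ⟨m, h1, h2⟩
  have htn : ∀ N M, ((t N M).map Prod.fst).Nodup := fun N M => TreeG_t_nodup (nn N) hxinj M
  have hexN : ∀ b : ℝ, 0 < b → ∃ N : ℕ, (1 / 2 : ℝ) ^ N * L < b := by
    intro b hb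
    obtain ⟨N, hN⟩ := exists_pow_lt_of_lt_one (div_pos hb hL0) (by norm_num : (1 / 2 : ℝ) < 1)
    exact ⟨N, (lt_div_iff₀ hL0).1 hN⟩
  by_cases hTA : ∀ s : Finset I, (s : Set I) ⊆ T → ¬ A s
  · -- no admissible set of stable elements
    have hczero : Tendsto c atTop (𝓝 0) := by
      rw [← Nat.cofinite_eq_atTop, Metric.tendsto_nhds]
      intro ε hε
      rw [Filter.eventually_cofinite]
      have h1 : ∀ m, ¬ dist (c m) 0 < ε → ε ≤ c m := by
        intro m hm
        rw [Real.dist_eq, sub_zero, abs_of_nonneg (hc0 m)] at hm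
        exact not_lt.1 hm
      refine Set.Finite.of_finite_image (f := x) ((hfin ε hε).subset ?_) ?_
      · rintro _ ⟨m, hm, rfl⟩
        have h2 := h1 m hm
        change ε ≤ ρ (x m)
        rw [hxc m (hε.trans_le h2)]
        exact h2
      · intro m hm m' hm' h
        exact hxinj m m' (hε.trans_le (h1 m hm)) (hε.trans_le (h1 m' hm')) h
    let σ : ℕ → ℝ := fun M => 2 / 5 * ∑' m : ℕ, (1 / 2 : ℝ) ^ m * (1 + q (m + M)) * c (m + M)
    have hσ : Tendsto σ atTop (𝓝 0) := by
      have hb : Summable fun m : ℕ => (1 / 2 : ℝ) ^ m * (5 / 4) * p := by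
        have h2 := (summable_geometric_of_lt_one (r := (1 / 2 : ℝ)) (by norm_num)
          (by norm_num)).mul_left (5 / 4 * p)
        refine h2.congr fun m => by ring
      have h0 : Tendsto (fun M => ∑' m : ℕ, (1 / 2 : ℝ) ^ m * (1 + q (m + M)) * c (m + M)) atTop
          (𝓝 (∑' _ : ℕ, (0 : ℝ))) := by
        refine tendsto_tsum_of_dominated_convergence hb ?_ ?_
        · intro m
          have h1 : Tendsto (fun M => (1 / 2 : ℝ) ^ m * (5 / 4) * c (m + M)) atTop (𝓝 0) := by
            have h2 := ((tendsto_add_atTop_iff_nat m).2 hczero).const_mul ((1 / 2 : ℝ) ^ m * (5 / 4))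
            rw [mul_zero] at h2
            exact h2.congr fun M => by rw [add_comm]
          refine squeeze_zero (fun M => ?_) (fun M => ?_) h1
          · have h2 := (hq (m + M)).1
            have h3 := hc0 (m + M)
            positivity
          · have h2 := (hq (m + M)).2
            have h2' := (hq (m + M)).1
            have h3 := hc0 (m + M)
            have h4 : 1 + q (m + M) ≤ 5 / 4 := by linarith
            gcongr
        · refine Filter.Eventually.of_forall fun M m => ?_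
          have h2 := (hq (m + M)).2
          have h2' := (hq (m + M)).1
          have h3 := hc0 (m + M)
          have h3' := (hc (m + M)).2
          have h4 : 1 + q (m + M) ≤ 5 / 4 := by linarith
          rw [Real.norm_of_nonneg (by positivity)]
          gcongr
      rw [tsum_zero] at h0
      have h5 := h0.const_mul (2 / 5 : ℝ)
      rwa [mul_zero] at h5
    refine finA hA hρ0 hβ hanti hL0.le hno T hTA (H r T hrν hTR) (t 0) (htn 0) (htT 0)
      (fun M => TreeG_t_length c x (nn 0) M) σ hσ (fun M => ?_)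
    have h1 := hgs.sum_add_tsum_nat_add M
    have h2 : ∑' m, g (m + M) = 5 / 2 * β * (1 / 2) ^ M * σ M := by
      simp only [σ, hg]
      rw [← mul_assoc, ← tsum_mul_left]
      refine tsum_congr fun m => ?_
      rw [pow_add]
      ring
    have h3 := hDDg 0 M
    rw [← hG] at h1
    rw [← h2, hr]
    linarith
  push Not at hTA
  obtain ⟨s0, hs0T, hs0A⟩ := hTA
  have hfs : ∀ N N' M, fs (t N M) = fs (t N' M) := by
    intro N N' M
    ext i
    rw [TreeG_mem_fs_t, TreeG_mem_fs_t]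
  have hex : ∃ M, A (fs (t 0 M)) := by
    have h1 : ∀ i ∈ s0, ∃ m, 0 < c m ∧ x m = i := fun i hi => hs0T hi
    choose! f hf using h1
    refine ⟨s0.sup f + 1, hA s0 _ (fun i hi => TreeG_mem_fs_t.2
      ⟨f i, Nat.lt_succ_of_le (Finset.le_sup hi), (hf i hi).1, (hf i hi).2⟩) hs0A⟩
  obtain ⟨m, hm1, hm2⟩ : ∃ m, A (fs (t 0 (m + 1))) ∧ ¬ A (fs (t 0 m)) := by
    have h1 := Nat.find_spec hex
    have h2 : Nat.find hex ≠ 0 := by
      intro h
      rw [h] at h1
      apply hA0
      refine hA _ _ ?_ h1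
      intro i hi
      obtain ⟨m, hm, -⟩ := TreeG_mem_fs_t.1 hi
      exact absurd hm (Nat.not_lt_zero _)
    obtain ⟨m, hm⟩ := Nat.exists_eq_succ_of_ne_zero h2
    refine ⟨m, ?_, Nat.find_min hex (by omega)⟩
    rw [hm] at h1
    exact h1
  have hcm : 0 < c m := by
    by_contra h
    apply hm2
    have h1 : t 0 (m + 1) = t 0 m := TreeG_t_succ_neg x (nn 0) h
    rwa [h1] at hm1
  have hE : ∀ᶠ n in (U : Filter ℕ), ∀ m' ∈ Finset.range (m + 1), 0 < c m' →
      ∃ y, (l n)[m']? = some y ∧ y.1 = x m' := by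
    rw [Filter.eventually_all_finset]
    intro m' _
    by_cases h : 0 < c m'
    · exact (hx m' h).mono fun n hn _ => hn
    · exact Filter.Eventually.of_forall fun n h' => absurd h' h
  have hlen : ∀ᶠ n in (U : Filter ℕ), (l n).length = m + 1 := by
    filter_upwards [hE] with n hn
    have h1 : m < (l n).length := by
      obtain ⟨y, hy, -⟩ := hn m (Finset.mem_range.2 (Nat.lt_succ_self m)) hcm
      by_contra hcon
      rw [List.getElem?_eq_none (not_lt.1 hcon)] at hy
      exact absurd hy (by simp)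
    by_contra h
    have h2 : m + 1 < (l n).length := by omega
    apply (hl n).2.2
    refine hA _ _ ?_ hm1
    intro i hi
    obtain ⟨m', hm', hc', rfl⟩ := TreeG_mem_fs_t.1 hi
    obtain ⟨y, hy, hy'⟩ := hn m' (Finset.mem_range.2 hm') hc'
    rw [mem_fs]
    refine ⟨y.2, ?_⟩
    have h3 : (l n).dropLast[m']? = some y := by
      rw [List.getElem?_dropLast, if_pos (by omega), hy]
    have h4 := List.mem_of_getElem? h3
    rwa [← hy']
  have hcz : ∀ m', m < m' → c m' = 0 := by
    intro m' hm'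
    refine tendsto_nhds_unique (hclim m') (tendsto_const_nhds.congr' ?_)
    filter_upwards [hlen] with n hn
    unfold TreeG_a
    rw [List.getElem?_eq_none (by omega)]
  have hGs : G = ∑ m' ∈ Finset.range (m + 1), g m' := by
    rw [hG]
    refine tsum_eq_sum fun m' hm' => ?_
    have h1 : m < m' := by simpa using hm'
    simp only [hg]
    rw [hcz m' h1, mul_zero]
  have hLr : L = r + G := by rw [hr]; ring
  have hgm : g m ≤ β * (1 / 2) ^ m * (5 / 4) * c m := by
    have h1 := (hq m).2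
    have h2 : 1 + q m ≤ 5 / 4 := by linarith
    simp only [hg]
    gcongr
  have hmap : ∀ N N', (t N m ++ [(x m, N')]).map Prod.fst = (t N (m + 1)).map Prod.fst := by
    intro N N'
    have h1 : t N (m + 1) = t N m ++ [(x m, nn N m)] := TreeG_t_succ_pos x (nn N) hcm
    rw [h1]
    simp
  have hfsu : ∀ N N', fs (t N m ++ [(x m, N')]) = fs (t N (m + 1)) := by
    intro N N'
    unfold fs
    rw [hmap]
  have hleaf : ∀ N N', IsLeaf A (t N m ++ [(x m, N')]) := by
    intro N N'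
    refine ⟨?_, ?_, ?_⟩
    · rw [hmap]
      exact htn N (m + 1)
    · rw [hfsu, hfs N 0]
      exact hm1
    · rw [List.dropLast_concat, hfs N 0]
      exact hm2
  have hee : ∀ (u : List (I × ℕ)) (N : ℕ), (∃ y, (y, N) ∈ u) → ee u ≤ (1 / 4) ^ (N + 1) := by
    intro u N hN
    obtain ⟨y, hy⟩ := hN
    unfold ee
    refine pow_le_pow_of_le_one (by norm_num) (by norm_num) (Nat.add_le_add_right ?_ 1)
    exact List.le_sum_of_mem (List.mem_map.2 ⟨(y, N), hy, rfl⟩)
  by_cases hall : ∃ m0 < m, ¬ 0 < c m0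
  · obtain ⟨m0, hm0, hm0'⟩ := hall
    obtain ⟨N, hN⟩ := hexN (3 / 4 * (β * (1 / 2) ^ m * c m)) (by positivity)
    have h1 := hno _ (hleaf N N)
    rw [hfsu, DD_append] at h1
    have h2 := hDDg N m
    have h3 := hTR _ (htT N (m + 1))
    have h4 := hee (t N m ++ [(x m, N)]) N ⟨x m, by simp⟩
    have h5 : DD ρ (β * (1 / 2) ^ (t N m).length) [(x m, N)] =
        β * (1 / 2) ^ (t N m).length * (1 + kk N) * c m := by
      simp only [DD, hxc m hcm, add_zero]
    have h6 : 2 * (1 / 2 : ℝ) ^ m ≤ (1 / 2) ^ (t N m).length := by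
      have h7 := TreeG_t_length_lt x (nn N) hm0 hm0'
      have h8 : ((1 : ℝ) / 2) ^ m ≤ (1 / 2) ^ ((t N m).length + 1) :=
        pow_le_pow_of_le_one (by norm_num) (by norm_num) h7
      rw [pow_succ] at h8
      linarith
    have h7 : 2 * (β * (1 / 2) ^ m * c m) ≤ β * (1 / 2) ^ (t N m).length * (1 + kk N) * c m := by
      have h8 := TreeG_kk_nonneg N
      calc 2 * (β * (1 / 2) ^ m * c m) = β * (2 * (1 / 2) ^ m) * 1 * c m := by ring
        _ ≤ β * (1 / 2) ^ (t N m).length * (1 + kk N) * c m := by gcongr; linarith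
    rw [Finset.sum_range_succ] at hGs
    have h8 : ee (t N m ++ [(x m, N)]) * L ≤ (1 / 2) ^ N * L := by
      refine mul_le_mul_of_nonneg_right (h4.trans ?_) hL0.le
      calc ((1 : ℝ) / 4) ^ (N + 1) ≤ (1 / 4) ^ N :=
            pow_le_pow_of_le_one (by norm_num) (by norm_num) (Nat.le_succ N)
        _ ≤ (1 / 2) ^ N := by gcongr; norm_num
    rw [h5] at h1
    linarith
  · push Not at hall
    have hall' : ∀ m' < m + 1, 0 < c m' := by
      intro m' hm'
      rcases Nat.lt_succ_iff_lt_or_eq.1 hm' with h | h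
      · exact hall m' h
      · rw [h]; exact hcm
    obtain ⟨js, hjs, hjs'⟩ : ∃ js ∈ Iio (m + 1), ∀ᶠ n in (U : Filter ℕ), j n = js := by
      refine TreeG_pick U (Set.finite_Iio (m + 1)) ?_
      filter_upwards [hlen] with n hn
      exact ⟨j n, by have := hj n; rw [hn] at this; exact this, rfl⟩
    have hqj : q js = 0 := by
      refine tendsto_nhds_unique (hqlim js) (tendsto_const_nhds.congr' ?_)
      filter_upwards [hjs'] with n hn
      unfold TreeG_q
      rw [if_pos hn.symm]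
    have hcj : 0 < c js := hall' js hjs
    obtain ⟨N, hN⟩ := hexN (β * (1 / 2) ^ js * c js) (by positivity)
    have hlf : IsLeaf A (t N (m + 1)) := by
      have h1 : t N (m + 1) = t N m ++ [(x m, nn N m)] := TreeG_t_succ_pos x (nn N) hcm
      rw [h1]
      exact hleaf N _
    have h1 := hno _ hlf
    have h3 := hTR _ (htT N (m + 1))
    have hnj : nn N js = N := by
      simp only [nn, hqj, lt_irrefl, if_false]
    have h4 := hee (t N (m + 1)) N ⟨x js, TreeG_mem_t.2 ⟨js, hjs, hcj, by rw [hnj]⟩⟩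
    have h2 := TreeG_DD_t (nn N) hβ.le hc0 hxc (m + 1)
    have h5 : β * (1 / 2) ^ js * kk N * c js ≤
        ∑ m' ∈ Finset.range (m + 1), (β * (1 / 2) ^ m' * (1 + kk (nn N m')) * c m' - g m') := by
      have h6 := Finset.single_le_sum (s := Finset.range (m + 1))
        (f := fun m' => β * (1 / 2) ^ m' * (1 + kk (nn N m')) * c m' - g m') (fun m' hm' => by
          have h7 := hnn N m' (hall' m' (Finset.mem_range.1 hm'))
          have h8 := hc0 m'
          simp only [hg]
          rw [sub_nonneg]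
          gcongr) (Finset.mem_range.2 hjs)
      refine le_trans (le_of_eq ?_) h6
      simp only [hg, hnj, hqj]
      ring
    rw [Finset.sum_sub_distrib, ← hGs] at h5
    have h6 : ee (t N (m + 1)) * L ≤ 1 / 4 * (1 / 2) ^ N * ((1 / 2) ^ N * L) := by
      calc ee (t N (m + 1)) * L ≤ (1 / 4) ^ (N + 1) * L := mul_le_mul_of_nonneg_right h4 hL0.le
        _ = 1 / 4 * (1 / 2) ^ N * ((1 / 2) ^ N * L) := by
          have : ((1 : ℝ) / 4) ^ N = (1 / 2) ^ N * (1 / 2) ^ N := by
            rw [← mul_pow]; norm_num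
          rw [pow_succ, this]
          ring
    have h7 : 1 / 4 * (1 / 2 : ℝ) ^ N * ((1 / 2) ^ N * L) <
        1 / 4 * (1 / 2) ^ N * (β * (1 / 2) ^ js * c js) :=
      mul_lt_mul_of_pos_left hN (by positivity)
    have h8 : β * (1 / 2) ^ js * kk N * c js = 1 / 4 * (1 / 2) ^ N * (β * (1 / 2) ^ js * c js) := by
      unfold kk
      ring
    rw [h8] at h5
    change R (fs (t N (m + 1))) + DD ρ β (t N (m + 1)) ≤ _ at h1
    change ∑ m' ∈ Finset.range (m + 1), _ ≤ DD ρ β (t N (m + 1)) at h2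
    linarith

end Pool.Agent.helper26.CS
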